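import Pool.Agent.Lib.MP_56e41f_co.Defs

open Finset

namespace Pool.Agent.Lib.MP_56e41f_co

variable {V : Type*} [Fintype V] [DecidableEq V] {t Δ : ℕ}

/-- counting the free places in one class -/
theorem HostBip_count (T : TD t Δ) (X : Finset V) (r : ℕ) (p : V → Prop) [DecidablePred p]
    (S : Finset (Fin t)) (φ : Fin t → V) (D : Finset V)
    (hX : ∀ i ∈ S, T.dep i % 2 ≠ r → φ i ∉ X) :
    (X.filter p).card ≤ ((X \ (S.image φ ∪ D)).filter p).card +
      (S.filter (fun i => T.dep i % 2 = r)).card + D.card := by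
  have h1 : X.filter p ⊆ ((X \ (S.image φ ∪ D)).filter p) ∪
      (S.filter (fun i => T.dep i % 2 = r)).image φ ∪ D := by
    intro z hz
    rw [mem_filter] at hz
    rw [mem_union, mem_union]
    by_cases hzD : z ∈ D
    · exact Or.inr hzD
    left
    by_cases hzS : z ∈ S.image φ
    · right
      obtain ⟨i, hi, rfl⟩ := mem_image.mp hzS
      refine mem_image_of_mem φ ?_
      rw [mem_filter]
      refine ⟨hi, ?_⟩
      by_contra hne
      exact hX i hi hne hz.1
    · left
      rw [mem_filter, mem_sdiff, mem_union]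
      exact ⟨⟨hz.1, fun h => h.elim hzS hzD⟩, hz.2⟩
  refine (card_le_card h1).trans ((card_union_le _ _).trans ?_)
  refine Nat.add_le_add_right ((card_union_le _ _).trans ?_) _
  exact Nat.add_le_add_left card_image_le _

theorem host_bip (T : TD t Δ) (E : Finset (Sym2 V)) (P Q : Finset V) (w m : ℕ)
    (hl : ∀ x : V, s(x, x) ∉ E) (hPQ : Disjoint P Q) (hP : P.Nonempty) (hQ : Q.Nonempty)
    (h1 : ∀ a ∈ P, (univ.filter (fun i => T.dep i % 2 = 1)).card + w + m
      ≤ (Q.filter (fun z => s(a, z) ∈ E)).card)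
    (h2 : ∀ b ∈ Q, (univ.filter (fun i => T.dep i % 2 = 0)).card + w + m
      ≤ (P.filter (fun z => s(b, z) ∈ E)).card) :
    Host T E (fun i => if T.dep i % 2 = 0 then P else Q) w m := by
  classical
  -- vertices of the other parity are placed outside
  have hPout : ∀ (S : Finset (Fin t)) (φ : Fin t → V),
      (∀ i ∈ S, φ i ∈ (if T.dep i % 2 = 0 then P else Q)) →
      ∀ i ∈ S, T.dep i % 2 ≠ 0 → φ i ∉ P := by
    intro S φ hφ i hi hne hiP
    have h3 := hφ i hi
    rw [if_neg hne] at h3
    exact (Finset.disjoint_left.mp hPQ) hiP h3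
  have hQout : ∀ (S : Finset (Fin t)) (φ : Fin t → V),
      (∀ i ∈ S, φ i ∈ (if T.dep i % 2 = 0 then P else Q)) →
      ∀ i ∈ S, T.dep i % 2 ≠ 1 → φ i ∉ Q := by
    intro S φ hφ i hi hne hiQ
    have h3 := hφ i hi
    rw [if_pos (by omega)] at h3
    exact (Finset.disjoint_left.mp hPQ) h3 hiQ
  refine ⟨?_, ?_, hl⟩
  · intro S φ D _ hφ hD v hv hv0
    have hdv : T.dep v = 0 := (T.dep_zero v).mpr hv0
    obtain ⟨b, hb⟩ := hQ
    have h3 := h2 b hb
    have h4 := HostBip_count T P 0 (fun z => s(b, z) ∈ E) S φ D (hPout S φ hφ)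
    have h5 : (S.filter (fun i => T.dep i % 2 = 0)).card <
        (univ.filter (fun i => T.dep i % 2 = 0)).card := by
      apply card_lt_card
      rw [ssubset_iff_of_subset (filter_subset_filter _ (subset_univ S))]
      refine ⟨v, ?_, ?_⟩
      · rw [mem_filter]
        exact ⟨mem_univ _, by rw [hdv]⟩
      · rw [mem_filter]
        exact fun h => hv h.1
    have h6 : 0 < ((P \ (S.image φ ∪ D)).filter (fun z => s(b, z) ∈ E)).card := by omega
    obtain ⟨z, hz⟩ := card_pos.mp h6
    refine ⟨z, ?_⟩
    rw [mem_filter] at hz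
    simp only [hdv, Nat.zero_mod, if_true]
    exact hz.1
  · intro S φ D _ hφ hD v hv hv0 hpar
    have hdp := T.dep_par v hv0
    by_cases hpv : T.dep v % 2 = 0
    · simp only [hpv, if_true]
      have hbQ : φ (T.par v) ∈ Q := by
        have := hφ _ hpar
        rwa [if_neg (by omega)] at this
      have h3 := h2 _ hbQ
      have h4 := HostBip_count T P 0 (fun z => s(φ (T.par v), z) ∈ E) S φ D (hPout S φ hφ)
      have h5 : (S.filter (fun i => T.dep i % 2 = 0)).card ≤
          (univ.filter (fun i => T.dep i % 2 = 0)).card :=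
        card_le_card (filter_subset_filter _ (subset_univ S))
      omega
    · simp only [hpv, if_false]
      have haP : φ (T.par v) ∈ P := by
        have := hφ _ hpar
        rwa [if_pos (by omega)] at this
      have h3 := h1 _ haP
      have h4 := HostBip_count T Q 1 (fun z => s(φ (T.par v), z) ∈ E) S φ D (hQout S φ hφ)
      have h5 : (S.filter (fun i => T.dep i % 2 = 1)).card ≤
          (univ.filter (fun i => T.dep i % 2 = 1)).card :=
        card_le_card (filter_subset_filter _ (subset_univ S))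
      omega

end Pool.Agent.Lib.MP_56e41f_co
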