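import Pool.Agent.Lib.MP_56e41f_co.Defs

open Finset

namespace Pool.Agent.Lib.MP_56e41f_co

variable {V : Type*} [Fintype V] [DecidableEq V] {t Δ : ℕ}

/-- number of edges between the two sides -/
def sideE (E : Finset (Sym2 V)) (A B : Finset V) : ℕ :=
  ∑ a ∈ A, (B.filter (fun z => s(a, z) ∈ E)).card

theorem sideE_symm (E : Finset (Sym2 V)) (A B : Finset V) : sideE E A B = sideE E B A := by
  unfold sideE
  simp only [card_filter]
  rw [sum_comm]
  refine sum_congr rfl fun b _ => sum_congr rfl fun a _ => ?_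
  rw [Sym2.eq_swap]

theorem sideE_erase (E : Finset (Sym2 V)) {A : Finset V} (B : Finset V) {a : V} (ha : a ∈ A) :
    sideE E A B = sideE E (A.erase a) B + (B.filter (fun z => s(a, z) ∈ E)).card := by
  unfold sideE
  rw [← sum_erase_add A _ ha]

theorem sideE_le (E : Finset (Sym2 V)) (A B : Finset V)
    (hE : ∀ e ∈ E, ∃ a ∈ A, ∃ b ∈ B, e = s(a, b)) : E.card ≤ sideE E A B := by
  have h1 : sideE E A B = ((A ×ˢ B).filter (fun p => s(p.1, p.2) ∈ E)).card := by
    unfold sideE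
    simp only [card_filter]
    rw [sum_product]
  rw [h1]
  have h2 : E ⊆ ((A ×ˢ B).filter (fun p => s(p.1, p.2) ∈ E)).image (fun p => s(p.1, p.2)) := by
    intro e he
    obtain ⟨a, ha, b, hb, rfl⟩ := hE e he
    exact mem_image.2 ⟨(a, b), mem_filter.2 ⟨mem_product.2 ⟨ha, hb⟩, he⟩, rfl⟩
  exact (card_le_card h2).trans card_image_le

theorem side_degrees (E : Finset (Sym2 V)) (A B : Finset V) (hAB : Disjoint A B)
    (hE : ∀ e ∈ E, ∃ a ∈ A, ∃ b ∈ B, e = s(a, b)) (hne : E.Nonempty) (d α β : ℝ)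
    (hcard : A.card ≤ B.card) (hd : d / 2 * (A.card + B.card) ≤ E.card)
    (hα : d / 2 ≤ α) (hα0 : 0 < α) (hβ : 0 < β) (hsum : α + β ≤ d) :
    ∃ A' ⊆ A, ∃ B' ⊆ B, A'.Nonempty ∧ B'.Nonempty ∧
      (∀ a ∈ A', α ≤ ((B'.filter (fun z => s(a, z) ∈ E)).card : ℝ)) ∧
      (∀ b ∈ B', β ≤ ((A'.filter (fun z => s(b, z) ∈ E)).card : ℝ)) := by
  set F : Finset V × Finset V → ℝ := fun p =>
    (sideE E p.1 p.2 : ℝ) - α * (p.1.card : ℝ) - β * (p.2.card : ℝ) with hF
  set S := (A.powerset ×ˢ B.powerset).filter (fun p => (p.1 ∪ p.2).Nonempty) with hS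
  have hAne : A.Nonempty := by
    obtain ⟨e, he⟩ := hne
    obtain ⟨a, ha, _⟩ := hE e he
    exact ⟨a, ha⟩
  have hABS : (A, B) ∈ S := by
    rw [hS, mem_filter, mem_product, mem_powerset, mem_powerset]
    exact ⟨⟨Subset.refl _, Subset.refl _⟩, hAne.mono subset_union_left⟩
  obtain ⟨⟨A', B'⟩, hmem, hmax⟩ := S.exists_max_image F ⟨_, hABS⟩
  rw [hS, mem_filter, mem_product, mem_powerset, mem_powerset] at hmem
  obtain ⟨⟨hA', hB'⟩, hne'⟩ := hmem
  dsimp only at hA' hB' hne'
  have hFAB : 0 ≤ F (A, B) := by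
    rw [hF]
    dsimp only
    have h1 : (E.card : ℝ) ≤ (sideE E A B : ℝ) := by exact_mod_cast sideE_le E A B hE
    have h2 : (A.card : ℝ) ≤ (B.card : ℝ) := by exact_mod_cast hcard
    nlinarith
  have hF0 : 0 ≤ F (A', B') := hFAB.trans (hmax _ hABS)
  have hF0' : 0 ≤ (sideE E A' B' : ℝ) - α * (A'.card : ℝ) - β * (B'.card : ℝ) := hF0
  have hA'ne : A'.Nonempty := by
    rw [nonempty_iff_ne_empty]
    intro h
    subst h
    have hB : B'.Nonempty := by simpa using hne'
    have h1 : sideE E ∅ B' = 0 := by simp [sideE]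
    rw [h1] at hF0'
    have h2 : (0 : ℝ) < (B'.card : ℝ) := by exact_mod_cast hB.card_pos
    simp only [Nat.cast_zero, card_empty, mul_zero, sub_zero, zero_sub] at hF0'
    nlinarith
  have hB'ne : B'.Nonempty := by
    rw [nonempty_iff_ne_empty]
    intro h
    subst h
    have h1 : sideE E A' ∅ = 0 := by simp [sideE]
    rw [h1] at hF0'
    have h2 : (0 : ℝ) < (A'.card : ℝ) := by exact_mod_cast hA'ne.card_pos
    simp only [Nat.cast_zero, card_empty, mul_zero, sub_zero, zero_sub] at hF0'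
    nlinarith
  refine ⟨A', hA', B', hB', hA'ne, hB'ne, fun a ha => ?_, fun b hb => ?_⟩
  · by_contra hcon
    push Not at hcon
    have hmem : (A'.erase a, B') ∈ S := by
      rw [hS, mem_filter, mem_product, mem_powerset, mem_powerset]
      exact ⟨⟨(erase_subset _ _).trans hA', hB'⟩, hB'ne.mono subset_union_right⟩
    have h1 := hmax _ hmem
    rw [hF] at h1
    dsimp only at h1
    rw [sideE_erase E B' ha] at h1
    have h2 : ((A'.erase a).card : ℝ) = (A'.card : ℝ) - 1 := by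
      rw [card_erase_of_mem ha, Nat.cast_sub (card_pos.2 ⟨a, ha⟩), Nat.cast_one]
    rw [h2] at h1
    push_cast at h1
    linarith
  · by_contra hcon
    push Not at hcon
    have hmem : (A', B'.erase b) ∈ S := by
      rw [hS, mem_filter, mem_product, mem_powerset, mem_powerset]
      exact ⟨⟨hA', (erase_subset _ _).trans hB'⟩, hA'ne.mono subset_union_left⟩
    have h1 := hmax _ hmem
    rw [hF] at h1
    dsimp only at h1
    rw [sideE_symm E A' B', sideE_erase E A' hb, sideE_symm E (B'.erase b) A'] at h1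
    have h2 : ((B'.erase b).card : ℝ) = (B'.card : ℝ) - 1 := by
      rw [card_erase_of_mem hb, Nat.cast_sub (card_pos.2 ⟨b, hb⟩), Nat.cast_one]
    rw [h2] at h1
    push_cast at h1
    linarith

end Pool.Agent.Lib.MP_56e41f_co
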