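import Pool.Agent.Lib.MP_56e41f_co.Ex
import Pool.Agent.Lib.MP_56e41f_co.Side
import Pool.Agent.Lib.MP_56e41f_co.HostBip

/-!
# Arbitrary hosts: a good bipartition adapted to the colour classes of the tree
-/

open Finset

namespace Pool.Agent.Lib.MP_56e41f_co

variable {V : Type*} [Fintype V] [DecidableEq V] {t Δ : ℕ}

/-- General form of `side_degrees`. -/
theorem side_gen (E : Finset (Sym2 V)) (A B : Finset V)
    (hE : ∀ e ∈ E, ∃ a ∈ A, ∃ b ∈ B, e = s(a, b)) (hne : E.Nonempty) (α β : ℝ)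
    (hα0 : 0 < α) (hβ : 0 < β) (hd : α * A.card + β * B.card ≤ E.card) :
    ∃ A' ⊆ A, ∃ B' ⊆ B, A'.Nonempty ∧ B'.Nonempty ∧
      (∀ a ∈ A', α ≤ ((B'.filter (fun z => s(a, z) ∈ E)).card : ℝ)) ∧
      (∀ b ∈ B', β ≤ ((A'.filter (fun z => s(b, z) ∈ E)).card : ℝ)) := by
  set F : Finset V × Finset V → ℝ := fun p =>
    (sideE E p.1 p.2 : ℝ) - α * (p.1.card : ℝ) - β * (p.2.card : ℝ) with hF
  set S := (A.powerset ×ˢ B.powerset).filter (fun p => (p.1 ∪ p.2).Nonempty) with hS
  have hAne : A.Nonempty := by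
    obtain ⟨e, he⟩ := hne
    obtain ⟨a, ha, _⟩ := hE e he
    exact ⟨a, ha⟩
  have hABS : (A, B) ∈ S := by
    rw [hS, mem_filter, mem_product, mem_powerset, mem_powerset]
    exact ⟨⟨Subset.refl _, Subset.refl _⟩, hAne.mono subset_union_left⟩
  obtain ⟨⟨A', B'⟩, hmem, hmax⟩ := S.exists_max_image F ⟨_, hABS⟩
  rw [hS, mem_filter, mem_product, mem_powerset, mem_powerset] at hmem
  obtain ⟨⟨hA', hB'⟩, hne'⟩ := hmem
  dsimp only at hA' hB' hne'
  have hFAB : 0 ≤ F (A, B) := by
    rw [hF]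
    dsimp only
    have h1 : (E.card : ℝ) ≤ (sideE E A B : ℝ) := by exact_mod_cast sideE_le E A B hE
    linarith
  have hF0 : 0 ≤ F (A', B') := hFAB.trans (hmax _ hABS)
  have hF0' : 0 ≤ (sideE E A' B' : ℝ) - α * (A'.card : ℝ) - β * (B'.card : ℝ) := hF0
  have hA'ne : A'.Nonempty := by
    rw [nonempty_iff_ne_empty]
    intro h
    subst h
    have hB : B'.Nonempty := by simpa using hne'
    have h1 : sideE E ∅ B' = 0 := by simp [sideE]
    rw [h1] at hF0'
    have h2 : (0 : ℝ) < (B'.card : ℝ) := by exact_mod_cast hB.card_pos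
    simp only [Nat.cast_zero, card_empty, mul_zero, sub_zero, zero_sub] at hF0'
    nlinarith
  have hB'ne : B'.Nonempty := by
    rw [nonempty_iff_ne_empty]
    intro h
    subst h
    have h1 : sideE E A' ∅ = 0 := by simp [sideE]
    rw [h1] at hF0'
    have h2 : (0 : ℝ) < (A'.card : ℝ) := by exact_mod_cast hA'ne.card_pos
    simp only [Nat.cast_zero, card_empty, mul_zero, sub_zero, zero_sub] at hF0'
    nlinarith
  refine ⟨A', hA', B', hB', hA'ne, hB'ne, fun a ha => ?_, fun b hb => ?_⟩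
  · by_contra hcon
    push Not at hcon
    have hmem : (A'.erase a, B') ∈ S := by
      rw [hS, mem_filter, mem_product, mem_powerset, mem_powerset]
      exact ⟨⟨(erase_subset _ _).trans hA', hB'⟩, hB'ne.mono subset_union_right⟩
    have h1 := hmax _ hmem
    rw [hF] at h1
    dsimp only at h1
    rw [sideE_erase E B' ha] at h1
    have h2 : ((A'.erase a).card : ℝ) = (A'.card : ℝ) - 1 := by
      rw [card_erase_of_mem ha, Nat.cast_sub (card_pos.2 ⟨a, ha⟩), Nat.cast_one]
    rw [h2] at h1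
    push_cast at h1
    linarith
  · by_contra hcon
    push Not at hcon
    have hmem : (A', B'.erase b) ∈ S := by
      rw [hS, mem_filter, mem_product, mem_powerset, mem_powerset]
      exact ⟨⟨hA', (erase_subset _ _).trans hB'⟩, hA'ne.mono subset_union_left⟩
    have h1 := hmax _ hmem
    rw [hF] at h1
    dsimp only at h1
    rw [sideE_symm E A' B', sideE_erase E A' hb, sideE_symm E (B'.erase b) A'] at h1
    have h2 : ((B'.erase b).card : ℝ) = (B'.card : ℝ) - 1 := by
      rw [card_erase_of_mem hb, Nat.cast_sub (card_pos.2 ⟨b, hb⟩), Nat.cast_one]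
    rw [h2] at h1
    push_cast at h1
    linarith

/-- Hosts may be enlarged. -/
theorem host_mono (T : TD t Δ) (E E' : Finset (Sym2 V)) (C : Fin t → Finset V) (w m : ℕ)
    (h : Host T E C w m) (hEE : E ⊆ E') (hl : ∀ x : V, s(x, x) ∉ E') : Host T E' C w m := by
  refine ⟨h.root, ?_, hl⟩
  intro S φ D h1 h2 h3 v hv hv0 hp
  refine le_trans (h.avail S φ D h1 h2 h3 v hv hv0 hp) (card_le_card ?_)
  intro z hz
  rw [mem_filter] at hz ⊢
  exact ⟨hz.1, hEE hz.2⟩

/-- `x ∈ A` for a random set `A`. -/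
theorem ex_mem {α : Type*} [DecidableEq α] (p : ℝ) (E : Finset α) (e : α) (he : e ∈ E) :
    pr p E (fun F => e ∈ F) = p := by
  unfold pr
  rw [ex_erase p E e he]
  have h1 : ex p (E.erase e) (fun F => ind (e ∈ insert e F)) = 1 := by
    rw [ex_congr p (E.erase e) (g := fun _ => 1)
      (fun F _ => ind_true (Finset.mem_insert_self e F)), ex_const]
  have h2 : ex p (E.erase e) (fun F => ind (e ∈ F)) = 0 := by
    rw [ex_congr p (E.erase e) (g := fun _ => 0)
      (fun F hF => ind_false (fun h => Finset.notMem_erase e E (hF h))), ex_const]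
  rw [h1, h2]
  ring

/-- Probability that a random set separates two points. -/
theorem ex_sep {α : Type*} [DecidableEq α] (p : ℝ) (E : Finset α) (x y : α) (hx : x ∈ E)
    (hy : y ∈ E) (hxy : x ≠ y) :
    pr p E (fun F => (x ∈ F ∧ y ∉ F) ∨ (y ∈ F ∧ x ∉ F)) = 2 * p * (1 - p) := by
  unfold pr
  rw [ex_erase p E x hx]
  have hy' : y ∈ E.erase x := mem_erase.mpr ⟨hxy.symm, hy⟩
  have h1 : ex p (E.erase x) (fun F => ind ((x ∈ insert x F ∧ y ∉ insert x F) ∨
      (y ∈ insert x F ∧ x ∉ insert x F))) = 1 - p := by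
    rw [← pr_not_mem p (E.erase x) y hy']
    unfold pr
    refine ex_congr p (E.erase x) (fun F _ => ?_)
    congr 1
    simp [hxy.symm]
  have h2 : ex p (E.erase x) (fun F => ind ((x ∈ F ∧ y ∉ F) ∨ (y ∈ F ∧ x ∉ F))) = p := by
    refine Eq.trans ?_ (ex_mem p (E.erase x) y hy')
    unfold pr
    refine ex_congr p (E.erase x) (fun F hF => ?_)
    have hxF : x ∉ F := fun h => Finset.notMem_erase x E (hF h)
    congr 1
    simp [hxF]
  rw [h1, h2]
  ring

/-- the edges between `A` and its complement -/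
noncomputable def cutE (E : Finset (Sym2 V)) (A : Finset V) : Finset (Sym2 V) := by
  classical
  exact E.filter (fun e => ∃ a ∈ A, ∃ b ∈ Aᶜ, e = s(a, b))

theorem mem_cutE (E : Finset (Sym2 V)) (A : Finset V) (e : Sym2 V) :
    e ∈ cutE E A ↔ e ∈ E ∧ ∃ a ∈ A, ∃ b ∈ Aᶜ, e = s(a, b) := by
  classical
  unfold cutE
  rw [mem_filter]

/-- A bipartition at least as good as the average one. -/
theorem exists_cut (E : Finset (Sym2 V)) (hl : ∀ x : V, s(x, x) ∉ E) (α β ρ : ℝ) (h0 : 0 ≤ ρ)
    (h1 : ρ ≤ 1) : ∃ A : Finset V,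
      2 * ρ * (1 - ρ) * E.card - α * (ρ * Fintype.card V) - β * ((1 - ρ) * Fintype.card V)
        ≤ (cutE E A).card - α * A.card - β * (Aᶜ : Finset V).card := by
  by_contra hcon
  push Not at hcon
  have hcut : ∀ A : Finset V, ((cutE E A).card : ℝ) = ∑ e ∈ E, ind (∃ a ∈ A, ∃ b ∈ Aᶜ, e = s(a, b)) := by
    intro A
    classical
    unfold cutE
    rw [card_filter]
    push_cast
    refine sum_congr rfl (fun e _ => ?_)
    by_cases h : ∃ a ∈ A, ∃ b ∈ Aᶜ, e = s(a, b)
    · rw [ind_true h, if_pos h]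
    · rw [ind_false h, if_neg h]
  have hA : ∀ A : Finset V, (A.card : ℝ) = ∑ x ∈ (univ : Finset V), ind (x ∈ A) := by
    intro A
    have : (A.card : ℝ) = ∑ x ∈ (univ : Finset V), if x ∈ A then (1 : ℝ) else 0 := by
      rw [Finset.sum_ite_mem, univ_inter, sum_const, nsmul_eq_mul, mul_one]
    rw [this]
    refine sum_congr rfl (fun x _ => ?_)
    by_cases h : x ∈ A
    · rw [ind_true h, if_pos h]
    · rw [ind_false h, if_neg h]
  have hAc : ∀ A : Finset V, ((Aᶜ : Finset V).card : ℝ) = ∑ x ∈ (univ : Finset V), ind (x ∉ A) := by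
    intro A
    rw [hA Aᶜ]
    refine sum_congr rfl (fun x _ => ?_)
    congr 1
    simp
  have e1 : ex ρ univ (fun A : Finset V => ((cutE E A).card : ℝ)) = 2 * ρ * (1 - ρ) * E.card := by
    rw [ex_congr ρ univ (fun A _ => hcut A), ex_sum]
    rw [Finset.sum_congr rfl (g := fun _ => 2 * ρ * (1 - ρ))]
    · rw [sum_const, nsmul_eq_mul]; ring
    · intro e he
      induction e using Sym2.ind with
      | _ x y =>
        have hxy : x ≠ y := by
          rintro rfl
          exact hl x he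
        rw [← ex_sep ρ univ x y (mem_univ _) (mem_univ _) hxy]
        unfold pr
        refine ex_congr ρ univ (fun A _ => ?_)
        congr 1
        apply propext
        constructor
        · rintro ⟨a, ha, b, hb, hab⟩
          rw [Sym2.eq_iff] at hab
          rw [mem_compl] at hb
          rcases hab with ⟨rfl, rfl⟩ | ⟨rfl, rfl⟩
          · exact Or.inl ⟨ha, hb⟩
          · exact Or.inr ⟨ha, hb⟩
        · rintro (⟨hx, hy⟩ | ⟨hy, hx⟩)
          · exact ⟨x, hx, y, mem_compl.mpr hy, rfl⟩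
          · exact ⟨y, hy, x, mem_compl.mpr hx, Sym2.eq_swap⟩
  have e2 : ex ρ univ (fun A : Finset V => (A.card : ℝ)) = ρ * Fintype.card V := by
    rw [ex_congr ρ univ (fun A _ => hA A), ex_sum]
    have hx : ∀ x : V, ex ρ univ (fun A : Finset V => ind (x ∈ A)) = ρ := fun x =>
      ex_mem ρ univ x (mem_univ _)
    simp only [hx]
    rw [sum_const, nsmul_eq_mul, card_univ]; ring
  have e3 : ex ρ univ (fun A : Finset V => ((Aᶜ : Finset V).card : ℝ))
      = (1 - ρ) * Fintype.card V := by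
    rw [ex_congr ρ univ (fun A _ => hAc A), ex_sum]
    have hx : ∀ x : V, ex ρ univ (fun A : Finset V => ind (x ∉ A)) = 1 - ρ := fun x =>
      pr_not_mem ρ univ x (mem_univ _)
    simp only [hx]
    rw [sum_const, nsmul_eq_mul, card_univ]; ring
  set c := 2 * ρ * (1 - ρ) * E.card - α * (ρ * Fintype.card V) - β * ((1 - ρ) * Fintype.card V)
    with hc
  have e4 : ex ρ univ (fun A : Finset V =>
      ((cutE E A).card : ℝ) - α * A.card - β * (Aᶜ : Finset V).card) = c := by
    rw [ex_sub, ex_sub, ex_mul_left, ex_mul_left, e1, e2, e3]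
  -- strict inequality everywhere contradicts the mean
  obtain ⟨A0, hA0, hmax⟩ := (univ : Finset (Finset V)).exists_max_image (fun A : Finset V =>
    ((cutE E A).card : ℝ) - α * A.card - β * (Aᶜ : Finset V).card) ⟨∅, mem_univ _⟩
  have e5 := ex_mono h0 h1 univ (f := fun A : Finset V =>
      ((cutE E A).card : ℝ) - α * A.card - β * (Aᶜ : Finset V).card)
      (g := fun _ => ((cutE E A0).card : ℝ) - α * A0.card - β * (A0ᶜ : Finset V).card)
      (fun A _ => hmax A (mem_univ _))
  rw [ex_const, e4] at e5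
  exact absurd (hcon A0) (not_lt.mpr e5)

/-- Hosts in arbitrary graphs. -/
theorem exists_host_all (T : TD t Δ) (ht : 2 ≤ t) (E : Finset (Sym2 V))
    (hl : ∀ x : V, s(x, x) ∉ E) [Nonempty V] (w m : ℕ)
    (hd : (Real.sqrt ((univ.filter (fun i => T.dep i % 2 = 0)).card + (w + m)) +
      Real.sqrt ((univ.filter (fun i => T.dep i % 2 = 1)).card + (w + m))) ^ 2 * Fintype.card V
      ≤ 2 * E.card) :
    ∃ C : Fin t → Finset V, Host T E C w m := by
  set e0 := (univ.filter (fun i => T.dep i % 2 = 0)).card with he0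
  set e1 := (univ.filter (fun i => T.dep i % 2 = 1)).card with he1
  have he0pos : 0 < e0 := by
    rw [he0, card_pos]
    refine ⟨⟨0, by omega⟩, ?_⟩
    rw [mem_filter]
    refine ⟨mem_univ _, ?_⟩
    rw [(T.dep_zero ⟨0, by omega⟩).mpr rfl]
  have he1pos : 0 < e1 := by
    rw [he1, card_pos]
    refine ⟨⟨1, by omega⟩, ?_⟩
    rw [mem_filter]
    refine ⟨mem_univ _, ?_⟩
    have h1 := T.dep_par ⟨1, by omega⟩ (by norm_num)
    have h2 : T.dep (T.par ⟨1, by omega⟩) < T.dep ⟨1, by omega⟩ := by omega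
    have h3 : (T.par ⟨1, by omega⟩).val = 0 := by
      by_contra hne
      have h4 : (⟨1, by omega⟩ : Fin t) ≤ T.par ⟨1, by omega⟩ := by
        rw [Fin.le_def]; simp only; omega
      have := T.mono _ _ h4
      omega
    have h5 := (T.dep_zero _).mpr h3
    omega
  set s : ℝ := (w : ℝ) + m with hs
  have hs0 : 0 ≤ s := by positivity
  set a := Real.sqrt ((e0 : ℝ) + s) with ha
  set b := Real.sqrt ((e1 : ℝ) + s) with hb
  have ha2 : a ^ 2 = (e0 : ℝ) + s := Real.sq_sqrt (by positivity)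
  have hb2 : b ^ 2 = (e1 : ℝ) + s := Real.sq_sqrt (by positivity)
  have hapos : 0 < a := Real.sqrt_pos.mpr (by positivity)
  have hbpos : 0 < b := Real.sqrt_pos.mpr (by positivity)
  have hn : (0 : ℝ) < Fintype.card V := by exact_mod_cast Fintype.card_pos
  obtain ⟨A, hA⟩ := exists_cut E hl (b ^ 2) (a ^ 2) (a / (a + b)) (by positivity)
    (by rw [div_le_one (by positivity)]; linarith)
  have hkey : 0 ≤ ((cutE E A).card : ℝ) - b ^ 2 * A.card - a ^ 2 * (Aᶜ : Finset V).card := by
    refine le_trans ?_ hA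
    have h1 : 2 * (a / (a + b)) * (1 - a / (a + b)) * (E.card : ℝ)
        - b ^ 2 * (a / (a + b) * Fintype.card V)
        - a ^ 2 * ((1 - a / (a + b)) * Fintype.card V)
        = a * b / (a + b) ^ 2 * (2 * E.card - (a + b) ^ 2 * Fintype.card V) := by
      field_simp
      ring
    rw [h1]
    refine mul_nonneg (by positivity) ?_
    linarith
  have hcard : (A.card : ℝ) + (Aᶜ : Finset V).card = Fintype.card V := by
    exact_mod_cast card_add_card_compl A
  have hcutne : (cutE E A).Nonempty := by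
    rw [← card_pos]
    have h2 : (0 : ℝ) < ((cutE E A).card : ℝ) := by
      have h3 : 0 < b ^ 2 * (A.card : ℝ) + a ^ 2 * (Aᶜ : Finset V).card := by
        have h4 : (0 : ℝ) ≤ A.card := Nat.cast_nonneg _
        have h5 : (0 : ℝ) ≤ (Aᶜ : Finset V).card := Nat.cast_nonneg _
        rcases lt_or_eq_of_le h4 with h6 | h6
        · have : 0 < b ^ 2 * (A.card : ℝ) := by positivity
          have : 0 ≤ a ^ 2 * ((Aᶜ : Finset V).card : ℝ) := by positivity
          linarith
        · have h7 : (0 : ℝ) < (Aᶜ : Finset V).card := by linarith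
          have : 0 < a ^ 2 * ((Aᶜ : Finset V).card : ℝ) := by positivity
          have : 0 ≤ b ^ 2 * (A.card : ℝ) := by positivity
          linarith
      linarith
    exact_mod_cast h2
  obtain ⟨A', hA', B', hB', hAn, hBn, hdA, hdB⟩ := side_gen (cutE E A) A Aᶜ
    (fun e he => ((mem_cutE E A e).mp he).2) hcutne (b ^ 2) (a ^ 2) (by positivity)
    (by positivity) (by linarith)
  have hdisj : Disjoint A' B' := disjoint_of_subset_left hA' (disjoint_of_subset_right hB'
    disjoint_compl_right)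
  have hsub : cutE E A ⊆ E := fun e he => ((mem_cutE E A e).mp he).1
  refine ⟨_, host_mono T (cutE E A) E _ w m (host_bip T (cutE E A) A' B' w m
    (fun x hx => hl x (hsub hx)) hdisj hAn hBn ?_ ?_) hsub hl⟩
  · intro x hx
    have h1 := hdA x hx
    rw [hb2, hs] at h1
    have h2 : ((e1 + w + m : ℕ) : ℝ) ≤ ((B'.filter (fun z => s(x, z) ∈ cutE E A)).card : ℝ) := by
      push_cast
      linarith
    exact_mod_cast h2
  · intro x hx
    have h1 := hdB x hx
    rw [ha2, hs] at h1
    have h2 : ((e0 + w + m : ℕ) : ℝ) ≤ ((A'.filter (fun z => s(x, z) ∈ cutE E A)).card : ℝ) := by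
      push_cast
      linarith
    exact_mod_cast h2

end Pool.Agent.Lib.MP_56e41f_co
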