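import Pool.Agent.Lib.MP_56e41f_co.Tree

open Finset

namespace Pool.Agent.Lib.MP_56e41f_co

variable {V : Type*} [Fintype V] [DecidableEq V] {t Δ : ℕ}

/-- a host contains a copy of the tree (the vertex set has to be nonempty) -/
theorem emb_of_host [Nonempty V] (T : TD t Δ) (E : Finset (Sym2 V)) (C : Fin t → Finset V) (m : ℕ)
    (hH : Host T E C 0 m) (hm : 1 ≤ m) : Emb T E := by
  have key : ∀ k ≤ t, ∃ φ : Fin t → V,
      Set.InjOn φ (univ.filter (fun i : Fin t => i.val < k) : Finset (Fin t)) ∧
      (∀ i : Fin t, i.val < k → φ i ∈ C i) ∧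
      ∀ i : Fin t, i.val < k → i.val ≠ 0 → s(φ (T.par i), φ i) ∈ E := by
    intro k
    induction k with
    | zero =>
      intro _
      refine ⟨fun _ => Classical.arbitrary V, ?_, fun i hi => absurd hi (Nat.not_lt_zero _),
        fun i hi => absurd hi (Nat.not_lt_zero _)⟩
      intro i hi
      rw [mem_coe, mem_filter] at hi
      exact absurd hi.2 (Nat.not_lt_zero _)
    | succ k ih =>
      intro hk
      obtain ⟨φ, hinj, hC, hE⟩ := ih (by omega)
      set v : Fin t := ⟨k, by omega⟩ with hv
      set S : Finset (Fin t) := univ.filter (fun i : Fin t => i.val < k) with hS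
      have hvS : v ∉ S := by
        rw [hS, mem_filter]
        rintro ⟨_, h⟩
        exact lt_irrefl _ h
      have hCS : ∀ i ∈ S, φ i ∈ C i := fun i hi => hC i (by
        rw [hS, mem_filter] at hi; exact hi.2)
      -- a new vertex `z`
      obtain ⟨z, hzC, hzS, hzE⟩ : ∃ z, z ∈ C v ∧ z ∉ S.image φ ∧
          (v.val ≠ 0 → s(φ (T.par v), z) ∈ E) := by
        by_cases hk0 : v.val = 0
        · obtain ⟨z, hz⟩ := hH.root S φ ∅ hinj hCS (by simp) v hvS hk0
          rw [mem_sdiff, union_empty] at hz
          exact ⟨z, hz.1, hz.2, fun h => absurd hk0 h⟩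
        · have hpar : T.par v ∈ S := by
            rw [hS, mem_filter]
            exact ⟨mem_univ _, T.par_lt v hk0⟩
          have h1 := hH.avail S φ ∅ hinj hCS (by simp) v hvS hk0 hpar
          obtain ⟨z, hz⟩ := card_pos.1 (lt_of_lt_of_le hm h1)
          rw [mem_filter, mem_sdiff, union_empty] at hz
          exact ⟨z, hz.1.1, hz.1.2, fun _ => hz.2⟩
      have hnew : ∀ i : Fin t, i.val < k → Function.update φ v z i = φ i := by
        intro i hi
        refine Function.update_of_ne (fun h => ?_) _ _
        rw [h] at hi
        exact lt_irrefl _ hi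
      have hcase : ∀ i : Fin t, i.val < k + 1 → i.val < k ∨ i = v := by
        intro i hi
        rcases Nat.lt_succ_iff_lt_or_eq.1 hi with h | h
        · exact Or.inl h
        · exact Or.inr (Fin.ext h)
      have hzn : ∀ i : Fin t, i.val < k → φ i ≠ z := by
        intro i hi h
        refine hzS (mem_image.2 ⟨i, ?_, h⟩)
        rw [hS, mem_filter]
        exact ⟨mem_univ _, hi⟩
      refine ⟨Function.update φ v z, ?_, fun i hi => ?_, fun i hi hi0 => ?_⟩
      · intro i hi j hj hij
        rw [mem_coe, mem_filter] at hi hj
        rcases hcase i hi.2 with h1 | h1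
        · rcases hcase j hj.2 with h2 | h2
          · rw [hnew i h1, hnew j h2] at hij
            refine hinj ?_ ?_ hij
            · rw [mem_coe, hS, mem_filter]; exact ⟨mem_univ _, h1⟩
            · rw [mem_coe, hS, mem_filter]; exact ⟨mem_univ _, h2⟩
          · subst h2
            rw [hnew i h1, Function.update_self] at hij
            exact absurd hij (hzn i h1)
        · rcases hcase j hj.2 with h2 | h2
          · subst h1
            rw [hnew j h2, Function.update_self] at hij
            exact absurd hij.symm (hzn j h2)
          · rw [h1, h2]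
      · rcases hcase i hi with h1 | h1
        · rw [hnew i h1]
          exact hC i h1
        · rw [h1, Function.update_self]
          exact hzC
      · have hlt : (T.par i).val < k := by
          have h2 : T.par i < i := T.par_lt i hi0
          have h3 : (T.par i).val < i.val := h2
          omega
        rw [hnew _ hlt]
        rcases hcase i hi with h1 | h1
        · rw [hnew i h1]
          exact hE i h1 hi0
        · subst h1
          rw [Function.update_self]
          exact hzE hi0
  obtain ⟨φ, hinj, _, hE⟩ := key t le_rfl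
  refine ⟨φ, fun i j hij => ?_, fun i hi => hE i i.2 hi⟩
  refine hinj ?_ ?_ hij
  · rw [mem_coe, mem_filter]; exact ⟨mem_univ _, i.2⟩
  · rw [mem_coe, mem_filter]; exact ⟨mem_univ _, j.2⟩

end Pool.Agent.Lib.MP_56e41f_co
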