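import Pool.Agent.Lib.MP_56e41f_co.Copies

open Finset

namespace Pool.Agent.Lib.MP_56e41f_co

variable {V : Type*} [Fintype V] [DecidableEq V] {t Δ : ℕ}

theorem robust_copy (T : TD t Δ) (ht : 2 ≤ t) (F : Finset (Sym2 V)) (hF : Emb T F) :
    ∃ x : Finset (Sym2 V), x ⊆ F ∧ x.Nonempty ∧ x.card ≤ t ∧ Emb T x := by
  obtain ⟨φ, hφ, hE⟩ := hF
  refine ⟨(univ.filter (fun i : Fin t => i.val ≠ 0)).image (fun i => s(φ (T.par i), φ i)),
    ?_, ?_, ?_, ⟨φ, hφ, ?_⟩⟩
  · intro e he
    obtain ⟨i, hi, rfl⟩ := Finset.mem_image.mp he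
    exact hE i (Finset.mem_filter.mp hi).2
  · refine ⟨s(φ (T.par ⟨1, by omega⟩), φ ⟨1, by omega⟩), Finset.mem_image.mpr ⟨⟨1, by omega⟩, ?_, rfl⟩⟩
    exact Finset.mem_filter.mpr ⟨Finset.mem_univ _, by simp⟩
  · calc _ ≤ (univ.filter (fun i : Fin t => i.val ≠ 0)).card := Finset.card_image_le
      _ ≤ (univ : Finset (Fin t)).card := Finset.card_filter_le _ _
      _ = t := by simp
  · intro i hi
    exact Finset.mem_image.mpr ⟨i, Finset.mem_filter.mpr ⟨Finset.mem_univ _, hi⟩, rfl⟩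

theorem robust_emb_mono (T : TD t Δ) {F F' : Finset (Sym2 V)} (h : F ⊆ F') (hF : Emb T F) :
    Emb T F' := by
  obtain ⟨φ, hφ, hE⟩ := hF
  exact ⟨φ, hφ, fun i hi => h (hE i hi)⟩

theorem robust_family (T : TD t Δ) (ht : 2 ≤ t) (E : Finset (Sym2 V)) (r : ℕ)
    (h : ∀ X ⊆ E, X.card ≤ r → Emb T (E \ X)) :
    ∀ k : ℕ, k ≤ r / t → ∃ X : Finset (Finset (Sym2 V)), X.card = k ∧ (∀ x ∈ X, x ⊆ E) ∧
      (∀ x ∈ X, x.card ≤ t) ∧ (∀ x ∈ X, Emb T x) ∧
      (∀ x ∈ X, ∀ y ∈ X, x ≠ y → Disjoint x y) := by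
  intro k
  induction k with
  | zero =>
    intro _
    exact ⟨∅, by simp⟩
  | succ k ih =>
    intro hk
    obtain ⟨X, hc, hE, ht', hemb, hd⟩ := ih (by omega)
    have hU : X.biUnion id ⊆ E := by
      intro e he
      obtain ⟨x, hx, hex⟩ := Finset.mem_biUnion.mp he
      exact hE x hx hex
    have hUc : (X.biUnion id).card ≤ r := by
      calc (X.biUnion id).card ≤ X.card * t :=
            Finset.card_biUnion_le_card_mul X id t (fun x hx => ht' x hx)
        _ = k * t := by rw [hc]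
        _ ≤ (r / t) * t := Nat.mul_le_mul_right t (by omega)
        _ ≤ r := Nat.div_mul_le_self r t
    obtain ⟨x, hx, hne, hxc, hxe⟩ := robust_copy T ht _ (h _ hU hUc)
    have hdx : ∀ y ∈ X, Disjoint x y := by
      intro y hy
      rw [Finset.disjoint_left]
      intro e he hey
      exact (Finset.mem_sdiff.mp (hx he)).2 (Finset.mem_biUnion.mpr ⟨y, hy, hey⟩)
    have hxX : x ∉ X := by
      intro hm
      have := hdx x hm
      rw [disjoint_self] at this
      exact hne.ne_empty this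
    refine ⟨insert x X, ?_, ?_, ?_, ?_, ?_⟩
    · rw [Finset.card_insert_of_notMem hxX, hc]
    · intro y hy
      rcases Finset.mem_insert.mp hy with rfl | hy
      · exact fun e he => (Finset.mem_sdiff.mp (hx he)).1
      · exact hE y hy
    · intro y hy
      rcases Finset.mem_insert.mp hy with rfl | hy
      · exact hxc
      · exact ht' y hy
    · intro y hy
      rcases Finset.mem_insert.mp hy with rfl | hy
      · exact hxe
      · exact hemb y hy
    · intro y hy z hz hyz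
      rcases Finset.mem_insert.mp hy with rfl | hy'
      · rcases Finset.mem_insert.mp hz with rfl | hz'
        · exact absurd rfl hyz
        · exact hdx z hz'
      · rcases Finset.mem_insert.mp hz with rfl | hz'
        · exact (hdx y hy').symm
        · exact hd y hy' z hz' hyz

theorem robust_small (T : TD t Δ) (ht : 2 ≤ t) {p : ℝ} (h0 : 0 ≤ p) (h1 : p ≤ 1)
    (E : Finset (Sym2 V)) (r : ℕ)
    (h : ∀ X ⊆ E, X.card ≤ r → Emb T (E \ X)) :
    pr p E (fun F => ¬ Emb T F) ≤ (1 - p ^ t) ^ (r / t) := by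
  obtain ⟨X, hc, hE, ht', hemb, hd⟩ := robust_family T ht E r h (r / t) le_rfl
  have key := pr_disjoint_copies h0 h1 E X hE hd t ht'
  rw [hc] at key
  refine le_trans ?_ key
  unfold pr
  refine ex_mono h0 h1 E (fun F _ => ind_mono ?_)
  intro hn x hx hxF
  exact hn (robust_emb_mono T hxF (hemb x hx))

end Pool.Agent.Lib.MP_56e41f_co
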