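import Pool.Agent.Lib.MP_56e41f_co.Big
import Pool.Agent.Lib.MP_56e41f_co.AllHost
import Pool.Agent.Lib.MP_56e41f_co.EmbHost
import Pool.Agent.Lib.MP_56e41f_co.Robust

/-!
# Arbitrary hosts: trees whose colour classes satisfy a square root condition
-/

open Finset

namespace Pool.Agent.Lib.MP_56e41f_co

/-- number of vertices of even depth -/
noncomputable def evn {t Δ : ℕ} (T : TD t Δ) : ℕ := (univ.filter (fun i => T.dep i % 2 = 0)).card

/-- number of vertices of odd depth -/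
noncomputable def odn {t Δ : ℕ} (T : TD t Δ) : ℕ := (univ.filter (fun i => T.dep i % 2 = 1)).card

theorem evn_add_odn {t Δ : ℕ} (T : TD t Δ) : evn T + odn T = t := by
  have h1 := card_filter_add_card_filter_not (s := (univ : Finset (Fin t)))
    (fun i => T.dep i % 2 = 0)
  have h2 : (univ.filter (fun i => ¬ T.dep i % 2 = 0)) =
      (univ.filter (fun i : Fin t => T.dep i % 2 = 1)) := by
    refine filter_congr fun i _ => ?_
    omega
  rw [h2, card_univ, Fintype.card_fin] at h1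
  exact h1

theorem sqrt_add_le (x s : ℝ) (hx : 0 ≤ x) (hs : 0 ≤ s) : √(x + s) ≤ √x + √s := by
  rw [Real.sqrt_le_left (by positivity)]
  have h1 := Real.sq_sqrt hx
  have h2 := Real.sq_sqrt hs
  have h3 : 0 ≤ √x * √s := by positivity
  nlinarith

theorem sqrt_slack (x y s d c : ℝ) (hx : 0 ≤ x) (hy : 0 ≤ y) (hs : 0 ≤ s) (hd : 0 ≤ d)
    (hc : 0 < c) (hc1 : c < 1) (h : (√x + √y) ^ 2 ≤ (1 - c) * d) (hs' : s ≤ c ^ 2 / 64 * d) :
    (√(x + s) + √(y + s)) ^ 2 ≤ (1 - c / 4) * d := by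
  have h1 : √x + √y ≤ (1 - c / 2) * √d := by
    have h2 : √x + √y ≤ √((1 - c) * d) := Real.le_sqrt_of_sq_le h
    refine h2.trans ?_
    rw [Real.sqrt_le_left (mul_nonneg (by linarith) (Real.sqrt_nonneg _))]
    rw [mul_pow, Real.sq_sqrt hd]
    refine mul_le_mul_of_nonneg_right ?_ hd
    nlinarith [sq_nonneg c]
  have h3 : √s ≤ c / 8 * √d := by
    rw [Real.sqrt_le_left (mul_nonneg (by linarith) (Real.sqrt_nonneg _))]
    rw [mul_pow, Real.sq_sqrt hd]
    refine hs'.trans (le_of_eq ?_)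
    ring
  have h4 := sqrt_add_le x s hx hs
  have h5 := sqrt_add_le y s hy hs
  have h6 : √(x + s) + √(y + s) ≤ (1 - c / 4) * √d := by
    have := Real.sqrt_nonneg d
    linarith
  have h7 : 0 ≤ √(x + s) + √(y + s) := by positivity
  have h8 : (√(x + s) + √(y + s)) ^ 2 ≤ ((1 - c / 4) * √d) ^ 2 := pow_le_pow_left₀ h7 h6 2
  rw [mul_pow, Real.sq_sqrt hd] at h8
  refine h8.trans (mul_le_mul_of_nonneg_right ?_ hd)
  nlinarith

/-- all hosts -/
theorem all_case (c : ℝ) (hc : 0 < c) (hc1 : c < 1) : ∃ K0 : ℝ, 1 ≤ K0 ∧ ∀ K : ℝ, K0 ≤ K →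
    ∀ ε : ℝ, 0 < ε → ∃ n0 : ℕ, ∀ (V : Type) [Fintype V] [DecidableEq V] (t Δ : ℕ) (T : TD t Δ)
      (E : Finset (Sym2 V)) (d p : ℝ), n0 ≤ Fintype.card V → 2 ≤ t → 1 ≤ Δ →
      (∀ x : V, s(x, x) ∉ E) →
      0 < d → d / 2 * Fintype.card V ≤ E.card → K * Δ / d ≤ p → p ≤ 1 →
      (√(evn T) + √(odn T)) ^ 2 ≤ (1 - c) * d →
      pr p E (fun F => ¬ Emb T F) ≤ ε := by
  set c1 : ℝ := c ^ 2 / 24 with hc1def
  have hcc : c1 ≤ c := by rw [hc1def]; nlinarith
  have hc1pos : 0 < c1 := by positivity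
  have hc1lt : c1 < 1 := by linarith
  obtain ⟨K1, hK1, hbig⟩ := big c1 hc1pos hc1lt
  obtain ⟨K2, hK2, hpar⟩ := params c1 1 hc1pos hc1lt one_pos
  refine ⟨max K1 K2, le_max_of_le_left hK1, ?_⟩
  intro K hK ε hε
  obtain ⟨d0, hd0⟩ := hbig K ((le_max_left _ _).trans hK) ε hε
  have hKone : 1 ≤ K := hK1.trans ((le_max_left _ _).trans hK)
  set D : ℝ := max d0 1 with hD
  have hD1 : 1 ≤ D := le_max_right _ _
  set N : ℕ := ⌈D⌉₊ with hN
  have hNpos : 0 < N := Nat.ceil_pos.2 (by linarith)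
  set p1 : ℝ := 1 / D with hp1
  have hp1pos : 0 < p1 := by rw [hp1]; positivity
  have hp1le : p1 ≤ 1 := by
    rw [hp1, div_le_one (by linarith)]
    exact hD1
  have hb0 : 0 ≤ 1 - p1 ^ N := by
    have := pow_le_one₀ (n := N) hp1pos.le hp1le
    linarith
  have hb1 : 1 - p1 ^ N < 1 := by
    have := pow_pos hp1pos N
    linarith
  obtain ⟨k, hk⟩ := exists_pow_lt_of_lt_one hε hb1
  refine ⟨max 1 (k * N), ?_⟩
  intro V _ _ t Δ T E d p hn ht hΔ hl hd hdE hp hp1' hsq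
  have hn1 : 1 ≤ Fintype.card V := (le_max_left _ _).trans hn
  have hnk : k * N ≤ Fintype.card V := (le_max_right _ _).trans hn
  have : Nonempty V := Fintype.card_pos_iff.1 hn1
  obtain ⟨hcd, hp0, -, -, hw1, hw2⟩ := hpar K ((le_max_right _ _).trans hK) Δ d p hΔ hd hp hp1'
  have htd : (t : ℝ) ≤ (1 - c) * d := by
    refine le_trans ?_ hsq
    have h1 : ((evn T : ℕ) : ℝ) + (odn T : ℕ) = t := by exact_mod_cast evn_add_odn T
    have h2 := Real.sq_sqrt (Nat.cast_nonneg (α := ℝ) (evn T))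
    have h3 := Real.sq_sqrt (Nat.cast_nonneg (α := ℝ) (odn T))
    have h4 : 0 ≤ √(evn T : ℝ) * √(odn T : ℝ) := by positivity
    nlinarith
  have htd1 : (t : ℝ) ≤ (1 - c1) * d := by
    refine htd.trans (mul_le_mul_of_nonneg_right (by linarith) hd.le)
  have hhost : ∀ E' : Finset (Sym2 V), E' ⊆ E → (1 - c1 / 4) * (E.card : ℝ) ≤ E'.card →
      ∀ w m : ℕ, (w : ℝ) + m ≤ c ^ 2 / 64 * d → ∃ C : Fin t → Finset V, Host T E' C w m := by
    intro E' hE' hcard w m hwm
    refine exists_host_all T ht E' (fun x hx => hl x (hE' hx)) w m ?_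
    have h1 := sqrt_slack (evn T) (odn T) (w + m) d c (Nat.cast_nonneg _) (Nat.cast_nonneg _)
      (by positivity) hd.le hc hc1 hsq hwm
    have h2 : (0 : ℝ) ≤ Fintype.card V := Nat.cast_nonneg _
    have h3 := mul_le_mul_of_nonneg_right h1 h2
    refine h3.trans ?_
    have h4 : (1 - c / 4) * d ≤ (1 - c1 / 4) * d :=
      mul_le_mul_of_nonneg_right (by linarith) hd.le
    have h5 := mul_le_mul_of_nonneg_right h4 h2
    have h6 : (1 - c1 / 4) * (d / 2 * Fintype.card V) ≤ (1 - c1 / 4) * E.card :=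
      mul_le_mul_of_nonneg_left hdE (by linarith)
    nlinarith
  rcases le_or_gt d0 d with hdd | hdd
  · obtain ⟨C, hC⟩ := hhost E (Subset.refl _) (by
      have : (0 : ℝ) ≤ E.card := Nat.cast_nonneg _
      nlinarith) ⌊c1 * d / 8⌋₊ ⌊c1 * d / 4⌋₊ (by
      have h1 : (⌊c1 * d / 4⌋₊ : ℝ) ≤ c1 * d / 4 := Nat.floor_le (by positivity)
      have h2 : (⌊c1 * d / 8⌋₊ : ℝ) ≤ c1 * d / 8 := Nat.floor_le (by positivity)
      have h3 : c1 * d / 4 + c1 * d / 8 = c ^ 2 / 64 * d := by rw [hc1def]; ring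
      linarith)
    exact hd0 V t Δ T E C d p hdd hΔ hd hp hp1' htd1 hC
  · have hrob := robust_small T ht hp0 hp1' E ⌊c1 / 4 * E.card⌋₊ (fun X hX hXc => by
      have hXc' : (X.card : ℝ) ≤ c1 / 4 * E.card := (Nat.le_floor_iff (by positivity)).1 hXc
      obtain ⟨C, hC⟩ := hhost (E \ X) sdiff_subset (by
        rw [card_sdiff_of_subset hX, Nat.cast_sub (card_le_card hX)]
        linarith) 0 1 (by
        have : c ^ 2 / 64 * d = 3 / 8 * (c1 * d) := by rw [hc1def]; ring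
        rw [this]
        push_cast
        linarith)
      exact emb_of_host T (E \ X) C 1 hC le_rfl)
    refine hrob.trans ?_
    have hdD : d ≤ D := hdd.le.trans (le_max_left _ _)
    have htN : t ≤ N := by
      have h1 : (t : ℝ) ≤ D := by
        have : (1 - c) * d ≤ d := by nlinarith
        linarith
      have h2 : (t : ℝ) ≤ (N : ℝ) := h1.trans (Nat.le_ceil D)
      exact_mod_cast h2
    have hpp : p1 ≤ p := by
      have h1 : p1 ≤ K * Δ / d := by
        have hΔ' : (1 : ℝ) ≤ Δ := by exact_mod_cast hΔ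
        have hKΔ : 1 ≤ K * Δ := by nlinarith
        rw [hp1, div_le_div_iff₀ (by linarith) hd]
        nlinarith
      exact h1.trans hp
    have hpt : p1 ^ N ≤ p ^ t :=
      (pow_le_pow_of_le_one hp1pos.le hp1le htN).trans (pow_le_pow_left₀ hp1pos.le hpp t)
    have hnr : Fintype.card V ≤ ⌊c1 / 4 * E.card⌋₊ := by
      rw [Nat.le_floor_iff (by positivity)]
      have hV : (0 : ℝ) ≤ Fintype.card V := Nat.cast_nonneg _
      have h1 : c1 / 4 * (d / 2 * Fintype.card V) ≤ c1 / 4 * E.card :=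
        mul_le_mul_of_nonneg_left hdE (by positivity)
      have h2 : (8 : ℝ) * Fintype.card V ≤ c1 * d * Fintype.card V :=
        mul_le_mul_of_nonneg_right hcd hV
      nlinarith
    have hkr : k ≤ ⌊c1 / 4 * E.card⌋₊ / t := by
      rw [Nat.le_div_iff_mul_le (by omega)]
      calc k * t ≤ k * N := Nat.mul_le_mul_left k htN
        _ ≤ Fintype.card V := hnk
        _ ≤ _ := hnr
    have hq0 : 0 ≤ 1 - p ^ t := by
      have := pow_le_one₀ (n := t) hp0 hp1'
      linarith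
    have hq1 : 1 - p ^ t ≤ 1 := by
      have := pow_nonneg hp0 t
      linarith
    calc (1 - p ^ t) ^ (⌊c1 / 4 * E.card⌋₊ / t) ≤ (1 - p ^ t) ^ k :=
          pow_le_pow_of_le_one hq0 hq1 hkr
      _ ≤ (1 - p1 ^ N) ^ k := pow_le_pow_left₀ hq0 (by linarith) k
      _ ≤ ε := hk.le

end Pool.Agent.Lib.MP_56e41f_co
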