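import Pool.Agent.Lib.MP_56e41f_co.Defs

open Finset

namespace Pool.Agent.Lib.MP_56e41f_co

variable (Δ : ℕ)

theorem mem_labs (R n : ℕ) (a : Lab) : a ∈ labs R n ↔ a.length ≤ n ∧ ∀ x ∈ a, x < R := by
  induction n generalizing a with
  | zero =>
    constructor
    · intro h
      have h' : a = [] := by simpa [labs] using h
      subst h'
      simp
    · rintro ⟨h, _⟩
      have h' : a = [] := List.length_eq_zero_iff.1 (Nat.le_zero.1 h)
      subst h'
      simp [labs]
  | succ n ih =>
    cases a with
    | nil => simp [labs]
    | cons x b =>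
      constructor
      · intro h
        simp only [labs, Finset.mem_insert, Finset.mem_image, Finset.mem_product,
          Finset.mem_range, Prod.exists] at h
        rcases h with h | ⟨y, c, ⟨hy, hc⟩, he⟩
        · simp at h
        · rw [List.cons.injEq] at he
          obtain ⟨rfl, rfl⟩ := he
          obtain ⟨h1, h2⟩ := (ih c).1 hc
          refine ⟨by simpa using h1, ?_⟩
          intro z hz
          rcases List.mem_cons.1 hz with rfl | hz
          · exact hy
          · exact h2 z hz
      · rintro ⟨h1, h2⟩
        simp only [labs, Finset.mem_insert, Finset.mem_image, Finset.mem_product,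
          Finset.mem_range, Prod.exists]
        right
        refine ⟨x, b, ⟨h2 x (by simp), (ih b).2 ⟨by simpa using h1, ?_⟩⟩, rfl⟩
        intro z hz
        exact h2 z (List.mem_cons_of_mem _ hz)

theorem baddep_cons_mem (i : ℕ) (a : Lab) (r : ℕ) : i :: a ∈ BelowR a (r + 1) := by
  refine ⟨List.suffix_cons i a, ?_, ?_⟩
  · intro h
    have := congrArg List.length h
    simp at this
  · simp

theorem baddep_sub (i : ℕ) (a : Lab) (r : ℕ) : BelowR (i :: a) r ⊆ BelowR a (r + 1) := by
  rintro l ⟨h1, h2, h3⟩
  refine ⟨(List.suffix_cons i a).trans h1, ?_, ?_⟩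
  · rintro rfl
    have := h1.length_le
    simp at this
  · simp only [List.length_cons] at h3
    omega

theorem bad_dep (M : ℕ) (a : Lab) : Dep (BelowR a (M + 1)) (fun F => bad Δ F M a) := by
  classical
  induction M generalizing a with
  | zero =>
    intro F F' h
    have hf : (range (3 * Δ)).filter (fun i => i :: a ∉ F) =
        (range (3 * Δ)).filter (fun i => i :: a ∉ F') := by
      apply Finset.filter_congr
      intro i _
      rw [h _ (baddep_cons_mem i a 0)]
    simp only [bad]
    rw [hf]
  | succ M ih =>
    intro F F' h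
    have hf : (range (3 * Δ)).filter (fun i => i :: a ∉ F ∨ bad Δ F M (i :: a)) =
        (range (3 * Δ)).filter (fun i => i :: a ∉ F' ∨ bad Δ F' M (i :: a)) := by
      apply Finset.filter_congr
      intro i _
      have h1 : bad Δ F M (i :: a) = bad Δ F' M (i :: a) :=
        ih (i :: a) F F' (fun x hx => h x (baddep_sub i a (M + 1) hx))
      rw [h _ (baddep_cons_mem i a (M + 1)), h1]
    simp only [bad]
    convert rfl using 2
    congr 1
    convert hf.symm

theorem chn_dep (M : ℕ) (a : Lab) : Dep (BelowR a (M + 1)) (fun F => chn Δ F M a) := by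
  induction M generalizing a with
  | zero =>
    intro F F' h
    exact bad_dep Δ 0 a F F' h
  | succ M ih =>
    cases M with
    | zero =>
      intro F F' h
      exact bad_dep Δ 1 a F F' h
    | succ M =>
      intro F F' h
      have h1 : bad Δ F (M + 2) a = bad Δ F' (M + 2) a := bad_dep Δ (M + 2) a F F' h
      have h2 : ∀ i, chn Δ F (M + 1) (i :: a) = chn Δ F' (M + 1) (i :: a) := fun i =>
        ih (i :: a) F F' (fun x hx => h x (baddep_sub i a (M + 2) hx))
      simp only [chn]
      rw [h1]
      simp only [h2]

end Pool.Agent.Lib.MP_56e41f_co
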