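import Pool.Agent.Lib.MP_56e41f_co.Core

open Finset

namespace Pool.Agent.Lib.MP_56e41f_co

variable {t Δ : ℕ} (T : TD t Δ) (w : ℕ)

lemma corelim_beta (c : ℝ) (hc : 0 < c) (hc1 : c < 1) (q : ℝ) (hq0 : 0 ≤ q) (hq : q ≤ c / 2000)
    (Δ : ℕ) (hΔ : 1 ≤ Δ) : 3 * ((Δ : ℝ) + 1) ^ 9 * (32 * q ^ 2) ^ Δ ≤ c / 32 := by
  have h1 : 32 * q ^ 2 ≤ c / 49152 := by
    have h2 : q ^ 2 ≤ (c / 2000) ^ 2 := pow_le_pow_left₀ hq0 hq 2
    have h3 : (c / 2000) ^ 2 ≤ c / 4000000 := by
      rw [div_pow]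
      have : c ^ 2 ≤ c := by nlinarith
      rw [div_le_div_iff₀ (by norm_num) (by norm_num)]
      norm_num
      linarith
    linarith
  have h2 : (32 * q ^ 2) ^ Δ ≤ (c / 49152) ^ Δ := pow_le_pow_left₀ (by positivity) h1 Δ
  have h3 : ((Δ : ℝ) + 1) ≤ 2 ^ Δ := by
    have := Nat.lt_two_pow_self (n := Δ)
    exact_mod_cast this
  have h4 : ((Δ : ℝ) + 1) ^ 9 ≤ 512 ^ Δ := by
    calc ((Δ : ℝ) + 1) ^ 9 ≤ (2 ^ Δ) ^ 9 := pow_le_pow_left₀ (by positivity) h3 9
      _ = 512 ^ Δ := by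
          rw [← pow_mul, mul_comm Δ 9, pow_mul]
          norm_num
  calc 3 * ((Δ : ℝ) + 1) ^ 9 * (32 * q ^ 2) ^ Δ
      ≤ 3 * 512 ^ Δ * (c / 49152) ^ Δ := by
        apply mul_le_mul _ h2 (by positivity) (by positivity)
        exact mul_le_mul_of_nonneg_left h4 (by norm_num)
    _ = 3 * (c / 96) ^ Δ := by
        rw [mul_assoc, ← mul_pow]
        congr 2
        ring
    _ ≤ 3 * (c / 96) := by
        apply mul_le_mul_of_nonneg_left _ (by norm_num)
        exact pow_le_of_le_one (by positivity) (by linarith) (by omega)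
    _ = c / 32 := by ring

/-- choice of `L` : the failure probability tends to `0` uniformly -/
theorem core_lim (c : ℝ) (hc : 0 < c) (hc1 : c < 1) :
    ∃ q0 : ℝ, 0 < q0 ∧ ∀ ε : ℝ, 0 < ε → ∃ d0 : ℝ, 0 < d0 ∧
      ∀ (t Δ w : ℕ) (T : TD t Δ) (d q : ℝ), d0 ≤ d → 1 ≤ Δ → (t : ℝ) ≤ (1 - c) * d →
        c * d / 16 ≤ w → (w : ℝ) ≤ c * d / 8 → 0 ≤ q → q ≤ q0 →
        ∀ n : ℕ, (3 * Δ + 2) * (t + w + 1) ≤ n → val T (3 * Δ) w q n (init t) ≤ ε := by
  refine ⟨c / 2000, by positivity, ?_⟩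
  intro ε hε
  refine ⟨max 1 (max (4 / ε) ((12288 / (c ^ 2 * ε)) ^ 2)), by positivity, ?_⟩
  intro t Δ w T d q hd hΔ ht hw1 hw2 hq0 hq n hn
  have hd1 : 1 ≤ d := (le_max_left _ _).trans hd
  have hd2 : 4 / ε ≤ d := ((le_max_left _ _).trans (le_max_right _ _)).trans hd
  have hd3 : (12288 / (c ^ 2 * ε)) ^ 2 ≤ d :=
    ((le_max_right _ _).trans (le_max_right _ _)).trans hd
  have hd0 : 0 < d := by linarith
  set β : ℝ := (32 * q ^ 2) ^ Δ with hβ
  have hβ0 : 0 ≤ β := by positivity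
  have hmain := corelim_beta c hc hc1 q hq0 hq Δ hΔ
  rw [← hβ] at hmain
  set D : ℝ := (Δ : ℝ) + 1 with hD
  have hΔ' : (1 : ℝ) ≤ Δ := by exact_mod_cast hΔ
  have hD1 : 2 ≤ D := by rw [hD]; linarith
  have hD0 : 0 < D := by linarith
  have hΔD : (Δ : ℝ) ≤ D := by rw [hD]; linarith
  have hpow : ∀ k : ℕ, k ≤ 9 → 3 * D ^ k * β ≤ c / 32 := by
    intro k hk
    refine le_trans ?_ hmain
    apply mul_le_mul_of_nonneg_right _ hβ0
    apply mul_le_mul_of_nonneg_left _ (by norm_num)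
    exact pow_le_pow_right₀ (by linarith) hk
  -- choice of `L`
  obtain ⟨m, hm1, hm2⟩ := exists_nat_pow_near (x := d) (y := D ^ 4) hd1
    (one_lt_pow₀ (by linarith) (by norm_num))
  set L := m + 1 with hL
  set M : ℝ := D ^ L with hM
  have hM0 : 0 < M := by positivity
  have hM4a : d ≤ M ^ 4 := by
    have : M ^ 4 = (D ^ 4) ^ L := by
      rw [hM, ← pow_mul, ← pow_mul, mul_comm]
    rw [this]
    exact hm2.le
  have hM4b : M ^ 4 ≤ D ^ 4 * d := by
    have : M ^ 4 = D ^ 4 * (D ^ 4) ^ m := by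
      rw [hM, hL, ← pow_mul, ← pow_mul, ← pow_add]
      congr 1
      ring
    rw [this]
    exact mul_le_mul_of_nonneg_left hm1 (by positivity)
  have hM2 : M ^ 2 ≤ D ^ 2 * √d := by
    have h1 : (M ^ 2) ^ 2 ≤ (D ^ 2 * √d) ^ 2 := by
      rw [mul_pow, Real.sq_sqrt hd0.le, ← pow_mul M 2 2, ← pow_mul D 2 2]
      exact hM4b
    exact (pow_le_pow_iff_left₀ (by positivity) (by positivity) (by norm_num)).1 h1
  have hLM : (L : ℝ) + 1 ≤ M := by
    have h1 : (L : ℝ) + 1 ≤ 2 ^ L := by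
      have := Nat.lt_two_pow_self (n := L)
      exact_mod_cast this
    exact h1.trans (pow_le_pow_left₀ (by norm_num) hD1 L)
  have hw0 : (0 : ℝ) < w := lt_of_lt_of_le (by positivity) hw1
  have htw : (t : ℝ) + w ≤ d := by
    have h1 : (1 - c) * d + c * d / 8 = d - 7 / 8 * (c * d) := by ring
    have h2 : 0 < c * d := mul_pos hc hd0
    linarith
  have htw0 : (0 : ℝ) ≤ (t : ℝ) + w := by positivity
  have hcore := core T w hΔ q β hq0 ?_ hβ ?_ L (by exact_mod_cast hw0) ?_ n hn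
  rotate_left
  · have h2 : q ^ 2 ≤ (1 / 2000) ^ 2 := pow_le_pow_left₀ hq0 (hq.trans (by linarith)) 2
    linarith
  · have h1 := hpow 2 (by norm_num)
    have h2 : 3 * (Δ : ℝ) * (Δ + 1) * β ≤ 3 * D ^ 2 * β := by
      apply mul_le_mul_of_nonneg_right _ hβ0
      rw [hD]
      nlinarith
    linarith
  · have h1 := hpow 1 (by norm_num)
    rw [pow_one] at h1
    calc ((t : ℝ) + w) * (3 * (Δ + 1) * β) ≤ d * (c / 32) := by
          apply mul_le_mul htw _ (by positivity) hd0.le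
          exact h1
      _ ≤ w / 2 := by linarith
  refine hcore.trans ?_
  -- first term
  have hT1 : ((t : ℝ) + w) * (2 * β * (3 * Δ * β) ^ L) ≤ 2 / d := by
    have h1 : 3 * (Δ : ℝ) * β ≤ (D ^ 8)⁻¹ := by
      rw [← one_div, le_div_iff₀ (by positivity)]
      have h2 := hpow 9 le_rfl
      calc 3 * (Δ : ℝ) * β * D ^ 8 ≤ 3 * D * β * D ^ 8 := by
            apply mul_le_mul_of_nonneg_right _ (by positivity)
            apply mul_le_mul_of_nonneg_right _ hβ0
            linarith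
        _ = 3 * D ^ 9 * β := by ring
        _ ≤ 1 := by linarith
    have h2 : (3 * (Δ : ℝ) * β) ^ L ≤ (d ^ 2)⁻¹ := by
      calc (3 * (Δ : ℝ) * β) ^ L ≤ ((D ^ 8)⁻¹) ^ L := pow_le_pow_left₀ (by positivity) h1 L
        _ = ((M ^ 4) ^ 2)⁻¹ := by
            rw [hM, inv_pow, ← pow_mul, ← pow_mul, ← pow_mul]
            congr 2
            ring
        _ ≤ (d ^ 2)⁻¹ := by
            apply inv_anti₀ (by positivity)
            exact pow_le_pow_left₀ hd0.le hM4a 2
    have h3 : β ≤ 1 := by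
      have := hpow 0 (by norm_num)
      rw [pow_zero] at this
      linarith
    calc ((t : ℝ) + w) * (2 * β * (3 * Δ * β) ^ L) ≤ d * (2 * 1 * (d ^ 2)⁻¹) := by
          apply mul_le_mul htw _ (by positivity) hd0.le
          apply mul_le_mul _ h2 (by positivity) (by norm_num)
          linarith
      _ = 2 / d := by
          field_simp
  have hT2 : 4 * ((L + 1) * (((t : ℝ) + w) * (2 * (Δ + 1) ^ L * (3 * (Δ + 1) * β)))) / (w : ℝ) ^ 2
      ≤ 6144 / (c ^ 2 * √d) := by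
    have hsd : 0 < √d := Real.sqrt_pos.2 hd0
    have h1 : 4 * (((L : ℝ) + 1) * (((t : ℝ) + w) * (2 * D ^ L * (3 * D * β)))) ≤
        24 * d * √d := by
      calc 4 * (((L : ℝ) + 1) * (((t : ℝ) + w) * (2 * D ^ L * (3 * D * β))))
          ≤ 4 * (M * (d * (2 * M * (3 * D * β)))) := by
            apply mul_le_mul_of_nonneg_left _ (by norm_num)
            apply mul_le_mul hLM _ (by positivity) hM0.le
            apply mul_le_mul_of_nonneg_right htw (by positivity)
        _ = 8 * d * (M ^ 2 * (3 * D * β)) := by ring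
        _ ≤ 8 * d * (D ^ 2 * √d * (3 * D * β)) := by
            apply mul_le_mul_of_nonneg_left _ (by positivity)
            exact mul_le_mul_of_nonneg_right hM2 (by positivity)
        _ = 8 * d * √d * (3 * D ^ 3 * β) := by ring
        _ ≤ 8 * d * √d * 1 := by
            apply mul_le_mul_of_nonneg_left _ (by positivity)
            have := hpow 3 (by norm_num)
            linarith
        _ = 8 * (d * √d) := by ring
        _ ≤ 24 * (d * √d) := by
            have := mul_pos hd0 hsd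
            linarith
        _ = 24 * d * √d := by ring
    have h2 : (c * d / 16) ^ 2 ≤ (w : ℝ) ^ 2 := pow_le_pow_left₀ (by positivity) hw1 2
    calc 4 * ((L + 1) * (((t : ℝ) + w) * (2 * (Δ + 1) ^ L * (3 * (Δ + 1) * β)))) / (w : ℝ) ^ 2
        ≤ 24 * d * √d / (c * d / 16) ^ 2 := by
          apply div_le_div₀ (by positivity) h1 (by positivity) h2
      _ = 6144 / (c ^ 2 * √d) := by
          have h3 : √d * √d = d := Real.mul_self_sqrt hd0.le
          rw [div_eq_div_iff (by positivity) (by positivity)]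
          have h4 : 24 * d * √d * (c ^ 2 * √d) = 24 * d * c ^ 2 * (√d * √d) := by ring
          rw [h4, h3]
          ring
  have hE1 : 2 / d ≤ ε / 2 := by
    rw [div_le_iff₀ hd0]
    rw [div_le_iff₀ hε] at hd2
    linarith [mul_comm ε d]
  have hE2 : 6144 / (c ^ 2 * √d) ≤ ε / 2 := by
    have h1 : 12288 / (c ^ 2 * ε) ≤ √d := Real.le_sqrt_of_sq_le hd3
    have hsd : 0 < √d := Real.sqrt_pos.2 hd0
    rw [div_le_iff₀ (by positivity)] at h1 ⊢
    have h2 : √d * (c ^ 2 * ε) = 2 * (ε / 2 * (c ^ 2 * √d)) := by ring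
    rw [h2] at h1
    linarith
  linarith

end Pool.Agent.Lib.MP_56e41f_co
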