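import Pool.Agent.Lib.MP_56e41f_co.Defs

open Finset

namespace Pool.Agent.Lib.MP_56e41f_co

variable {t Δ : ℕ} (T : TD t Δ)

theorem TD.par_lt (i : Fin t) (hi : i.val ≠ 0) : T.par i < i := by
  by_contra h
  have h1 := T.mono i (T.par i) (not_lt.mp h)
  have h2 := T.dep_par i hi
  omega

theorem TD.dep_le (i : Fin t) : T.dep i ≤ i.val := by
  obtain ⟨n, hn⟩ := i
  induction n using Nat.strong_induction_on with
  | _ n ih =>
    by_cases h0 : n = 0
    · have h1 := (T.dep_zero ⟨n, hn⟩).mpr h0
      omega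
    · have h1 := T.dep_par ⟨n, hn⟩ h0
      have h2 := T.par_lt ⟨n, hn⟩ h0
      rw [Fin.lt_def] at h2
      have h3 := ih (T.par ⟨n, hn⟩).val h2 (T.par ⟨n, hn⟩).isLt
      simp only [Fin.eta] at h3
      show T.dep ⟨n, hn⟩ ≤ n
      simp only at h2
      omega

theorem TD.desc_refl (u : Fin t) : T.desc u u := ⟨0, rfl⟩

theorem TD.desc_par {u z : Fin t} (h : T.desc u z) (hne : z ≠ u) :
    z.val ≠ 0 ∧ T.desc u (T.par z) := by
  obtain ⟨k, hk⟩ := h
  cases k with
  | zero => exact absurd hk hne
  | succ k =>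
    refine ⟨fun h0 => hne ?_, k, ?_⟩
    · have h1 : T.par z = z := T.par_zero z h0
      rw [Function.iterate_fixed h1] at hk
      exact hk
    · rw [Function.iterate_succ_apply] at hk
      exact hk

theorem TD.desc_of_par {u z : Fin t} (h : T.desc u (T.par z)) : T.desc u z := by
  obtain ⟨k, hk⟩ := h
  exact ⟨k + 1, by rw [Function.iterate_succ_apply]; exact hk⟩

theorem TD.desc_dep {u z : Fin t} (h : T.desc u z) (hne : z ≠ u) : T.dep u < T.dep z := by
  obtain ⟨k, hk⟩ := h
  induction k generalizing z with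
  | zero => exact absurd hk hne
  | succ k ih =>
    have h0 := (T.desc_par ⟨k + 1, hk⟩ hne).1
    have h1 := T.dep_par z h0
    rw [Function.iterate_succ_apply] at hk
    by_cases h2 : T.par z = u
    · rw [h2] at h1; omega
    · have h3 := ih h2 hk
      omega

lemma TD.tree_child {u z : Fin t} (h : T.desc u z) (hne : z ≠ u) :
    ∃ c : Fin t, c.val ≠ 0 ∧ T.par c = u ∧ T.desc c z := by
  obtain ⟨k, hk⟩ := h
  induction k with
  | zero => exact absurd hk hne
  | succ k ih =>
    rw [Function.iterate_succ_apply'] at hk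
    by_cases h0 : (T.par^[k] z).val = 0
    · have h1 := T.par_zero _ h0
      rw [h1] at hk
      exact ih hk
    · exact ⟨T.par^[k] z, h0, hk, k, rfl⟩

open Classical in
/-- At most `(Δ+1)^M` vertices lie below `u` at relative depth at most `M`. -/
theorem TD.desc_card (u : Fin t) (M : ℕ) :
    (univ.filter (fun z => T.desc u z ∧ T.dep z ≤ T.dep u + M)).card ≤ (Δ + 1) ^ M := by
  induction M generalizing u with
  | zero =>
    have h1 : univ.filter (fun z => T.desc u z ∧ T.dep z ≤ T.dep u + 0) ⊆ {u} := by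
      intro z hz
      rw [mem_filter] at hz
      rw [mem_singleton]
      by_contra hne
      have := T.desc_dep hz.2.1 hne
      have := hz.2.2
      omega
    calc _ ≤ ({u} : Finset (Fin t)).card := card_le_card h1
      _ = (Δ + 1) ^ 0 := by simp
  | succ M ih =>
    set ch := univ.filter (fun v : Fin t => v.val ≠ 0 ∧ T.par v = u) with hch
    have h1 : univ.filter (fun z => T.desc u z ∧ T.dep z ≤ T.dep u + (M + 1)) ⊆
        {u} ∪ ch.biUnion (fun c => univ.filter (fun z => T.desc c z ∧ T.dep z ≤ T.dep c + M)) := by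
      intro z hz
      rw [mem_filter] at hz
      rw [mem_union, mem_singleton]
      by_cases hne : z = u
      · exact Or.inl hne
      · right
        obtain ⟨c, hc0, hcu, hcz⟩ := T.tree_child hz.2.1 hne
        rw [mem_biUnion]
        refine ⟨c, by rw [hch, mem_filter]; exact ⟨mem_univ _, hc0, hcu⟩, ?_⟩
        rw [mem_filter]
        refine ⟨mem_univ _, hcz, ?_⟩
        have h2 := T.dep_par c hc0
        rw [hcu] at h2
        have := hz.2.2
        omega
    have hcard : ch.card ≤ Δ := T.deg u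
    have h2 : (ch.biUnion (fun c => univ.filter
        (fun z => T.desc c z ∧ T.dep z ≤ T.dep c + M))).card ≤ Δ * (Δ + 1) ^ M := by
      calc _ ≤ ch.card * (Δ + 1) ^ M := card_biUnion_le_card_mul _ _ _ fun c _ => ih c
        _ ≤ Δ * (Δ + 1) ^ M := Nat.mul_le_mul_right _ hcard
    have h3 : 1 ≤ (Δ + 1) ^ M := Nat.one_le_pow _ _ (by omega)
    calc _ ≤ ({u} ∪ ch.biUnion (fun c => univ.filter
            (fun z => T.desc c z ∧ T.dep z ≤ T.dep c + M))).card := card_le_card h1
      _ ≤ ({u} : Finset (Fin t)).card + _ := card_union_le _ _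
      _ ≤ 1 + Δ * (Δ + 1) ^ M := by
        rw [card_singleton]
        omega
      _ ≤ (Δ + 1) ^ (M + 1) := by
        rw [pow_succ]
        nlinarith

end Pool.Agent.Lib.MP_56e41f_co
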