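import Pool.Agent.Lib.MP_56e41f_co.Mach
import Pool.Agent.Lib.MP_56e41f_co.Tree

open Finset

namespace Pool.Agent.Lib.MP_56e41f_co

variable {t Δ : ℕ} (T : TD t Δ) (B w : ℕ)

theorem Str_succ (s : St t) (v u : Fin t) (x : Nd) (h : Str T B s)
    (ha : act T B w s = Act.ask v u x) : Str T B (succSt T s v u x) := by
  obtain ⟨hn, -, hv, hu, hux, hask⟩ := act_ask T B w ha
  have hvn := (nxt_eq_some hn).1
  have huv : u ≠ v := by
    rw [hu]; exact (T.par_lt v hv).ne
  have hfv : (succSt T s v u x).f v = some ⟨x.asks :: x.lab, 0, T.dep v⟩ := by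
    simp [succSt]
  have hf : ∀ i x', (succSt T s v u x).f i = some x' →
      (i = v ∧ x' = ⟨x.asks :: x.lab, 0, T.dep v⟩) ∨
      (i ≠ v ∧ ∃ y, s.f i = some y ∧ x'.lab = y.lab ∧
      y.asks ≤ x'.asks ∧ x'.asks ≤ B ∧ x'.lev = max y.lev (T.dep v) ∧
      (i = u → x'.asks = x.asks + 1)) := by
    intro i x' hx'
    by_cases hi : i = v
    · left
      subst hi
      rw [hfv] at hx'
      exact ⟨rfl, (Option.some.inj hx').symm⟩
    · right
      refine ⟨hi, ?_⟩
      by_cases hiu : i = u
      · subst hiu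
        simp only [succSt, Function.update_of_ne hi, bump, Function.update_self, Option.map_some,
          Option.some.injEq] at hx'
        subst hx'
        exact ⟨x, hux, rfl, Nat.le_succ _, hask, rfl, fun _ => rfl⟩
      · simp only [succSt, Function.update_of_ne hi, bump, Function.update_of_ne hiu] at hx'
        cases hy : s.f i with
        | none => rw [hy] at hx'; cases hx'
        | some y =>
          rw [hy] at hx'
          simp only [Option.map_some, Option.some.injEq] at hx'
          subst hx'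
          exact ⟨y, rfl, rfl, le_rfl, (h.lab i y hy).2.2.1, rfl, fun e => absurd e hiu⟩
  have hf' : ∀ i y, s.f i = some y → ∃ x', (succSt T s v u x).f i = some x' ∧ x'.lab = y.lab ∧
      y.asks ≤ x'.asks ∧ x'.lev = max y.lev (T.dep v) ∧ (i = u → x'.asks = x.asks + 1) := by
    intro i y hy
    have hi : i ≠ v := by
      rintro rfl
      rw [hvn] at hy; cases hy
    by_cases hiu : i = u
    · subst hiu
      rw [hux] at hy
      cases hy
      refine ⟨⟨x.lab, x.asks + 1, max x.lev (T.dep v)⟩, ?_, rfl, Nat.le_succ _, rfl, fun _ => rfl⟩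
      simp [succSt, Function.update_of_ne hi, bump]
    · refine ⟨⟨y.lab, y.asks, max y.lev (T.dep v)⟩, ?_, rfl, le_rfl, rfl, fun e => absurd e hiu⟩
      simp [succSt, Function.update_of_ne hi, bump, Function.update_of_ne hiu, hy]
  have htch : (succSt T s v u x).tch = (x.asks :: x.lab) :: s.tch := rfl
  have hroots : (succSt T s v u x).roots = s.roots := rfl
  have hnew : (x.asks :: x.lab) ∉ s.tch := fun hm => lt_irrefl _ (h.slot u x _ hux hm)
  obtain ⟨ul1, ul2, ul3, ul4, ul5⟩ := h.lab u x hux
  have hdepv : T.dep u + 1 = T.dep v := by rw [hu]; exact T.dep_par v hv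
  have hdepl := T.dep_le v
  have hvt := v.isLt
  have hlabne : x.lab ≠ [] := by
    intro e
    rw [e] at ul2
    simp at ul2
  refine ⟨?_, ?_, ?_, ?_, ?_, ?_, ?_, ?_, ?_, ?_, ?_, ?_⟩
  · intro i x' hx'
    rcases hf i x' hx' with ⟨rfl, rfl⟩ | ⟨hi, y, hy, h1, h2, h3, h4, h5⟩
    · rw [htch]
      refine ⟨List.mem_cons_self, ?_, Nat.zero_le _, le_rfl, ?_⟩
      · simp only [List.length_cons]; omega
      · simp only; omega
    · obtain ⟨g1, g2, g3, g4, g5⟩ := h.lab i y hy
      rw [htch, h1, h4]
      refine ⟨List.mem_cons_of_mem _ g1, g2, h3, le_trans g4 (le_max_left _ _), ?_⟩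
      exact max_le g5 (by omega)
  · intro i x' hx' hi0
    rcases hf i x' hx' with ⟨rfl, rfl⟩ | ⟨hi, y, hy, h1, h2, h3, h4, h5⟩
    · rw [← hu]
      obtain ⟨z, hz, k1, k2, k3, k4⟩ := hf' u x hux
      refine ⟨z, x.asks, hz, ?_, ?_, ?_⟩
      · rw [k1]
      · have := k4 rfl; omega
      · rw [k3]; exact le_max_right _ _
    · obtain ⟨z, j, hz, k1, k2, k3⟩ := h.par i y hy hi0
      obtain ⟨z', hz', m1, m2, m3, -⟩ := hf' _ z hz
      refine ⟨z', j, hz', ?_, ?_, ?_⟩
      · rw [h1, m1, k1]
      · omega
      · rw [h4, m3]; exact max_le_max k3 le_rfl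
  · intro i i' x' x'' hx' hx'' he
    rcases hf i x' hx' with ⟨rfl, rfl⟩ | ⟨hi, y, hy, h1, -⟩
    · rcases hf i' x'' hx'' with ⟨rfl, rfl⟩ | ⟨hi', y', hy', h1', -⟩
      · rfl
      · exfalso
        apply hnew
        have he' : x.asks :: x.lab = y'.lab := by rw [← h1', ← he]
        rw [he']
        exact (h.lab i' y' hy').1
    · rcases hf i' x'' hx'' with ⟨rfl, rfl⟩ | ⟨hi', y', hy', h1', -⟩
      · exfalso
        apply hnew
        have he' : x.asks :: x.lab = y.lab := by rw [← h1, he]
        rw [he']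
        exact (h.lab i y hy).1
      · exact h.inj i i' y y' hy hy' (by rw [← h1, ← h1', he])
  · rw [htch]; exact List.nodup_cons.2 ⟨hnew, h.nodup⟩
  · rw [htch]
    intro hm
    rcases List.mem_cons.1 hm with h1 | h1
    · cases h1
    · exact h.nonnil h1
  · intro r hr
    rw [htch] at hr
    rw [hroots]
    rcases List.mem_cons.1 hr with h1 | h1
    · exact absurd (List.cons.inj h1).2.symm hlabne
    · exact h.rootlab r h1
  · intro j a hm hane
    rw [htch] at hm ⊢
    rcases List.mem_cons.1 hm with h1 | h1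
    · rw [(List.cons.inj h1).2]
      exact List.mem_cons_of_mem _ ul1
    · exact List.mem_cons_of_mem _ (h.closed j a h1 hane)
  · intro i x' j hx' hm
    rw [htch] at hm
    rcases hf i x' hx' with ⟨rfl, rfl⟩ | ⟨hi, y, hy, h1, h2, h3, h4, h5⟩
    · rcases List.mem_cons.1 hm with h1 | h1
      · have := congrArg List.length h1
        simp at this
      · exact absurd (h.closed j _ h1 (by simp)) hnew
    · rw [h1] at hm
      rcases List.mem_cons.1 hm with g | g
      · obtain ⟨g1, g2⟩ := List.cons.inj g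
        have hiu : i = u := h.inj i u y x hy hux g2
        have := h5 hiu
        omega
      · exact lt_of_lt_of_le (h.slot i y j hy g) h2
  · intro j a hm hane
    rw [htch] at hm
    rcases List.mem_cons.1 hm with h1 | h1
    · rw [(List.cons.inj h1).1]; exact hask
    · exact h.slotB j a h1 hane
  · intro a hm
    rw [htch] at hm
    rcases List.mem_cons.1 hm with h1 | h1
    · rw [h1]
      simp only [List.length_cons]
      omega
    · exact h.len a h1
  · rw [alive_succSt T s v u x hvn hux huv, htch]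
    simpa using h.alive_le
  · rw [htch, hroots]
    have := h.rootsle
    simp only [List.length_cons]
    omega

end Pool.Agent.Lib.MP_56e41f_co
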