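import Pool.Agent.Lib.MP_56e41f_co.StrA
import Pool.Agent.Lib.MP_56e41f_co.StrB

open Finset

namespace Pool.Agent.Lib.MP_56e41f_co

variable {t Δ : ℕ} (T : TD t Δ) (B w : ℕ)

theorem Str_step (F : Finset Lab) (s : St t) (h : Str T B s) : Str T B (step T B w F s) := by
  unfold step
  cases ha : act T B w s with
  | stop => exact h
  | root v => exact Str_root T B w s v h ha
  | ask v u x =>
    by_cases hF : x.asks :: x.lab ∈ F
    · simp only [if_pos hF]
      exact Str_succ T B w s v u x h ha
    · simp only [if_neg hF]
      exact Str_fail T B w s v u x h ha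
  | rem u => exact Str_rem T B w s u h ha

theorem Str_run (F : Finset Lab) (n : ℕ) : Str T B (run T B w F n (init t)) := by
  induction n with
  | zero => exact Str_init T B
  | succ n ih =>
    rw [run_succ']
    exact Str_step T B w F _ ih

/-- `Act.stop` only happens when the tree is embedded or too many images are lost. -/
theorem Str.stop {s : St t} (h : Str T B s) (ha : act T B w s = Act.stop) :
    s.nxt = none ∨ w < s.dead := by
  rcases act_stop T B w ha with h1 | h1 | ⟨v, hv, hv0, hp⟩
  · exact Or.inl h1
  · exact Or.inr h1
  · exact absurd hp ((nxt_eq_some hv).2 _ (T.par_lt v hv0))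

/-- A missing vertex leaves at most `t - 1` embedded ones. -/
theorem StrRun_alive_lt {s : St t} {v : Fin t} (hv : s.f v = none) : s.alive + 1 ≤ t := by
  have h1 : (univ.filter (fun i => (s.f i).isSome)) ⊂ (univ : Finset (Fin t)) := by
    rw [Finset.ssubset_iff_of_subset (Finset.filter_subset _ _)]
    exact ⟨v, Finset.mem_univ _, by simp [hv]⟩
  have h2 := Finset.card_lt_card h1
  rw [Finset.card_univ, Fintype.card_fin] at h2
  exact h2

theorem StrRun_step_le (F : Finset Lab) (s : St t) (h : s.tch.length ≤ t + w) :
    (step T B w F s).tch.length ≤ t + w := by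
  unfold step
  cases ha : act T B w s with
  | stop => exact h
  | root v =>
    obtain ⟨hn, hd, -⟩ := act_root T B w ha
    have h1 := StrRun_alive_lt (nxt_eq_some hn).1
    have h2 : (placeRoot s v).tch.length = s.tch.length + 1 := rfl
    simp only [h2]
    unfold St.dead at hd
    omega
  | ask v u x =>
    obtain ⟨hn, hd, -⟩ := act_ask T B w ha
    have h1 := StrRun_alive_lt (nxt_eq_some hn).1
    by_cases hF : x.asks :: x.lab ∈ F
    · simp only [if_pos hF]
      have h2 : (succSt T s v u x).tch.length = s.tch.length + 1 := rfl
      rw [h2]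
      unfold St.dead at hd
      omega
    · simp only [if_neg hF]
      exact h
  | rem u => exact h

/-- The number of used labels stays below `t + w`. -/
theorem tch_le (F : Finset Lab) (n : ℕ) : (run T B w F n (init t)).tch.length ≤ t + w := by
  induction n with
  | zero => simp [run, init]
  | succ n ih =>
    rw [run_succ']
    exact StrRun_step_le T B w F _ ih

end Pool.Agent.Lib.MP_56e41f_co
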