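import Pool.Agent.Lib.MP_56e41f_co.Expose
import Pool.Agent.Lib.MP_56e41f_co.StrRun

open Finset

namespace Pool.Agent.Lib.MP_56e41f_co

variable {V : Type*} [Fintype V] [DecidableEq V] {t Δ : ℕ}

/-- the embedded vertices -/
def couple_al (s : St t) : Finset (Fin t) := univ.filter (fun i => (s.f i).isSome)

/-- vertices of the host that are used -/
def couple_us (s : St t) (φ : Fin t → V) (D : Finset V) : Finset V :=
  (couple_al s).image φ ∪ D

theorem couple_mem_al (s : St t) (i : Fin t) : i ∈ couple_al s ↔ ∃ x, s.f i = some x := by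
  unfold couple_al
  rw [mem_filter]
  constructor
  · rintro ⟨_, h⟩
    exact Option.isSome_iff_exists.mp h
  · intro h
    exact ⟨mem_univ _, Option.isSome_iff_exists.mpr h⟩

/-- A realisation of a state of the machine in the host. -/
structure Conc (T : TD t Δ) (C : Fin t → Finset V) (J : ℕ) (s : St t) (φ : Fin t → V)
    (D : Finset V) (Qd A : Finset (Sym2 V)) : Prop where
  inj : ∀ i ∈ couple_al s, ∀ i' ∈ couple_al s, φ i = φ i' → i = i'
  cls : ∀ i ∈ couple_al s, φ i ∈ C i
  disj : ∀ i ∈ couple_al s, φ i ∉ D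
  dcard : D.card ≤ s.dead
  edge : ∀ i ∈ couple_al s, i.val ≠ 0 → s(φ (T.par i), φ i) ∈ A
  cnt : ∀ i x, s.f i = some x →
    (univ.filter (fun z => z ∉ couple_us s φ D ∧ s(φ i, z) ∈ Qd)).card ≤ x.asks * J
  fresh : ∀ z z', z ∉ couple_us s φ D → z' ∉ couple_us s φ D → s(z, z') ∉ Qd

theorem couple_mem_us {s : St t} {φ : Fin t → V} {D : Finset V} {z : V} :
    z ∈ couple_us s φ D ↔ (∃ i ∈ couple_al s, φ i = z) ∨ z ∈ D := by
  unfold couple_us
  rw [mem_union, mem_image]

theorem couple_emb (T : TD t Δ) (C : Fin t → Finset V) (J : ℕ) (s : St t) (φ : Fin t → V)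
    (D : Finset V) (Qd A : Finset (Sym2 V)) (h : Conc T C J s φ D Qd A) (hn : s.nxt = none)
    (F : Finset (Sym2 V)) : Emb T (A ∪ F) := by
  have hal : ∀ i, i ∈ couple_al s := by
    intro i
    rw [couple_mem_al]
    exact Option.ne_none_iff_exists'.mp (nxt_eq_none hn i)
  exact ⟨φ, fun i i' hii => h.inj i (hal i) i' (hal i') hii,
    fun i hi => mem_union_left _ (h.edge i (hal i) hi)⟩

theorem couple_stop (T : TD t Δ) (E : Finset (Sym2 V)) (C : Fin t → Finset V) (J : ℕ) (s : St t)
    (φ : Fin t → V) (D : Finset V) (Qd A : Finset (Sym2 V)) (h : Conc T C J s φ D Qd A)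
    {p : ℝ} (h0 : 0 ≤ p) (h1 : p ≤ 1) :
    ex p (E \ Qd) (fun F => ind (¬ Emb T (A ∪ F))) ≤ ind (s.nxt ≠ none) := by
  by_cases hn : s.nxt = none
  · rw [ex_congr p (E \ Qd) (g := fun _ => 0)
      (fun F _ => ind_false (fun hh => hh (couple_emb T C J s φ D Qd A h hn F))), ex_const]
    exact ind_nonneg _
  · rw [ind_true hn]
    exact pr_le_one h0 h1 (E \ Qd) (fun F => ¬ Emb T (A ∪ F))

theorem couple_f_root (s : St t) (v : Fin t) : (placeRoot s v).f =
    Function.update (bump 0 s.f) v (some ⟨[s.roots], 0, 0⟩) := rfl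

theorem couple_f_succ (T : TD t Δ) (s : St t) (v u : Fin t) (x : Nd) : (succSt T s v u x).f =
    Function.update
      (bump (T.dep v) (Function.update s.f u (some ⟨x.lab, x.asks + 1, x.lev⟩))) v
      (some ⟨x.asks :: x.lab, 0, T.dep v⟩) := rfl

theorem couple_f_fail (s : St t) (u : Fin t) (x : Nd) : (failSt s u x).f =
    Function.update s.f u (some ⟨x.lab, x.asks + 1, x.lev⟩) := rfl

theorem couple_al_root (s : St t) (v : Fin t) (i : Fin t) :
    i ∈ couple_al (placeRoot s v) ↔ i = v ∨ i ∈ couple_al s := by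
  rw [couple_mem_al, couple_mem_al]
  unfold placeRoot bump
  by_cases hi : i = v
  · subst hi
    simp
  · simp [Function.update_of_ne hi, hi]

theorem couple_al_succ (T : TD t Δ) (s : St t) (v u : Fin t) (x : Nd) (hu : s.f u = some x)
    (i : Fin t) : i ∈ couple_al (succSt T s v u x) ↔ i = v ∨ i ∈ couple_al s := by
  rw [couple_mem_al, couple_mem_al]
  unfold succSt bump
  by_cases hi : i = v
  · subst hi
    simp
  · by_cases hiu : i = u
    · subst hiu
      simp [Function.update_of_ne hi, hi, hu]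
    · simp [Function.update_of_ne hi, Function.update_of_ne hiu, hi]

theorem couple_al_fail (s : St t) (u : Fin t) (x : Nd) (hu : s.f u = some x)
    (i : Fin t) : i ∈ couple_al (failSt s u x) ↔ i ∈ couple_al s := by
  rw [couple_mem_al, couple_mem_al]
  unfold failSt
  by_cases hiu : i = u
  · subst hiu
    simp [hu]
  · simp [Function.update_of_ne hiu]

theorem couple_al_rem (T : TD t Δ) (s : St t) (u : Fin t) (i : Fin t) :
    i ∈ couple_al (remSt T s u) ↔ ¬ T.desc u i ∧ i ∈ couple_al s := by
  rw [couple_mem_al, couple_mem_al]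
  unfold remSt
  by_cases h : T.desc u i
  · simp [h]
  · simp [h]

theorem couple_rec_root (s : St t) (v : Fin t) (i : Fin t) (x' : Nd)
    (h : (placeRoot s v).f i = some x') :
    (i = v ∧ x'.asks = 0) ∨ (i ≠ v ∧ ∃ x0, s.f i = some x0 ∧ x'.asks = x0.asks) := by
  rw [couple_f_root] at h
  by_cases hi : i = v
  · subst hi
    left
    simp at h
    rw [← h]
    exact ⟨rfl, rfl⟩
  · right
    rw [Function.update_of_ne hi] at h
    unfold bump at h
    refine ⟨hi, ?_⟩
    cases hf : s.f i with
    | none => rw [hf] at h; simp at h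
    | some x0 =>
      rw [hf] at h
      simp at h
      exact ⟨x0, rfl, by rw [← h]⟩

theorem couple_rec_succ (T : TD t Δ) (s : St t) (v u : Fin t) (x : Nd) (i : Fin t) (x' : Nd)
    (h : (succSt T s v u x).f i = some x') :
    (i = v ∧ x'.asks = 0) ∨ (i ≠ v ∧ i = u ∧ x'.asks = x.asks + 1) ∨
      (i ≠ v ∧ i ≠ u ∧ ∃ x0, s.f i = some x0 ∧ x'.asks = x0.asks) := by
  rw [couple_f_succ] at h
  by_cases hi : i = v
  · subst hi
    left
    simp at h
    rw [← h]
    exact ⟨rfl, rfl⟩
  · right
    rw [Function.update_of_ne hi] at h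
    unfold bump at h
    by_cases hiu : i = u
    · subst hiu
      left
      rw [Function.update_self] at h
      simp at h
      exact ⟨hi, rfl, by rw [← h]⟩
    · right
      refine ⟨hi, hiu, ?_⟩
      rw [Function.update_of_ne hiu] at h
      cases hf : s.f i with
      | none => rw [hf] at h; simp at h
      | some x0 =>
        rw [hf] at h
        simp at h
        exact ⟨x0, rfl, by rw [← h]⟩

theorem couple_rec_fail (s : St t) (u : Fin t) (x : Nd) (i : Fin t) (x' : Nd)
    (h : (failSt s u x).f i = some x') :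
    (i = u ∧ x'.asks = x.asks + 1) ∨ (i ≠ u ∧ s.f i = some x') := by
  rw [couple_f_fail] at h
  by_cases hiu : i = u
  · subst hiu
    left
    rw [Function.update_self] at h
    simp at h
    exact ⟨rfl, by rw [← h]⟩
  · right
    rw [Function.update_of_ne hiu] at h
    exact ⟨hiu, h⟩

theorem couple_rec_rem (T : TD t Δ) (s : St t) (u : Fin t) (i : Fin t) (x' : Nd)
    (h : (remSt T s u).f i = some x') : ¬ T.desc u i ∧ s.f i = some x' := by
  unfold remSt at h
  by_cases hd : T.desc u i
  · simp [hd] at h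
  · simp [hd] at h
    exact ⟨hd, h⟩

theorem couple_root (T : TD t Δ) (C : Fin t → Finset V) (J B w : ℕ) (s : St t)
    (φ : Fin t → V) (D : Finset V) (Qd A : Finset (Sym2 V)) (h : Conc T C J s φ D Qd A)
    (hS : Str T B s) (v : Fin t) (ha : act T B w s = Act.root v) (z : V) (hz : z ∈ C v)
    (hzU : z ∉ couple_us s φ D) :
    Conc T C J (placeRoot s v) (Function.update φ v z) D Qd A := by
  obtain ⟨hnx, hdw, hv0⟩ := act_root T B w ha
  have hvn := (nxt_eq_some hnx).1
  have hval : v ∉ couple_al s := by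
    rw [couple_mem_al]; rintro ⟨x, hx⟩; rw [hvn] at hx; cases hx
  have hzal : ∀ i ∈ couple_al s, φ i ≠ z := fun i hi hh =>
    hzU (couple_mem_us.mpr (Or.inl ⟨i, hi, hh⟩))
  have hzD : z ∉ D := fun hh => hzU (couple_mem_us.mpr (Or.inr hh))
  have hφ : ∀ i ∈ couple_al s, Function.update φ v z i = φ i := by
    intro i hi
    rw [Function.update_of_ne]
    rintro rfl; exact hval hi
  have hus : ∀ y, y ∉ couple_us (placeRoot s v) (Function.update φ v z) D →
      y ∉ couple_us s φ D ∧ y ≠ z := by
    intro y hy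
    rw [couple_mem_us] at hy
    push Not at hy
    refine ⟨?_, ?_⟩
    · rw [couple_mem_us]
      rintro (⟨i, hi, hh⟩ | hh)
      · exact hy.1 i ((couple_al_root s v i).mpr (Or.inr hi)) (by rw [hφ i hi, hh])
      · exact hy.2 hh
    · rintro rfl
      exact hy.1 v ((couple_al_root s v v).mpr (Or.inl rfl)) (by rw [Function.update_self])
  constructor
  · intro i hi i' hi' hh
    rw [couple_al_root] at hi hi'
    rcases hi with rfl | hi
    · rcases hi' with rfl | hi'
      · rfl
      · rw [Function.update_self, hφ i' hi'] at hh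
        exact absurd hh.symm (hzal i' hi')
    · rcases hi' with rfl | hi'
      · rw [Function.update_self, hφ i hi] at hh
        exact absurd hh (hzal i hi)
      · rw [hφ i hi, hφ i' hi'] at hh
        exact h.inj i hi i' hi' hh
  · intro i hi
    rw [couple_al_root] at hi
    rcases hi with rfl | hi
    · rw [Function.update_self]; exact hz
    · rw [hφ i hi]; exact h.cls i hi
  · intro i hi
    rw [couple_al_root] at hi
    rcases hi with rfl | hi
    · rw [Function.update_self]; exact hzD
    · rw [hφ i hi]; exact h.disj i hi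
  · have h1 := alive_placeRoot s v hvn
    have h2 : (placeRoot s v).tch.length = s.tch.length + 1 := by simp [placeRoot]
    have h3 : (placeRoot s v).dead = s.dead := by
      unfold St.dead; rw [h1, h2]; omega
    rw [h3]; exact h.dcard
  · intro i hi hi0
    rw [couple_al_root] at hi
    rcases hi with rfl | hi
    · exact absurd hv0 hi0
    · obtain ⟨x, hx⟩ := (couple_mem_al s i).mp hi
      obtain ⟨y, j, hy, _⟩ := hS.par i x hx hi0
      rw [hφ i hi, hφ (T.par i) ((couple_mem_al s _).mpr ⟨y, hy⟩)]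
      exact h.edge i hi hi0
  · intro i x' hx'
    rcases couple_rec_root s v i x' hx' with ⟨rfl, hx0⟩ | ⟨hiv, x0, hx0, hask⟩
    · rw [hx0, zero_mul, Nat.le_zero, card_eq_zero, filter_eq_empty_iff]
      rintro y - ⟨hy1, hy2⟩
      rw [Function.update_self] at hy2
      exact h.fresh z y hzU (hus y hy1).1 hy2
    · rw [hask]
      refine le_trans (card_le_card ?_) (h.cnt i x0 hx0)
      intro y hy
      rw [mem_filter] at hy ⊢
      rw [Function.update_of_ne hiv] at hy
      exact ⟨mem_univ _, (hus y hy.2.1).1, hy.2.2⟩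
  · intro y y' hy hy'
    exact h.fresh y y' (hus y hy).1 (hus y' hy').1

theorem couple_succ (T : TD t Δ) (C : Fin t → Finset V) (J B w : ℕ) (s : St t)
    (φ : Fin t → V) (D : Finset V) (Qd A : Finset (Sym2 V)) (h : Conc T C J s φ D Qd A)
    (hS : Str T B s) (v u : Fin t) (x : Nd) (ha : act T B w s = Act.ask v u x)
    (Z : Finset V) (hZ : ∀ y ∈ Z, y ∉ couple_us s φ D) (hZc : Z.card ≤ J) (z : V) (hz : z ∈ C v)
    (hzU : z ∉ couple_us s φ D) :
    Conc T C J (succSt T s v u x) (Function.update φ v z) D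
      (Qd ∪ Z.image (fun y => s(φ u, y))) (insert s(φ u, z) A) := by
  obtain ⟨hnx, hdw, hv0, hu, hux, hxB⟩ := act_ask T B w ha
  have hvn := (nxt_eq_some hnx).1
  have hval : v ∉ couple_al s := by
    rw [couple_mem_al]; rintro ⟨x, hx⟩; rw [hvn] at hx; cases hx
  have hual : u ∈ couple_al s := (couple_mem_al s u).mpr ⟨x, hux⟩
  have huv : u ≠ v := by rintro rfl; exact hval hual
  have hzal : ∀ i ∈ couple_al s, φ i ≠ z := fun i hi hh =>
    hzU (couple_mem_us.mpr (Or.inl ⟨i, hi, hh⟩))
  have hzD : z ∉ D := fun hh => hzU (couple_mem_us.mpr (Or.inr hh))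
  have hφ : ∀ i ∈ couple_al s, Function.update φ v z i = φ i := by
    intro i hi
    rw [Function.update_of_ne]
    rintro rfl; exact hval hi
  have hφu : φ u ∈ couple_us s φ D := couple_mem_us.mpr (Or.inl ⟨u, hual, rfl⟩)
  have hus : ∀ y, y ∉ couple_us (succSt T s v u x) (Function.update φ v z) D →
      y ∉ couple_us s φ D ∧ y ≠ z := by
    intro y hy
    rw [couple_mem_us] at hy
    push Not at hy
    refine ⟨?_, ?_⟩
    · rw [couple_mem_us]
      rintro (⟨i, hi, hh⟩ | hh)
      · exact hy.1 i ((couple_al_succ T s v u x hux i).mpr (Or.inr hi)) (by rw [hφ i hi, hh])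
      · exact hy.2 hh
    · rintro rfl
      exact hy.1 v ((couple_al_succ T s v u x hux v).mpr (Or.inl rfl)) (by rw [Function.update_self])
  have hnew : ∀ a b, s(a, b) ∈ Z.image (fun y => s(φ u, y)) →
      (a = φ u ∧ b ∈ Z) ∨ (b = φ u ∧ a ∈ Z) := by
    intro a b hab
    rw [mem_image] at hab
    obtain ⟨y, hy, hyy⟩ := hab
    rw [Sym2.eq_iff] at hyy
    rcases hyy with ⟨h1, h2⟩ | ⟨h1, h2⟩
    · exact Or.inl ⟨h1.symm, h2 ▸ hy⟩
    · exact Or.inr ⟨h1.symm, h2 ▸ hy⟩
  constructor
  · intro i hi i' hi' hh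
    rw [couple_al_succ T s v u x hux] at hi hi'
    rcases hi with rfl | hi
    · rcases hi' with rfl | hi'
      · rfl
      · rw [Function.update_self, hφ i' hi'] at hh
        exact absurd hh.symm (hzal i' hi')
    · rcases hi' with rfl | hi'
      · rw [Function.update_self, hφ i hi] at hh
        exact absurd hh (hzal i hi)
      · rw [hφ i hi, hφ i' hi'] at hh
        exact h.inj i hi i' hi' hh
  · intro i hi
    rw [couple_al_succ T s v u x hux] at hi
    rcases hi with rfl | hi
    · rw [Function.update_self]; exact hz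
    · rw [hφ i hi]; exact h.cls i hi
  · intro i hi
    rw [couple_al_succ T s v u x hux] at hi
    rcases hi with rfl | hi
    · rw [Function.update_self]; exact hzD
    · rw [hφ i hi]; exact h.disj i hi
  · have h1 := alive_succSt T s v u x hvn hux huv
    have h2 : (succSt T s v u x).tch.length = s.tch.length + 1 := by simp [succSt]
    have h3 : (succSt T s v u x).dead = s.dead := by
      unfold St.dead; rw [h1, h2]; omega
    rw [h3]; exact h.dcard
  · intro i hi hi0
    rw [couple_al_succ T s v u x hux] at hi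
    rcases hi with rfl | hi
    · rw [Function.update_self, ← hu, hφ u hual]
      exact mem_insert_self _ _
    · obtain ⟨x, hx⟩ := (couple_mem_al s i).mp hi
      obtain ⟨y, j, hy, _⟩ := hS.par i x hx hi0
      rw [hφ i hi, hφ (T.par i) ((couple_mem_al s _).mpr ⟨y, hy⟩)]
      exact mem_insert_of_mem (h.edge i hi hi0)
  · intro i x' hx'
    rcases couple_rec_succ T s v u x i x' hx' with ⟨rfl, hx0⟩ | ⟨hiv, rfl, hask⟩ |
      ⟨hiv, hiu, x0, hx0, hask⟩
    · rw [hx0, zero_mul, Nat.le_zero, card_eq_zero, filter_eq_empty_iff]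
      rintro y - ⟨hy1, hy2⟩
      rw [Function.update_self, mem_union] at hy2
      rcases hy2 with hy2 | hy2
      · exact h.fresh z y hzU (hus y hy1).1 hy2
      · rcases hnew z y hy2 with ⟨h1, _⟩ | ⟨h1, _⟩
        · exact hzU (h1 ▸ hφu)
        · exact (hus y hy1).1 (h1 ▸ hφu)
    · rw [hask]
      calc _ ≤ ((univ.filter (fun z => z ∉ couple_us s φ D ∧ s(φ i, z) ∈ Qd)) ∪ Z).card := by
            refine card_le_card ?_
            intro y hy
            rw [mem_filter, Function.update_of_ne hiv, mem_union] at hy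
            rw [mem_union, mem_filter]
            obtain ⟨_, hy1, hy2 | hy2⟩ := hy
            · exact Or.inl ⟨mem_univ _, (hus y hy1).1, hy2⟩
            · rcases hnew _ y hy2 with ⟨_, h2⟩ | ⟨h1, _⟩
              · exact Or.inr h2
              · exact absurd (h1 ▸ hφu) (hus y hy1).1
        _ ≤ _ + Z.card := card_union_le _ _
        _ ≤ x.asks * J + J := Nat.add_le_add (h.cnt i x hux) hZc
        _ = (x.asks + 1) * J := by ring
    · rw [hask]
      refine le_trans (card_le_card ?_) (h.cnt i x0 hx0)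
      intro y hy
      rw [mem_filter, Function.update_of_ne hiv, mem_union] at hy
      rw [mem_filter]
      obtain ⟨_, hy1, hy2 | hy2⟩ := hy
      · exact ⟨mem_univ _, (hus y hy1).1, hy2⟩
      · exfalso
        have hial : i ∈ couple_al s := (couple_mem_al s i).mpr ⟨x0, hx0⟩
        rcases hnew _ y hy2 with ⟨h1, _⟩ | ⟨_, h2⟩
        · exact hiu (h.inj i hial u hual h1)
        · exact hZ _ h2 (couple_mem_us.mpr (Or.inl ⟨i, hial, rfl⟩))
  · intro y y' hy hy' hyy
    rw [mem_union] at hyy
    rcases hyy with hyy | hyy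
    · exact h.fresh y y' (hus y hy).1 (hus y' hy').1 hyy
    · rcases hnew y y' hyy with ⟨h1, _⟩ | ⟨h1, _⟩
      · exact (hus y hy).1 (h1 ▸ hφu)
      · exact (hus y' hy').1 (h1 ▸ hφu)

theorem couple_fail (T : TD t Δ) (C : Fin t → Finset V) (J B w : ℕ) (s : St t)
    (φ : Fin t → V) (D : Finset V) (Qd A : Finset (Sym2 V)) (h : Conc T C J s φ D Qd A)
    (v u : Fin t) (x : Nd) (ha : act T B w s = Act.ask v u x)
    (Z : Finset V) (hZ : ∀ y ∈ Z, y ∉ couple_us s φ D) (hZc : Z.card ≤ J) :
    Conc T C J (failSt s u x) φ D (Qd ∪ Z.image (fun y => s(φ u, y))) A := by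
  obtain ⟨hnx, hdw, hv0, hu, hux, hxB⟩ := act_ask T B w ha
  have hual : u ∈ couple_al s := (couple_mem_al s u).mpr ⟨x, hux⟩
  have hφu : φ u ∈ couple_us s φ D := couple_mem_us.mpr (Or.inl ⟨u, hual, rfl⟩)
  have hus : couple_us (failSt s u x) φ D = couple_us s φ D := by
    ext y
    rw [couple_mem_us, couple_mem_us]
    simp only [couple_al_fail s u x hux]
  have hnew : ∀ a b, s(a, b) ∈ Z.image (fun y => s(φ u, y)) →
      (a = φ u ∧ b ∈ Z) ∨ (b = φ u ∧ a ∈ Z) := by
    intro a b hab
    rw [mem_image] at hab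
    obtain ⟨y, hy, hyy⟩ := hab
    rw [Sym2.eq_iff] at hyy
    rcases hyy with ⟨h1, h2⟩ | ⟨h1, h2⟩
    · exact Or.inl ⟨h1.symm, h2 ▸ hy⟩
    · exact Or.inr ⟨h1.symm, h2 ▸ hy⟩
  constructor
  · intro i hi i' hi' hh
    rw [couple_al_fail s u x hux] at hi hi'
    exact h.inj i hi i' hi' hh
  · intro i hi
    rw [couple_al_fail s u x hux] at hi
    exact h.cls i hi
  · intro i hi
    rw [couple_al_fail s u x hux] at hi
    exact h.disj i hi
  · have h1 := alive_failSt s u x hux
    have h3 : (failSt s u x).dead = s.dead := by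
      unfold St.dead; rw [h1]; rfl
    rw [h3]; exact h.dcard
  · intro i hi hi0
    rw [couple_al_fail s u x hux] at hi
    exact h.edge i hi hi0
  · intro i x' hx'
    rw [hus]
    rcases couple_rec_fail s u x i x' hx' with ⟨rfl, hask⟩ | ⟨hiu, hx0⟩
    · rw [hask]
      calc _ ≤ ((univ.filter (fun z => z ∉ couple_us s φ D ∧ s(φ i, z) ∈ Qd)) ∪ Z).card := by
            refine card_le_card ?_
            intro y hy
            rw [mem_filter, mem_union] at hy
            rw [mem_union, mem_filter]
            obtain ⟨_, hy1, hy2 | hy2⟩ := hy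
            · exact Or.inl ⟨mem_univ _, hy1, hy2⟩
            · rcases hnew _ y hy2 with ⟨_, h2⟩ | ⟨h1, _⟩
              · exact Or.inr h2
              · exact absurd (h1 ▸ hφu) hy1
        _ ≤ _ + Z.card := card_union_le _ _
        _ ≤ x.asks * J + J := Nat.add_le_add (h.cnt i x hux) hZc
        _ = (x.asks + 1) * J := by ring
    · refine le_trans (card_le_card ?_) (h.cnt i x' hx0)
      intro y hy
      rw [mem_filter, mem_union] at hy
      rw [mem_filter]
      obtain ⟨_, hy1, hy2 | hy2⟩ := hy
      · exact ⟨mem_univ _, hy1, hy2⟩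
      · exfalso
        have hial : i ∈ couple_al s := (couple_mem_al s i).mpr ⟨x', hx0⟩
        rcases hnew _ y hy2 with ⟨h1, _⟩ | ⟨_, h2⟩
        · exact hiu (h.inj i hial u hual h1)
        · exact hZ _ h2 (couple_mem_us.mpr (Or.inl ⟨i, hial, rfl⟩))
  · intro y y' hy hy' hyy
    rw [hus] at hy hy'
    rw [mem_union] at hyy
    rcases hyy with hyy | hyy
    · exact h.fresh y y' hy hy' hyy
    · rcases hnew y y' hyy with ⟨h1, _⟩ | ⟨h1, _⟩
      · exact hy (h1 ▸ hφu)
      · exact hy' (h1 ▸ hφu)

open Classical in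
theorem couple_rem (T : TD t Δ) (C : Fin t → Finset V) (J B : ℕ) (s : St t)
    (φ : Fin t → V) (D : Finset V) (Qd A : Finset (Sym2 V)) (h : Conc T C J s φ D Qd A)
    (hS : Str T B s) (u : Fin t) :
    ∃ D' : Finset V, Conc T C J (remSt T s u) φ D' Qd A := by
  set R : Finset (Fin t) := univ.filter (fun z => T.desc u z ∧ (s.f z).isSome) with hR
  have hRal : ∀ i, i ∈ R ↔ T.desc u i ∧ i ∈ couple_al s := by
    intro i
    rw [hR, mem_filter, couple_al, mem_filter]
    simp
  refine ⟨D ∪ R.image φ, ?_⟩
  have hus : couple_us (remSt T s u) φ (D ∪ R.image φ) = couple_us s φ D := by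
    ext y
    rw [couple_mem_us, couple_mem_us, mem_union, mem_image]
    constructor
    · rintro (⟨i, hi, hh⟩ | hh | ⟨i, hi, hh⟩)
      · exact Or.inl ⟨i, ((couple_al_rem T s u i).mp hi).2, hh⟩
      · exact Or.inr hh
      · exact Or.inl ⟨i, ((hRal i).mp hi).2, hh⟩
    · rintro (⟨i, hi, hh⟩ | hh)
      · by_cases hd : T.desc u i
        · exact Or.inr (Or.inr ⟨i, (hRal i).mpr ⟨hd, hi⟩, hh⟩)
        · exact Or.inl ⟨i, (couple_al_rem T s u i).mpr ⟨hd, hi⟩, hh⟩
      · exact Or.inr (Or.inl hh)
  constructor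
  · intro i hi i' hi' hh
    rw [couple_al_rem] at hi hi'
    exact h.inj i hi.2 i' hi'.2 hh
  · intro i hi
    rw [couple_al_rem] at hi
    exact h.cls i hi.2
  · intro i hi
    rw [couple_al_rem] at hi
    rw [mem_union, mem_image]
    rintro (hh | ⟨i', hi', hh⟩)
    · exact h.disj i hi.2 hh
    · have := h.inj i' ((hRal i').mp hi').2 i hi.2 hh
      subst this
      exact hi.1 ((hRal i').mp hi').1
  · have h1 := alive_remSt T s u
    have h2 : (remSt T s u).tch.length = s.tch.length := rfl
    have h3 := hS.alive_le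
    have h4 : (D ∪ R.image φ).card ≤ D.card + R.card :=
      le_trans (card_union_le _ _) (Nat.add_le_add_left card_image_le _)
    have h5 := h.dcard
    unfold St.dead at h5 ⊢
    rw [h2]
    rw [← hR] at h1
    omega
  · intro i hi hi0
    rw [couple_al_rem] at hi
    exact h.edge i hi.2 hi0
  · intro i x' hx'
    rw [hus]
    exact h.cnt i x' (couple_rec_rem T s u i x' hx').2
  · rw [hus]
    exact h.fresh

theorem couple_main (T : TD t Δ) (E : Finset (Sym2 V)) (C : Fin t → Finset V) (B w m J : ℕ)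
    (hH : Host T E C w m) (hJ : B * J ≤ m) (p : ℝ) (h0 : 0 ≤ p) (h1 : p ≤ 1) (n : ℕ) :
    ∀ (s : St t) (φ : Fin t → V) (D : Finset V) (Qd A : Finset (Sym2 V)), Str T B s →
      Conc T C J s φ D Qd A →
      ex p (E \ Qd) (fun F => ind (¬ Emb T (A ∪ F))) ≤ val T B w ((1 - p) ^ J) n s := by
  induction n with
  | zero =>
    intro s φ D Qd A hS h
    exact couple_stop T E C J s φ D Qd A h h0 h1
  | succ n ih =>
    intro s φ D Qd A hS h
    have hinj : Set.InjOn φ (couple_al s) := fun i hi i' hi' hh => h.inj i hi i' hi' hh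
    cases ha : act T B w s with
    | stop =>
      rw [val, ha]
      exact couple_stop T E C J s φ D Qd A h h0 h1
    | root v =>
      rw [val, ha]
      obtain ⟨hnx, hdw, hv0⟩ := act_root T B w ha
      have hvn := (nxt_eq_some hnx).1
      have hval : v ∉ couple_al s := by
        rw [couple_mem_al]; rintro ⟨x, hx⟩; rw [hvn] at hx; cases hx
      obtain ⟨z, hz⟩ := hH.root (couple_al s) φ D hinj h.cls (le_trans h.dcard hdw) v hval hv0
      rw [mem_sdiff] at hz
      exact ih _ _ D Qd A (Str_root T B w s v hS ha)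
        (couple_root T C J B w s φ D Qd A h hS v ha z hz.1 hz.2)
    | ask v u x =>
      rw [val, ha]
      obtain ⟨hnx, hdw, hv0, hu, hux, hxB⟩ := act_ask T B w ha
      have hvn := (nxt_eq_some hnx).1
      have hval : v ∉ couple_al s := by
        rw [couple_mem_al]; rintro ⟨x, hx⟩; rw [hvn] at hx; cases hx
      have hual : u ∈ couple_al s := (couple_mem_al s u).mpr ⟨x, hux⟩
      have hav := hH.avail (couple_al s) φ D hinj h.cls (le_trans h.dcard hdw) v hval hv0
        (hu ▸ hual)
      rw [← hu] at hav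
      set N := ((C v \ ((couple_al s).image φ ∪ D)).filter (fun z => s(φ u, z) ∈ E)) with hN
      set Bd := univ.filter (fun z => z ∉ couple_us s φ D ∧ s(φ u, z) ∈ Qd) with hBd
      have hcard : J ≤ (N \ Bd).card := by
        have h2 := h.cnt u x hux
        rw [← hBd] at h2
        have h3 : N.card ≤ (N \ Bd).card + Bd.card := by
          exact card_le_card_sdiff_add_card
        have h4 : (x.asks + 1) * J ≤ B * J := Nat.mul_le_mul_right J hxB
        have h5 : (x.asks + 1) * J = x.asks * J + J := by ring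
        omega
      obtain ⟨Z0, hZ0, hZ0c⟩ := exists_subset_card_eq hcard
      have hZ0' : ∀ y ∈ Z0, y ∈ C v ∧ y ∉ couple_us s φ D ∧ s(φ u, y) ∈ E ∧ s(φ u, y) ∉ Qd := by
        intro y hy
        have := hZ0 hy
        rw [mem_sdiff, hN, mem_filter, mem_sdiff, hBd, mem_filter] at this
        obtain ⟨⟨⟨h1, h2⟩, h3⟩, h4⟩ := this
        refine ⟨h1, h2, h3, fun hh => h4 ⟨mem_univ _, h2, hh⟩⟩
      have hinj2 : Function.Injective (fun y : V => s(φ u, y)) := by
        intro a b hab
        exact Sym2.congr_right.mp hab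
      set zl := Z0.toList with hzl
      set l := zl.map (fun y => s(φ u, y)) with hl
      have hlen : l.length = J := by rw [hl, List.length_map, hzl, length_toList, hZ0c]
      have hnod : l.Nodup := (Finset.nodup_toList Z0).map hinj2
      have htake : ∀ k, (l.take k).toFinset = ((zl.take k).toFinset).image (fun y => s(φ u, y)) := by
        intro k
        ext e
        rw [hl, ← List.map_take, List.mem_toFinset, List.mem_map, mem_image]
        constructor
        · rintro ⟨y, hy, rfl⟩; exact ⟨y, List.mem_toFinset.mpr hy, rfl⟩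
        · rintro ⟨y, hy, rfl⟩; exact ⟨y, List.mem_toFinset.mp hy, rfl⟩
      have hzmem : ∀ k, ∀ y ∈ (zl.take k).toFinset, y ∈ Z0 := by
        intro k y hy
        exact Finset.mem_toList.mp (List.mem_of_mem_take (List.mem_toFinset.mp hy))
      have hzcard : ∀ k, (zl.take k).toFinset.card ≤ J := by
        intro k
        have h1 : (zl.take k).toFinset ⊆ Z0 := fun y hy => hzmem k y hy
        exact le_trans (card_le_card h1) hZ0c.le
      have key := expose h0 h1 (E \ Qd) (fun X => ind (¬ Emb T X)) l hnod (by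
        intro e he
        rw [hl, List.mem_map] at he
        obtain ⟨y, hy, rfl⟩ := he
        have := hZ0' y (Finset.mem_toList.mp hy)
        exact mem_sdiff.mpr ⟨this.2.2.1, this.2.2.2⟩) A
        (val T B w ((1 - p) ^ J) n (succSt T s v u x))
        (val T B w ((1 - p) ^ J) n (failSt s u x)) (by
          intro k hk
          have hk' : k < zl.length := by rw [hl, List.length_map] at hk; exact hk
          have hlk : l[k] = s(φ u, zl[k]) := by simp [hl]
          have hzk := hZ0' (zl[k]) (Finset.mem_toList.mp (List.getElem_mem hk'))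
          rw [sdiff_sdiff_left, htake, hlk]
          exact ih _ _ D _ _ (Str_succ T B w s v u x hS ha)
            (couple_succ T C J B w s φ D Qd A h hS v u x ha _
              (fun y hy => (hZ0' y (hzmem _ y hy)).2.1) (hzcard _) _ hzk.1 hzk.2.1)) (by
          have hl0 : l.toFinset = (zl.toFinset).image (fun y => s(φ u, y)) := by
            have := htake l.length
            rwa [List.take_length, hl, List.length_map, List.take_length] at this
          rw [sdiff_sdiff_left, hl0]
          have hsub : ∀ y ∈ zl.toFinset, y ∈ Z0 := fun y hy =>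
            Finset.mem_toList.mp (List.mem_toFinset.mp hy)
          exact ih _ _ D _ _ (Str_fail T B w s v u x hS ha)
            (couple_fail T C J B w s φ D Qd A h v u x ha _
              (fun y hy => (hZ0' y (hsub y hy)).2.1)
              (le_trans (card_le_card (fun y hy => hsub y hy)) hZ0c.le)))
      rw [hlen] at key
      exact key
    | rem u =>
      rw [val, ha]
      obtain ⟨D', hD'⟩ := couple_rem T C J B s φ D Qd A h hS u
      exact ih _ _ D' Qd A (Str_rem T B w s u hS ha) hD'

theorem couple [Nonempty V] (T : TD t Δ) (E : Finset (Sym2 V)) (C : Fin t → Finset V)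
    (B w m J : ℕ) (hH : Host T E C w m) (hJ : B * J ≤ m) (p : ℝ) (h0 : 0 ≤ p) (h1 : p ≤ 1)
    (n : ℕ) :
    pr p E (fun F => ¬ Emb T F) ≤ val T B w ((1 - p) ^ J) n (init t) := by
  obtain ⟨z0⟩ := ‹Nonempty V›
  have hal : ∀ i, i ∉ couple_al (init t) := by
    intro i
    rw [couple_mem_al]
    rintro ⟨x, hx⟩
    simp [init] at hx
  have hC : Conc T C J (init t) (fun _ => z0) ∅ ∅ ∅ := by
    constructor
    · intro i hi; exact absurd hi (hal i)
    · intro i hi; exact absurd hi (hal i)
    · intro i hi; exact absurd hi (hal i)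
    · simp
    · intro i hi; exact absurd hi (hal i)
    · intro i x hx
      exact absurd ((couple_mem_al _ i).mpr ⟨x, hx⟩) (hal i)
    · intro z z' _ _ hh
      exact absurd hh (notMem_empty _)
  have := couple_main T E C B w m J hH hJ p h0 h1 n (init t) (fun _ => z0) ∅ ∅ ∅
    (Str_init T B) hC
  rw [sdiff_empty] at this
  refine le_trans (le_of_eq ?_) this
  unfold pr
  refine ex_congr p E (fun F _ => ?_)
  rw [empty_union]

end Pool.Agent.Lib.MP_56e41f_co
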