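import Pool.Agent.Lib.MP_56e41f_co.Params
import Pool.Agent.Lib.MP_56e41f_co.Couple
import Pool.Agent.Lib.MP_56e41f_co.CoreLim

open Finset

namespace Pool.Agent.Lib.MP_56e41f_co

/-- large `d` -/
theorem big (c : ℝ) (hc : 0 < c) (hc1 : c < 1) : ∃ K0 : ℝ, 1 ≤ K0 ∧ ∀ K : ℝ, K0 ≤ K →
    ∀ ε : ℝ, 0 < ε → ∃ d0 : ℝ, ∀ (V : Type) [Fintype V] [DecidableEq V] [Nonempty V] (t Δ : ℕ)
      (T : TD t Δ) (E : Finset (Sym2 V)) (C : Fin t → Finset V) (d p : ℝ), d0 ≤ d → 1 ≤ Δ → 0 < d →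
      K * Δ / d ≤ p → p ≤ 1 → (t : ℝ) ≤ (1 - c) * d →
      Host T E C ⌊c * d / 8⌋₊ ⌊c * d / 4⌋₊ →
      pr p E (fun F => ¬ Emb T F) ≤ ε := by
  obtain ⟨q0, hq0, hcore⟩ := core_lim c hc hc1
  obtain ⟨K0, hK0, hpar⟩ := params c q0 hc hc1 hq0
  refine ⟨K0, hK0, fun K hK ε hε => ?_⟩
  obtain ⟨d0, _, hd0⟩ := hcore ε hε
  refine ⟨d0, ?_⟩
  intro V _ _ _ t Δ T E C d p hdd hΔ hd hp hp1 ht hH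
  obtain ⟨_, hp0, hJ, hq, hw1, hw2⟩ := hpar K hK Δ d p hΔ hd hp hp1
  refine (couple T E C (3 * Δ) ⌊c * d / 8⌋₊ ⌊c * d / 4⌋₊ (⌊c * d / 4⌋₊ / (3 * Δ)) hH hJ p hp0 hp1
    ((3 * Δ + 2) * (t + ⌊c * d / 8⌋₊ + 1))).trans ?_
  exact hd0 t Δ ⌊c * d / 8⌋₊ T d _ hdd hΔ ht hw1 hw2 (pow_nonneg (by linarith) _) hq _ le_rfl

end Pool.Agent.Lib.MP_56e41f_co
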