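import Pool.Agent.Lib.MP_56e41f_co.Side
import Pool.Agent.Lib.MP_56e41f_co.HostBip

open Finset

namespace Pool.Agent.Lib.MP_56e41f_co

variable {V : Type*} [Fintype V] [DecidableEq V] {t Δ : ℕ}

theorem existshost_aux (T : TD t Δ) (E : Finset (Sym2 V)) (A B : Finset V)
    (hl : ∀ x : V, s(x, x) ∉ E) (hAB : Disjoint A B)
    (hE : ∀ e ∈ E, ∃ a ∈ A, ∃ b ∈ B, e = s(a, b)) (hne : E.Nonempty) (d c : ℝ) (hd0 : 0 < d)
    (hc : 0 < c) (hc1 : c < 1) (hcard : A.card ≤ B.card)
    (hd : d / 2 * (A.card + B.card) ≤ E.card) (ht : (t : ℝ) ≤ (1 - c) * d) (w m : ℕ)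
    (hwm : (w : ℝ) + m ≤ c * d / 2) :
    ∃ C : Fin t → Finset V, Host T E C w m := by
  set e0 := (univ.filter (fun i => T.dep i % 2 = 0)).card with he0
  set e1 := (univ.filter (fun i => T.dep i % 2 = 1)).card with he1
  have hsum : e0 + e1 = t := by
    have h1 := card_filter_add_card_filter_not (s := (univ : Finset (Fin t)))
      (fun i => T.dep i % 2 = 0)
    have h2 : (univ.filter (fun i => ¬ T.dep i % 2 = 0)) =
        (univ.filter (fun i : Fin t => T.dep i % 2 = 1)) := by
      refine filter_congr fun i _ => ?_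
      omega
    rw [h2, card_univ, Fintype.card_fin] at h1
    exact h1
  have hsumR : (e0 : ℝ) + e1 = t := by exact_mod_cast hsum
  set M : ℝ := max (e0 : ℝ) (e1 : ℝ) with hM
  have hM0 : (e0 : ℝ) ≤ M := le_max_left _ _
  have hM1 : (e1 : ℝ) ≤ M := le_max_right _ _
  have hMt : M ≤ t := by
    refine max_le ?_ ?_
    · have : (0 : ℝ) ≤ e1 := Nat.cast_nonneg _
      linarith
    · have : (0 : ℝ) ≤ e0 := Nat.cast_nonneg _
      linarith
  have hw0 : (0 : ℝ) ≤ w := Nat.cast_nonneg _
  have hm0 : (0 : ℝ) ≤ m := Nat.cast_nonneg _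
  set α : ℝ := max (d / 2) (M + w + m) with hα
  have hα1 : d / 2 ≤ α := le_max_left _ _
  have hα2 : M + w + m ≤ α := le_max_right _ _
  have hcd : 0 < c * d := mul_pos hc hd0
  have hβ : 0 < d - α := by
    rcases max_choice (d / 2) (M + w + m) with h | h
    · rw [hα, h]; linarith
    · rw [hα, h]; nlinarith
  have hβ2 : (t : ℝ) - M + w + m ≤ d - α := by
    rcases max_choice (d / 2) (M + w + m) with h | h
    · rw [← hα] at h
      rw [h] at hα2 ⊢
      have h3 : (t : ℝ) - M ≤ M := by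
        have : (t : ℝ) ≤ 2 * M := by linarith
        linarith
      linarith
    · rw [hα, h]; nlinarith
  obtain ⟨A', hA', B', hB', hA'ne, hB'ne, hdA, hdB⟩ := side_degrees E A B hAB hE hne d α (d - α)
    hcard hd hα1 (by linarith) hβ (by linarith)
  have hdisj : Disjoint A' B' := disjoint_of_subset_left hA' (disjoint_of_subset_right hB' hAB)
  rcases le_total e0 e1 with hle | hle
  · have hMe : M = e1 := max_eq_right (by exact_mod_cast hle)
    refine ⟨_, host_bip T E A' B' w m hl hdisj hA'ne hB'ne (fun a ha => ?_) fun b hb => ?_⟩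
    · have h1 := hdA a ha
      have h2 : ((e1 + w + m : ℕ) : ℝ) ≤ ((B'.filter (fun z => s(a, z) ∈ E)).card : ℝ) := by
        push_cast
        linarith
      exact_mod_cast h2
    · have h1 := hdB b hb
      have h2 : ((e0 + w + m : ℕ) : ℝ) ≤ ((A'.filter (fun z => s(b, z) ∈ E)).card : ℝ) := by
        push_cast
        linarith
      exact_mod_cast h2
  · have hMe : M = e0 := max_eq_left (by exact_mod_cast hle)
    refine ⟨_, host_bip T E B' A' w m hl hdisj.symm hB'ne hA'ne (fun a ha => ?_) fun b hb => ?_⟩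
    · have h1 := hdB a ha
      have h2 : ((e1 + w + m : ℕ) : ℝ) ≤ ((A'.filter (fun z => s(a, z) ∈ E)).card : ℝ) := by
        push_cast
        linarith
      exact_mod_cast h2
    · have h1 := hdA b hb
      have h2 : ((e0 + w + m : ℕ) : ℝ) ≤ ((B'.filter (fun z => s(b, z) ∈ E)).card : ℝ) := by
        push_cast
        linarith
      exact_mod_cast h2

/-- bipartite hosts of average degree `d` : for `w + m + 1 ≤ c d / 2` there is a host -/
theorem exists_host_bip (T : TD t Δ) (E : Finset (Sym2 V)) (A B : Finset V)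
    (hl : ∀ x : V, s(x, x) ∉ E) (hAB : Disjoint A B)
    (hE : ∀ e ∈ E, ∃ a ∈ A, ∃ b ∈ B, e = s(a, b)) (hne : E.Nonempty) (d c : ℝ) (hd0 : 0 < d)
    (hc : 0 < c) (hc1 : c < 1)
    (hd : d / 2 * (A.card + B.card) ≤ E.card) (ht : (t : ℝ) ≤ (1 - c) * d) (w m : ℕ)
    (hwm : (w : ℝ) + m ≤ c * d / 2) :
    ∃ C : Fin t → Finset V, Host T E C w m := by
  rcases le_total A.card B.card with h | h
  · exact existshost_aux T E A B hl hAB hE hne d c hd0 hc hc1 h hd ht w m hwm
  · refine existshost_aux T E B A hl hAB.symm (fun e he => ?_) hne d c hd0 hc hc1 h ?_ ht w m hwm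
    · obtain ⟨a, ha, b, hb, rfl⟩ := hE e he
      exact ⟨b, hb, a, ha, Sym2.eq_swap⟩
    · rw [add_comm]; exact hd

end Pool.Agent.Lib.MP_56e41f_co
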