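import Pool.Agent.Lib.MP_56e41f_co.EmbHost
import Pool.Agent.Lib.MP_56e41f_co.ExistsHost

open Finset

namespace Pool.Agent.Lib.MP_56e41f_co

variable {V : Type*} [Fintype V] [DecidableEq V] {t Δ : ℕ}

/-- removing few edges of a bipartite graph does not destroy all copies -/
theorem bip_robust (T : TD t Δ) (E : Finset (Sym2 V)) (A B : Finset V)
    (hl : ∀ x : V, s(x, x) ∉ E) (hAB : Disjoint A B)
    (hE : ∀ e ∈ E, ∃ a ∈ A, ∃ b ∈ B, e = s(a, b)) (d c : ℝ) (hc : 0 < c) (hc1 : c < 1)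
    (hd0 : 8 ≤ c * d) (hne : E.Nonempty)
    (hd : d / 2 * (A.card + B.card) ≤ E.card) (ht : (t : ℝ) ≤ (1 - c) * d)
    (X : Finset (Sym2 V)) (hX : X ⊆ E) (hXc : (X.card : ℝ) ≤ c / 4 * E.card) :
    Emb T (E \ X) := by
  have : Nonempty V := by
    obtain ⟨e, he⟩ := hne
    obtain ⟨a, _, _⟩ := hE e he
    exact ⟨a⟩
  have hdpos : 0 < d := by
    by_contra h
    push Not at h
    nlinarith
  have hEpos : (0 : ℝ) < E.card := by exact_mod_cast hne.card_pos
  have hcard : ((E \ X).card : ℝ) = (E.card : ℝ) - X.card := by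
    rw [card_sdiff_of_subset hX, Nat.cast_sub (card_le_card hX)]
  have hcard2 : (1 - c / 4) * (E.card : ℝ) ≤ ((E \ X).card : ℝ) := by
    rw [hcard]; linarith
  have hne' : (E \ X).Nonempty := by
    rw [← card_pos]
    have : (0 : ℝ) < ((E \ X).card : ℝ) := lt_of_lt_of_le (by nlinarith) hcard2
    exact_mod_cast this
  obtain ⟨C, hC⟩ := exists_host_bip T (E \ X) A B (fun x hx => hl x (mem_sdiff.1 hx).1) hAB
    (fun e he => hE e (mem_sdiff.1 he).1) hne' ((1 - c / 4) * d) (c / 2) (by nlinarith)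
    (by linarith) (by linarith) (by
      have h1 : (1 - c / 4) * (d / 2 * ((A.card : ℝ) + B.card)) ≤ (1 - c / 4) * (E.card : ℝ) :=
        mul_le_mul_of_nonneg_left hd (by linarith)
      have h2 : (1 - c / 4) * d / 2 * ((A.card : ℝ) + B.card) =
        (1 - c / 4) * (d / 2 * ((A.card : ℝ) + B.card)) := by ring
      rw [h2]
      exact h1.trans hcard2) (by
      have h1 : (1 - c) ≤ (1 - c / 2) * (1 - c / 4) := by nlinarith
      have h2 := mul_le_mul_of_nonneg_right h1 hdpos.le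
      have h3 : (1 - c / 2) * (1 - c / 4) * d = (1 - c / 2) * ((1 - c / 4) * d) := by ring
      linarith) 0 1 (by
      push_cast
      nlinarith)
  exact emb_of_host T (E \ X) C 1 hC le_rfl

end Pool.Agent.Lib.MP_56e41f_co
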