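import Pool.Agent.Lib.MP_56e41f_co.Big
import Pool.Agent.Lib.MP_56e41f_co.BipRobust
import Pool.Agent.Lib.MP_56e41f_co.Robust

open Finset

namespace Pool.Agent.Lib.MP_56e41f_co

/-- bipartite hosts -/
theorem bip_case (c : ℝ) (hc : 0 < c) (hc1 : c < 1) : ∃ K0 : ℝ, 1 ≤ K0 ∧ ∀ K : ℝ, K0 ≤ K →
    ∀ ε : ℝ, 0 < ε → ∃ n0 : ℕ, ∀ (V : Type) [Fintype V] [DecidableEq V] (t Δ : ℕ) (T : TD t Δ)
      (E : Finset (Sym2 V)) (A B : Finset V) (d p : ℝ), n0 ≤ Fintype.card V → 2 ≤ t → 1 ≤ Δ →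
      (∀ x : V, s(x, x) ∉ E) → Disjoint A B → (∀ e ∈ E, ∃ a ∈ A, ∃ b ∈ B, e = s(a, b)) →
      0 < d → d / 2 * Fintype.card V ≤ E.card → K * Δ / d ≤ p → p ≤ 1 → (t : ℝ) ≤ (1 - c) * d →
      pr p E (fun F => ¬ Emb T F) ≤ ε := by
  obtain ⟨K1, hK1, hbig⟩ := big c hc hc1
  obtain ⟨K2, hK2, hpar⟩ := params c 1 hc hc1 one_pos
  refine ⟨max K1 K2, le_max_of_le_left hK1, ?_⟩
  intro K hK ε hε
  obtain ⟨d0, hd0⟩ := hbig K ((le_max_left _ _).trans hK) ε hε
  have hKone : 1 ≤ K := hK1.trans ((le_max_left _ _).trans hK)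
  set D : ℝ := max d0 1 with hD
  have hD1 : 1 ≤ D := le_max_right _ _
  set N : ℕ := ⌈D⌉₊ with hN
  have hNpos : 0 < N := Nat.ceil_pos.2 (by linarith)
  set p1 : ℝ := 1 / D with hp1
  have hp1pos : 0 < p1 := by rw [hp1]; positivity
  have hp1le : p1 ≤ 1 := by
    rw [hp1, div_le_one (by linarith)]
    exact hD1
  have hb0 : 0 ≤ 1 - p1 ^ N := by
    have := pow_le_one₀ (n := N) hp1pos.le hp1le
    linarith
  have hb1 : 1 - p1 ^ N < 1 := by
    have := pow_pos hp1pos N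
    linarith
  obtain ⟨k, hk⟩ := exists_pow_lt_of_lt_one hε hb1
  refine ⟨max 1 (k * N), ?_⟩
  intro V _ _ t Δ T E A B d p hn ht hΔ hl hAB hE hd hdE hp hp1' htd
  have hn1 : 1 ≤ Fintype.card V := (le_max_left _ _).trans hn
  have hnk : k * N ≤ Fintype.card V := (le_max_right _ _).trans hn
  have : Nonempty V := Fintype.card_pos_iff.1 hn1
  obtain ⟨hcd, hp0, -, -, hw1, hw2⟩ := hpar K ((le_max_right _ _).trans hK) Δ d p hΔ hd hp hp1'
  have hEpos : (0 : ℝ) < E.card := by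
    have : (0 : ℝ) < Fintype.card V := by exact_mod_cast hn1
    have h2 : 0 < d / 2 * Fintype.card V := by positivity
    linarith
  have hne : E.Nonempty := by
    rw [← Finset.card_pos]
    exact_mod_cast hEpos
  have hABc : (A.card : ℝ) + B.card ≤ Fintype.card V := by
    rw [← Nat.cast_add, ← Finset.card_union_of_disjoint hAB]
    exact_mod_cast Finset.card_le_univ _
  have hdAB : d / 2 * (A.card + B.card) ≤ E.card :=
    (mul_le_mul_of_nonneg_left hABc (by positivity)).trans hdE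
  rcases le_or_gt d0 d with hdd | hdd
  · have hm : (⌊c * d / 4⌋₊ : ℝ) ≤ c * d / 4 := Nat.floor_le (by linarith)
    obtain ⟨C, hC⟩ := exists_host_bip T E A B hl hAB hE hne d c hd hc hc1 hdAB htd
      ⌊c * d / 8⌋₊ ⌊c * d / 4⌋₊ (by linarith)
    exact hd0 V t Δ T E C d p hdd hΔ hd hp hp1' htd hC
  · have hrob := robust_small T ht hp0 hp1' E ⌊c / 4 * E.card⌋₊ (fun X hX hXc => by
      refine bip_robust T E A B hl hAB hE d c hc hc1 hcd hne hdAB htd X hX ?_
      exact (Nat.le_floor_iff (by positivity)).1 hXc)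
    refine hrob.trans ?_
    have hdD : d ≤ D := hdd.le.trans (le_max_left _ _)
    have htN : t ≤ N := by
      have h1 : (t : ℝ) ≤ D := by
        have : (1 - c) * d ≤ d := by nlinarith
        linarith
      have h2 : (t : ℝ) ≤ (N : ℝ) := h1.trans (Nat.le_ceil D)
      exact_mod_cast h2
    have hpp : p1 ≤ p := by
      have h1 : p1 ≤ K * Δ / d := by
        have hΔ' : (1 : ℝ) ≤ Δ := by exact_mod_cast hΔ
        have hKΔ : 1 ≤ K * Δ := by nlinarith
        rw [hp1, div_le_div_iff₀ (by linarith) hd]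
        nlinarith
      exact h1.trans hp
    have hpt : p1 ^ N ≤ p ^ t :=
      (pow_le_pow_of_le_one hp1pos.le hp1le htN).trans (pow_le_pow_left₀ hp1pos.le hpp t)
    have hnr : Fintype.card V ≤ ⌊c / 4 * E.card⌋₊ := by
      rw [Nat.le_floor_iff (by positivity)]
      have hV : (0 : ℝ) ≤ Fintype.card V := Nat.cast_nonneg _
      have h1 : c / 4 * (d / 2 * Fintype.card V) ≤ c / 4 * E.card :=
        mul_le_mul_of_nonneg_left hdE (by positivity)
      have h2 : (8 : ℝ) * Fintype.card V ≤ c * d * Fintype.card V :=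
        mul_le_mul_of_nonneg_right hcd hV
      nlinarith
    have hkr : k ≤ ⌊c / 4 * E.card⌋₊ / t := by
      rw [Nat.le_div_iff_mul_le (by omega)]
      calc k * t ≤ k * N := Nat.mul_le_mul_left k htN
        _ ≤ Fintype.card V := hnk
        _ ≤ _ := hnr
    have hq0 : 0 ≤ 1 - p ^ t := by
      have := pow_le_one₀ (n := t) hp0 hp1'
      linarith
    have hq1 : 1 - p ^ t ≤ 1 := by
      have := pow_nonneg hp0 t
      linarith
    calc (1 - p ^ t) ^ (⌊c / 4 * E.card⌋₊ / t) ≤ (1 - p ^ t) ^ k :=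
          pow_le_pow_of_le_one hq0 hq1 hkr
      _ ≤ (1 - p1 ^ N) ^ k := pow_le_pow_left₀ hq0 (by linarith) k
      _ ≤ ε := hk.le

end Pool.Agent.Lib.MP_56e41f_co
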