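import Pool.Agent.Lib.MP_56e41f_co.Defs

open Finset

namespace Pool.Agent.Lib.MP_56e41f_co

variable {α : Type*} [DecidableEq α]

theorem ind_true {P : Prop} (h : P) : ind P = 1 := by
  unfold ind
  rw [if_pos h]

theorem ind_false {P : Prop} (h : ¬ P) : ind P = 0 := by
  unfold ind
  rw [if_neg h]

theorem ind_nonneg (P : Prop) : 0 ≤ ind P := by
  unfold ind
  split_ifs <;> norm_num

theorem ind_le_one (P : Prop) : ind P ≤ 1 := by
  unfold ind
  split_ifs <;> norm_num

theorem ind_mono {P Q : Prop} (h : P → Q) : ind P ≤ ind Q := by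
  by_cases hP : P
  · rw [ind_true hP, ind_true (h hP)]
  · rw [ind_false hP]
    exact ind_nonneg Q

theorem ind_and (P Q : Prop) : ind (P ∧ Q) = ind P * ind Q := by
  by_cases hP : P
  · by_cases hQ : Q
    · rw [ind_true hP, ind_true hQ, ind_true ⟨hP, hQ⟩, mul_one]
    · rw [ind_true hP, ind_false hQ, ind_false (fun h => hQ h.2), mul_zero]
  · rw [ind_false hP, ind_false (fun h => hP h.1), zero_mul]

theorem ind_or_le (P Q : Prop) : ind (P ∨ Q) ≤ ind P + ind Q := by
  by_cases hP : P
  · rw [ind_true hP, ind_true (Or.inl hP)]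
    have := ind_nonneg Q
    linarith
  · by_cases hQ : Q
    · rw [ind_true hQ, ind_true (Or.inr hQ)]
      have := ind_nonneg P
      linarith
    · rw [ind_false hP, ind_false hQ, ind_false (fun h => h.elim hP hQ)]
      norm_num

theorem ind_exists_le {ι : Type*} (I : Finset ι) (P : ι → Prop) :
    ind (∃ i ∈ I, P i) ≤ ∑ i ∈ I, ind (P i) := by
  by_cases h : ∃ i ∈ I, P i
  · obtain ⟨i, hi, hPi⟩ := h
    rw [ind_true ⟨i, hi, hPi⟩]
    calc (1 : ℝ) = ind (P i) := (ind_true hPi).symm
      _ ≤ ∑ i ∈ I, ind (P i) :=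
        Finset.single_le_sum (f := fun i => ind (P i)) (fun j _ => ind_nonneg (P j)) hi
  · rw [ind_false h]
    exact Finset.sum_nonneg (fun i _ => ind_nonneg (P i))

theorem ex_empty (p : ℝ) (f : Finset α → ℝ) : ex p ∅ f = f ∅ := by
  unfold ex
  simp

theorem ex_mul_left (p : ℝ) (E : Finset α) (c : ℝ) (f : Finset α → ℝ) :
    ex p E (fun F => c * f F) = c * ex p E f := by
  unfold ex
  rw [Finset.mul_sum]
  refine Finset.sum_congr rfl (fun F _ => ?_)
  ring

theorem ex_const (p : ℝ) (E : Finset α) (c : ℝ) : ex p E (fun _ => c) = c := by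
  have h1 : ex p E (fun _ => (1 : ℝ)) = 1 := by
    unfold ex
    have := Finset.sum_pow_mul_eq_add_pow p (1 - p) E
    simp only [mul_one]
    rw [this]
    norm_num
  have := ex_mul_left p E c (fun _ => (1 : ℝ))
  simp only [mul_one] at this
  rw [this, h1, mul_one]

theorem ex_add (p : ℝ) (E : Finset α) (f g : Finset α → ℝ) :
    ex p E (fun F => f F + g F) = ex p E f + ex p E g := by
  unfold ex
  rw [← Finset.sum_add_distrib]
  refine Finset.sum_congr rfl (fun F _ => ?_)
  ring

theorem ex_sub (p : ℝ) (E : Finset α) (f g : Finset α → ℝ) :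
    ex p E (fun F => f F - g F) = ex p E f - ex p E g := by
  unfold ex
  rw [← Finset.sum_sub_distrib]
  refine Finset.sum_congr rfl (fun F _ => ?_)
  ring

theorem ex_sum {ι : Type*} (p : ℝ) (E : Finset α) (I : Finset ι) (f : ι → Finset α → ℝ) :
    ex p E (fun F => ∑ i ∈ I, f i F) = ∑ i ∈ I, ex p E (f i) := by
  unfold ex
  rw [Finset.sum_comm]
  refine Finset.sum_congr rfl (fun F _ => ?_)
  rw [Finset.mul_sum]

theorem ex_mono {p : ℝ} (h0 : 0 ≤ p) (h1 : p ≤ 1) (E : Finset α) {f g : Finset α → ℝ}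
    (h : ∀ F ⊆ E, f F ≤ g F) : ex p E f ≤ ex p E g := by
  unfold ex
  refine Finset.sum_le_sum (fun F hF => ?_)
  refine mul_le_mul_of_nonneg_left (h F (Finset.mem_powerset.mp hF)) ?_
  exact mul_nonneg (pow_nonneg h0 _) (pow_nonneg (by linarith) _)

theorem ex_congr (p : ℝ) (E : Finset α) {f g : Finset α → ℝ}
    (h : ∀ F ⊆ E, f F = g F) : ex p E f = ex p E g := by
  unfold ex
  refine Finset.sum_congr rfl (fun F hF => ?_)
  rw [h F (Finset.mem_powerset.mp hF)]

theorem ex_nonneg {p : ℝ} (h0 : 0 ≤ p) (h1 : p ≤ 1) (E : Finset α) {f : Finset α → ℝ}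
    (h : ∀ F ⊆ E, 0 ≤ f F) : 0 ≤ ex p E f := by
  have := ex_mono h0 h1 E (f := fun _ => 0) (g := f) h
  rwa [ex_const] at this

theorem ex_insert (p : ℝ) (E : Finset α) (e : α) (he : e ∉ E) (f : Finset α → ℝ) :
    ex p (insert e E) f = p * ex p E (fun F => f (insert e F)) + (1 - p) * ex p E f := by
  unfold ex
  rw [Finset.sum_powerset_insert he, Finset.mul_sum, Finset.mul_sum, add_comm]
  congr 1
  · refine Finset.sum_congr rfl (fun F hF => ?_)
    have hFE := Finset.mem_powerset.mp hF
    have heF : e ∉ F := fun h => he (hFE h)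
    rw [Finset.card_insert_of_notMem heF, Finset.card_insert_of_notMem he]
    have : E.card + 1 - (F.card + 1) = E.card - F.card := by omega
    rw [this, pow_succ]
    ring
  · refine Finset.sum_congr rfl (fun F hF => ?_)
    have hFE := Finset.mem_powerset.mp hF
    have hc := Finset.card_le_card hFE
    rw [Finset.card_insert_of_notMem he]
    have : E.card + 1 - F.card = (E.card - F.card) + 1 := by omega
    rw [this, pow_succ]
    ring

theorem ex_union (p : ℝ) (A B : Finset α) (h : Disjoint A B) (f : Finset α → ℝ) :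
    ex p (A ∪ B) f = ex p A (fun F => ex p B (fun F' => f (F ∪ F'))) := by
  induction A using Finset.induction_on generalizing f with
  | empty =>
    rw [Finset.empty_union, ex_empty]
    refine ex_congr p B (fun F _ => ?_)
    rw [Finset.empty_union]
  | insert a A ha ih =>
    have haB : a ∉ B := Finset.disjoint_left.mp h (Finset.mem_insert_self a A)
    have hAB : Disjoint A B := Finset.disjoint_of_subset_left (Finset.subset_insert a A) h
    rw [Finset.insert_union, ex_insert p (A ∪ B) a (by simp [ha, haB]), ex_insert p A a ha,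
      ih hAB, ih hAB]
    congr 2
    refine ex_congr p A (fun F _ => ex_congr p B (fun F' _ => ?_))
    rw [Finset.insert_union]

/-- The element `e` may be forced to be present or absent. -/
theorem ex_erase (p : ℝ) (E : Finset α) (e : α) (he : e ∈ E) (f : Finset α → ℝ) :
    ex p E f = p * ex p (E.erase e) (fun F => f (insert e F)) + (1 - p) * ex p (E.erase e) f := by
  have := ex_insert p (E.erase e) e (Finset.notMem_erase e E) f
  rwa [Finset.insert_erase he] at this

theorem pr_le_one {p : ℝ} (h0 : 0 ≤ p) (h1 : p ≤ 1) (E : Finset α) (P : Finset α → Prop) :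
    pr p E P ≤ 1 := by
  have := ex_mono h0 h1 E (f := fun F => ind (P F)) (g := fun _ => 1) (fun F _ => ind_le_one _)
  rwa [ex_const] at this

theorem pr_nonneg {p : ℝ} (h0 : 0 ≤ p) (h1 : p ≤ 1) (E : Finset α) (P : Finset α → Prop) :
    0 ≤ pr p E P :=
  ex_nonneg h0 h1 E (fun F _ => ind_nonneg _)

theorem pr_mono {p : ℝ} (h0 : 0 ≤ p) (h1 : p ≤ 1) (E : Finset α) {P Q : Finset α → Prop}
    (h : ∀ F ⊆ E, P F → Q F) : pr p E P ≤ pr p E Q :=
  ex_mono h0 h1 E (fun F hF => ind_mono (h F hF))

theorem pr_or_le {p : ℝ} (h0 : 0 ≤ p) (h1 : p ≤ 1) (E : Finset α) (P Q : Finset α → Prop) :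
    pr p E (fun F => P F ∨ Q F) ≤ pr p E P + pr p E Q := by
  unfold pr
  rw [← ex_add]
  exact ex_mono h0 h1 E (fun F _ => ind_or_le _ _)

/-- probability that a given element is absent -/
theorem pr_not_mem (p : ℝ) (E : Finset α) (e : α) (he : e ∈ E) :
    pr p E (fun F => e ∉ F) = 1 - p := by
  unfold pr
  rw [ex_erase p E e he]
  have h1 : ex p (E.erase e) (fun F => ind (e ∉ insert e F)) = 0 := by
    rw [ex_congr p (E.erase e) (g := fun _ => 0)
      (fun F _ => ind_false (fun h => h (Finset.mem_insert_self e F))), ex_const]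
  have h2 : ex p (E.erase e) (fun F => ind (e ∉ F)) = 1 := by
    rw [ex_congr p (E.erase e) (g := fun _ => 1)
      (fun F hF => ind_true (fun h => Finset.notMem_erase e E (hF h))), ex_const]
  rw [h1, h2]
  ring

/-- Chebyshev. -/
theorem pr_chebyshev {p : ℝ} (h0 : 0 ≤ p) (h1 : p ≤ 1) (E : Finset α) (X : Finset α → ℝ) (a : ℝ)
    (ha : 0 < a) : pr p E (fun F => a < X F) ≤ ex p E (fun F => X F ^ 2) / a ^ 2 := by
  have ha2 : 0 < a ^ 2 := by positivity
  rw [le_div_iff₀ ha2, mul_comm]
  unfold pr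
  rw [← ex_mul_left]
  refine ex_mono h0 h1 E (fun F _ => ?_)
  by_cases h : a < X F
  · rw [ind_true h, mul_one]
    exact pow_le_pow_left₀ ha.le h.le 2
  · rw [ind_false h, mul_zero]
    positivity

end Pool.Agent.Lib.MP_56e41f_co
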