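import Pool.Agent.Lib.MP_56e41f_co.Defs

open Finset

namespace Pool.Agent.Lib.MP_56e41f_co

variable {V : Type*} [Fintype V] [DecidableEq V] {t Δ : ℕ}

theorem half_iff (A : Finset V) (x y : V) :
    (∃ a ∈ A, ∃ b ∈ Aᶜ, s(x, y) = s(a, b)) ↔ (x ∈ A ∧ y ∉ A) ∨ (y ∈ A ∧ x ∉ A) := by
  constructor
  · rintro ⟨a, ha, b, hb, h⟩
    rw [mem_compl] at hb
    rw [Sym2.eq_iff] at h
    rcases h with ⟨rfl, rfl⟩ | ⟨rfl, rfl⟩
    · exact Or.inl ⟨ha, hb⟩
    · exact Or.inr ⟨ha, hb⟩
  · rintro (⟨h1, h2⟩ | ⟨h1, h2⟩)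
    · exact ⟨x, h1, y, mem_compl.2 h2, rfl⟩
    · exact ⟨y, h1, x, mem_compl.2 h2, Sym2.eq_swap⟩

/-- toggling one element -/
def half_tog (x : V) (A : Finset V) : Finset V := if x ∈ A then A.erase x else insert x A

theorem half_tog_mem (x y : V) (A : Finset V) (h : y ≠ x) : y ∈ half_tog x A ↔ y ∈ A := by
  unfold half_tog
  split_ifs with hx
  · rw [mem_erase]; exact ⟨fun h' => h'.2, fun h' => ⟨h, h'⟩⟩
  · rw [mem_insert]; exact ⟨fun h' => h'.resolve_left h, fun h' => Or.inr h'⟩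

theorem half_tog_self (x : V) (A : Finset V) : x ∈ half_tog x A ↔ x ∉ A := by
  unfold half_tog
  split_ifs with hx
  · simp [hx]
  · simp [hx]

theorem half_tog_tog (x : V) (A : Finset V) : half_tog x (half_tog x A) = A := by
  ext y
  by_cases h : y = x
  · subst h
    rw [half_tog_self, half_tog_self, not_not]
  · rw [half_tog_mem x y _ h, half_tog_mem x y _ h]

open Classical in
/-- every graph has a bipartite subgraph with at least half of the edges -/
theorem half_bip (E : Finset (Sym2 V)) (hl : ∀ x : V, s(x, x) ∉ E) :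
    ∃ A : Finset V, E.card ≤ 2 * (E.filter (fun e => ∃ a ∈ A, ∃ b ∈ Aᶜ, e = s(a, b))).card := by
  by_contra hcon
  push Not at hcon
  have key : ∀ e ∈ E, 2 * ∑ A : Finset V, (if ∃ a ∈ A, ∃ b ∈ Aᶜ, e = s(a, b) then 1 else 0) =
      Fintype.card (Finset V) := by
    intro e he
    induction e using Sym2.ind with
    | _ x y =>
      have hxy : x ≠ y := fun h => hl x (by rw [← h] at he; exact he)
      have h1 : ∑ A : Finset V, (if ∃ a ∈ A, ∃ b ∈ Aᶜ, s(x, y) = s(a, b) then 1 else 0) =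
          ∑ A : Finset V,
            (if ∃ a ∈ half_tog x A, ∃ b ∈ (half_tog x A)ᶜ, s(x, y) = s(a, b) then 1 else 0) := by
        refine (Function.Bijective.sum_comp (e := half_tog x) ?_ (fun A : Finset V =>
          if ∃ a ∈ A, ∃ b ∈ Aᶜ, s(x, y) = s(a, b) then 1 else 0)).symm
        exact Function.Involutive.bijective (half_tog_tog x)
      rw [two_mul]
      nth_rewrite 2 [h1]
      rw [← sum_add_distrib, ← card_univ, card_eq_sum_ones]
      refine sum_congr rfl fun A _ => ?_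
      simp only [half_iff, half_tog_mem x y A hxy.symm, half_tog_self]
      by_cases hx : x ∈ A <;> by_cases hy : y ∈ A <;> simp [hx, hy]
  have h2 : ∑ A : Finset V, 2 * (E.filter (fun e => ∃ a ∈ A, ∃ b ∈ Aᶜ, e = s(a, b))).card =
      E.card * Fintype.card (Finset V) := by
    simp only [card_filter]
    rw [← mul_sum, sum_comm, mul_sum, sum_congr rfl key, sum_const, smul_eq_mul]
  have h3 : ∑ A : Finset V, 2 * (E.filter (fun e => ∃ a ∈ A, ∃ b ∈ Aᶜ, e = s(a, b))).card <
      ∑ _A : Finset V, E.card := by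
    refine sum_lt_sum_of_nonempty univ_nonempty fun A _ => hcon A
  rw [h2, sum_const, card_univ, smul_eq_mul, mul_comm] at h3
  exact lt_irrefl _ h3

end Pool.Agent.Lib.MP_56e41f_co
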