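import Pool.Agent.Lib.MP_56e41f_co.Defs

open Finset

namespace Pool.Agent.Lib.MP_56e41f_co

variable {V : Type*} [Fintype V] [DecidableEq V] {t Δ : ℕ}

omit [Fintype V] in
theorem hostmin_card (S : Finset (Fin t)) (φ : Fin t → V) (D : Finset V) (w : ℕ)
    (hD : D.card ≤ w) (v : Fin t) (hv : v ∉ S) : (S.image φ ∪ D).card + 1 ≤ t + w := by
  have h1 : (S.image φ ∪ D).card ≤ S.card + D.card :=
    le_trans (Finset.card_union_le _ _) (Nat.add_le_add_right Finset.card_image_le _)
  have h2 : S.card < t := by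
    have h3 : S.card < (Finset.univ : Finset (Fin t)).card :=
      Finset.card_lt_card (Finset.ssubset_univ_iff.2 (fun h => hv (h ▸ Finset.mem_univ v)))
    rwa [Finset.card_univ, Fintype.card_fin] at h3
  omega

theorem host_mindeg [Nonempty V] (T : TD t Δ) (E : Finset (Sym2 V)) (w m : ℕ)
    (hl : ∀ x : V, s(x, x) ∉ E)
    (hdeg : ∀ x : V, t + w + m ≤ (univ.filter (fun z => s(x, z) ∈ E)).card) :
    Host T E (fun _ => univ) w m := by
  refine ⟨?_, ?_, hl⟩
  · intro S φ D _ _ hD v hv _
    have h1 := hostmin_card S φ D w hD v hv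
    obtain ⟨x⟩ := ‹Nonempty V›
    have h2 : (univ.filter (fun z => s(x, z) ∈ E)).card ≤ (univ : Finset V).card :=
      Finset.card_le_card (Finset.filter_subset _ _)
    have h3 := hdeg x
    rw [← Finset.card_pos, Finset.card_sdiff_of_subset (Finset.subset_univ _)]
    omega
  · intro S φ D _ _ hD v hv _ _
    have h1 := hostmin_card S φ D w hD v hv
    have h3 := hdeg (φ (T.par v))
    have h4 : (univ.filter (fun z => s(φ (T.par v), z) ∈ E)) \ (S.image φ ∪ D) ⊆
        ((univ \ (S.image φ ∪ D)).filter (fun z => s(φ (T.par v), z) ∈ E)) := by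
      intro z hz
      rw [Finset.mem_sdiff, Finset.mem_filter] at hz
      rw [Finset.mem_filter, Finset.mem_sdiff]
      exact ⟨⟨hz.1.1, hz.2⟩, hz.1.2⟩
    have h5 := Finset.card_le_card h4
    have h6 := Finset.le_card_sdiff (S.image φ ∪ D)
      (univ.filter (fun z => s(φ (T.par v), z) ∈ E))
    omega

end Pool.Agent.Lib.MP_56e41f_co
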