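import Pool.Agent.Lib.MP_56e41f_co.Tree
import Pool.Agent.Lib.MP_56e41f_co.EmbHost

open Finset

namespace Pool.Agent.Lib.MP_56e41f_co

section

variable {V : Type} [Fintype V] [DecidableEq V]

/-- degree -/
def peelDeg (E : Finset (Sym2 V)) (x : V) : ℕ := (univ.filter (fun z => s(x, z) ∈ E)).card

/-- the growing exceptional sets -/
def peelB (E : Finset (Sym2 V)) (W : Finset V) (k : ℕ) : ℕ → Finset V
  | 0 => W
  | j + 1 => peelB E W k j ∪ univ.filter (fun x =>
      peelDeg E x < k + (peelB E W k j).card ∧ ∃ y ∈ peelB E W k j, s(x, y) ∈ E)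

/-- bounds for their sizes -/
def peelb (k r : ℕ) : ℕ → ℕ
  | 0 => 2 * r
  | j + 1 => peelb k r j + peelb k r j * (k + peelb k r j)

theorem peelB_succ (E : Finset (Sym2 V)) (W : Finset V) (k j : ℕ) :
    peelB E W k (j + 1) = peelB E W k j ∪ univ.filter (fun x =>
      peelDeg E x < k + (peelB E W k j).card ∧ ∃ y ∈ peelB E W k j, s(x, y) ∈ E) := rfl

theorem peelB_deg (E : Finset (Sym2 V)) (W : Finset V) (k : ℕ)
    (hW : ∀ x ∈ W, peelDeg E x < k) (j : ℕ) :
    ∀ y ∈ peelB E W k j, peelDeg E y < k + (peelB E W k j).card := by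
  induction j with
  | zero =>
    intro y hy
    have := hW y hy
    omega
  | succ j ih =>
    intro y hy
    have hle : (peelB E W k j).card ≤ (peelB E W k (j + 1)).card := by
      rw [peelB_succ]
      exact card_le_card subset_union_left
    have hy' := hy
    rw [peelB_succ, mem_union, mem_filter] at hy'
    rcases hy' with h | h
    · have := ih y h
      omega
    · have := h.2.1
      omega

theorem peelB_card_succ (E : Finset (Sym2 V)) (W : Finset V) (k : ℕ)
    (hW : ∀ x ∈ W, peelDeg E x < k) (j : ℕ) :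
    (peelB E W k (j + 1)).card ≤ (peelB E W k j).card +
      (peelB E W k j).card * (k + (peelB E W k j).card) := by
  rw [peelB_succ]
  refine (card_union_le _ _).trans (Nat.add_le_add_left ?_ _)
  have h1 : (univ.filter (fun x =>
      peelDeg E x < k + (peelB E W k j).card ∧ ∃ y ∈ peelB E W k j, s(x, y) ∈ E)) ⊆
      (peelB E W k j).biUnion (fun y => univ.filter (fun z => s(y, z) ∈ E)) := by
    intro x hx
    rw [mem_filter] at hx
    obtain ⟨y, hy, hxy⟩ := hx.2.2
    rw [mem_biUnion]
    exact ⟨y, hy, mem_filter.2 ⟨mem_univ _, by rw [Sym2.eq_swap]; exact hxy⟩⟩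
  refine (card_le_card h1).trans (card_biUnion_le_card_mul _ _ _ fun y hy => ?_)
  exact (peelB_deg E W k hW j y hy).le

theorem peelb_mono (k r : ℕ) {i j : ℕ} (h : i ≤ j) : peelb k r i ≤ peelb k r j := by
  induction h with
  | refl => exact le_rfl
  | step _ ih => exact ih.trans (Nat.le_add_right _ _)

theorem peelB_card (E : Finset (Sym2 V)) (W : Finset V) (k k' r : ℕ) (hk : k ≤ k')
    (hW : ∀ x ∈ W, peelDeg E x < k) (hWr : W.card ≤ 2 * r) (j : ℕ) :
    (peelB E W k j).card ≤ peelb k' r j := by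
  induction j with
  | zero => exact hWr
  | succ j ih =>
    refine (peelB_card_succ E W k hW j).trans ?_
    exact Nat.add_le_add ih (Nat.mul_le_mul ih (Nat.add_le_add hk ih))

theorem peel_touch (X : Finset (Sym2 V)) :
    (univ.filter (fun x : V => ∃ z, s(x, z) ∈ X)).card ≤ 2 * X.card := by
  have h1 : (univ.filter (fun x : V => ∃ z, s(x, z) ∈ X)) ⊆
      X.biUnion (fun e => univ.filter (fun x => x ∈ e)) := by
    intro x hx
    rw [mem_filter] at hx
    obtain ⟨z, hz⟩ := hx.2
    rw [mem_biUnion]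
    exact ⟨_, hz, mem_filter.2 ⟨mem_univ _, Sym2.mem_mk_left x z⟩⟩
  refine (card_le_card h1).trans ?_
  rw [mul_comm]
  refine card_biUnion_le_card_mul _ _ _ fun e _ => ?_
  induction e using Sym2.ind with
  | _ a b =>
    have h2 : (univ.filter (fun x : V => x ∈ s(a, b))) ⊆ {a, b} := by
      intro x hx
      rw [mem_filter, Sym2.mem_iff] at hx
      rw [mem_insert, mem_singleton]
      exact hx.2
    exact (card_le_card h2).trans card_le_two

theorem peel_degX (X : Finset (Sym2 V)) (x : V) :
    (univ.filter (fun z => s(x, z) ∈ X)).card ≤ X.card := by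
  refine card_le_card_of_injOn (fun z => s(x, z)) (fun z hz => ?_) fun z _ z' _ h => ?_
  · have := (mem_filter.1 (mem_coe.1 hz)).2
    exact this
  · exact (Sym2.congr_right).1 h

/-- a vertex outside the next exceptional set has many good neighbours -/
theorem peel_good (E X : Finset (Sym2 V)) (t r : ℕ) (hX : X.card ≤ r)
    (hdeg : ∀ x : V, t ≤ peelDeg E x) (W : Finset V)
    (hW : ∀ x, (∃ z, s(x, z) ∈ X) → peelDeg E x < t + r → x ∈ W) (j : ℕ) {x : V}
    (hWB : W ⊆ peelB E W (t + r) j) (hx : x ∉ peelB E W (t + r) (j + 1)) :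
    t ≤ (univ.filter (fun z => z ∉ peelB E W (t + r) j ∧ s(x, z) ∈ E \ X)).card := by
  set B := peelB E W (t + r) j with hB
  rw [peelB_succ, ← hB, mem_union, mem_filter] at hx
  push Not at hx
  obtain ⟨hxB, hx2⟩ := hx
  have hdX : (univ.filter (fun z => s(x, z) ∈ X)).card ≤ r := (peel_degX X x).trans hX
  by_cases hd : peelDeg E x < t + r + B.card
  · -- no neighbour in `B`
    have hno : ∀ y ∈ B, s(x, y) ∉ E := hx2 (mem_univ x) hd
    by_cases htouch : ∃ z, s(x, z) ∈ X
    · have h1 : t + r ≤ peelDeg E x := by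
        by_contra hcon
        push Not at hcon
        exact hxB (hWB (hW x htouch hcon))
      have h2 : (univ.filter (fun z => s(x, z) ∈ E)) \ (univ.filter (fun z => s(x, z) ∈ X)) ⊆
          univ.filter (fun z => z ∉ B ∧ s(x, z) ∈ E \ X) := by
        intro z hz
        rw [mem_sdiff, mem_filter, mem_filter] at hz
        rw [mem_filter, mem_sdiff]
        exact ⟨mem_univ _, fun hzB => hno z hzB hz.1.2, hz.1.2, fun h => hz.2 ⟨mem_univ _, h⟩⟩
      have h3 := card_le_card h2
      have h4 := le_card_sdiff (univ.filter (fun z => s(x, z) ∈ X))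
        (univ.filter (fun z => s(x, z) ∈ E))
      unfold peelDeg at h1
      omega
    · have h2 : (univ.filter (fun z => s(x, z) ∈ E)) ⊆
          univ.filter (fun z => z ∉ B ∧ s(x, z) ∈ E \ X) := by
        intro z hz
        rw [mem_filter] at hz
        rw [mem_filter, mem_sdiff]
        exact ⟨mem_univ _, fun hzB => hno z hzB hz.2, hz.2, fun h => htouch ⟨z, h⟩⟩
      exact (hdeg x).trans (card_le_card h2)
  · push Not at hd
    have h2 : (univ.filter (fun z => s(x, z) ∈ E)) \
        ((univ.filter (fun z => s(x, z) ∈ X)) ∪ B) ⊆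
        univ.filter (fun z => z ∉ B ∧ s(x, z) ∈ E \ X) := by
      intro z hz
      rw [mem_sdiff, mem_filter, mem_union, mem_filter] at hz
      rw [mem_filter, mem_sdiff]
      exact ⟨mem_univ _, fun h => hz.2 (Or.inr h), hz.1.2, fun h => hz.2 (Or.inl ⟨mem_univ _, h⟩)⟩
    have h3 := card_le_card h2
    have h4 := le_card_sdiff ((univ.filter (fun z => s(x, z) ∈ X)) ∪ B)
      (univ.filter (fun z => s(x, z) ∈ E))
    have h5 := card_union_le (univ.filter (fun z => s(x, z) ∈ X)) B
    unfold peelDeg at hd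
    omega

theorem peelB_W (E : Finset (Sym2 V)) (W : Finset V) (k j : ℕ) : W ⊆ peelB E W k j := by
  induction j with
  | zero => exact Subset.refl _
  | succ j ih =>
    rw [peelB_succ]
    exact ih.trans subset_union_left

end

/-- Removing a bounded number of edges from a large graph of minimum degree at least `t` does not
destroy all copies of `T`. -/
theorem peel (D r : ℕ) : ∃ n0 : ℕ, ∀ (t Δ : ℕ) (T : TD t Δ) (V : Type) [Fintype V]
    [DecidableEq V] (E : Finset (Sym2 V)), t ≤ D → n0 ≤ Fintype.card V →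
    (∀ x : V, s(x, x) ∉ E) → (∀ x : V, t ≤ (univ.filter (fun z => s(x, z) ∈ E)).card) →
    ∀ X ⊆ E, X.card ≤ r → Emb T (E \ X) := by
  refine ⟨peelb (D + r) r D + D + 1, ?_⟩
  intro t Δ T V _ _ E htD hV hl hdeg X _ hXr
  have : Nonempty V := Fintype.card_pos_iff.1 (by omega)
  set W : Finset V := univ.filter (fun x => (∃ z, s(x, z) ∈ X) ∧ peelDeg E x < t + r) with hW
  have hWr : W.card ≤ 2 * r := by
    have h1 : W ⊆ univ.filter (fun x : V => ∃ z, s(x, z) ∈ X) := by
      intro x hx
      rw [hW, mem_filter] at hx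
      exact mem_filter.2 ⟨mem_univ _, hx.2.1⟩
    exact (card_le_card h1).trans ((peel_touch X).trans (Nat.mul_le_mul_left 2 hXr))
  have hWdeg : ∀ x ∈ W, peelDeg E x < t + r := fun x hx => by
    rw [hW, mem_filter] at hx
    exact hx.2.2
  set B := peelB E W (t + r) with hB
  have hcard : ∀ j ≤ D, (B j).card ≤ peelb (D + r) r D := fun j hj =>
    (peelB_card E W (t + r) (D + r) r (by omega) hWdeg hWr j).trans (peelb_mono _ _ hj)
  have hgood : ∀ j, ∀ x ∉ B (j + 1),
      t ≤ (univ.filter (fun z => z ∉ B j ∧ s(x, z) ∈ E \ X)).card := fun j x hx =>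
    peel_good E X t r hXr hdeg W (fun x h1 h2 => mem_filter.2 ⟨mem_univ _, h1, h2⟩) j
      (peelB_W E W (t + r) j) hx
  refine emb_of_host T (E \ X) (fun i => univ \ B (t - T.dep i)) 1 ?_ le_rfl
  refine ⟨?_, ?_, fun x hx => hl x (mem_sdiff.1 hx).1⟩
  · intro S φ D' _ _ hD' v hv hv0
    have hD0 : D' = ∅ := card_eq_zero.1 (Nat.le_zero.1 hD')
    subst hD0
    rw [union_empty]
    have hSt : S.card < t := by
      have h1 : S ⊂ univ := ssubset_univ_iff.2 fun h => hv (h ▸ mem_univ v)
      have := card_lt_card h1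
      rwa [card_univ, Fintype.card_fin] at this
    have h1 := card_image_le (s := S) (f := φ)
    have h2 := hcard (t - T.dep v) (by omega)
    have h3 := le_card_sdiff (B (t - T.dep v) ∪ S.image φ) (univ : Finset V)
    have h4 := card_union_le (B (t - T.dep v)) (S.image φ)
    rw [card_univ] at h3
    have h5 : 0 < (univ \ (B (t - T.dep v) ∪ S.image φ)).card := by omega
    obtain ⟨z, hz⟩ := card_pos.1 h5
    refine ⟨z, ?_⟩
    rw [mem_sdiff, mem_union, not_or] at hz
    rw [mem_sdiff, mem_sdiff]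
    exact ⟨⟨mem_univ _, hz.2.1⟩, hz.2.2⟩
  · intro S φ D' _ hφ hD' v hv hv0 hpar
    have hD0 : D' = ∅ := card_eq_zero.1 (Nat.le_zero.1 hD')
    subst hD0
    rw [union_empty]
    have hSt : S.card < t := by
      have h1 : S ⊂ univ := ssubset_univ_iff.2 fun h => hv (h ▸ mem_univ v)
      have := card_lt_card h1
      rwa [card_univ, Fintype.card_fin] at this
    have hdv : T.dep v < t := lt_of_le_of_lt (T.dep_le v) v.2
    have hdp := T.dep_par v hv0
    have hp := hφ _ hpar
    rw [mem_sdiff] at hp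
    have h0 : t - T.dep (T.par v) = (t - T.dep v) + 1 := by omega
    rw [h0] at hp
    have h1 := hgood (t - T.dep v) _ hp.2
    have h2 : (univ.filter (fun z => z ∉ B (t - T.dep v) ∧ s(φ (T.par v), z) ∈ E \ X)) \
        S.image φ ⊆ ((univ \ B (t - T.dep v)) \ S.image φ).filter
          (fun z => s(φ (T.par v), z) ∈ E \ X) := by
      intro z hz
      rw [mem_sdiff, mem_filter] at hz
      rw [mem_filter, mem_sdiff, mem_sdiff]
      exact ⟨⟨⟨mem_univ _, hz.1.2.1⟩, hz.2⟩, hz.1.2.2⟩
    have h3 := card_le_card h2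
    have h4 := le_card_sdiff (S.image φ)
      (univ.filter (fun z => z ∉ B (t - T.dep v) ∧ s(φ (T.par v), z) ∈ E \ X))
    have h5 := card_image_le (s := S) (f := φ)
    omega

end Pool.Agent.Lib.MP_56e41f_co
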