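import Pool.Agent.Lib.MP_56e41f_co.Big
import Pool.Agent.Lib.MP_56e41f_co.Peel
import Pool.Agent.Lib.MP_56e41f_co.Robust
import Pool.Agent.Lib.MP_56e41f_co.HostMin

open Finset

namespace Pool.Agent.Lib.MP_56e41f_co

/-- hosts of large minimum degree -/
theorem mindeg_case (c : ℝ) (hc : 0 < c) (hc1 : c < 1) : ∃ K0 : ℝ, 1 ≤ K0 ∧ ∀ K : ℝ, K0 ≤ K →
    ∀ ε : ℝ, 0 < ε → ∃ n0 : ℕ, ∀ (V : Type) [Fintype V] [DecidableEq V] (t Δ : ℕ) (T : TD t Δ)
      (E : Finset (Sym2 V)) (d p : ℝ), n0 ≤ Fintype.card V → 2 ≤ t → 1 ≤ Δ →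
      (∀ x : V, s(x, x) ∉ E) → 0 < d →
      (∀ x : V, (1 - c / 2) * d ≤ ((univ.filter (fun z => s(x, z) ∈ E)).card : ℝ)) →
      K * Δ / d ≤ p → p ≤ 1 → (t : ℝ) ≤ (1 - c) * d →
      pr p E (fun F => ¬ Emb T F) ≤ ε := by
  obtain ⟨K0, hK0, hbig⟩ := big c hc hc1
  refine ⟨K0, hK0, fun K hK ε hε => ?_⟩
  obtain ⟨d0, hd0⟩ := hbig K hK ε hε
  obtain ⟨D, hD1, hDd⟩ : ∃ D : ℕ, 1 ≤ D ∧ d0 ≤ (D : ℝ) :=
    ⟨max 1 ⌈d0⌉₊, le_max_left _ _, (Nat.le_ceil d0).trans (by exact_mod_cast le_max_right _ _)⟩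
  have hK1 : 1 ≤ K := hK0.trans hK
  have hDpos : (0 : ℝ) < D := by exact_mod_cast hD1
  obtain ⟨p0, hp0, hp01, hp0K⟩ : ∃ p0 : ℝ, 0 < p0 ∧ p0 ≤ 1 ∧ p0 ≤ K / D :=
    ⟨min 1 (K / D), lt_min one_pos (by positivity), min_le_left _ _, min_le_right _ _⟩
  have hpD0 : 0 < p0 ^ D := pow_pos hp0 D
  have hpD1 : p0 ^ D ≤ 1 := pow_le_one₀ hp0.le hp01
  obtain ⟨k, hk⟩ : ∃ k : ℕ, (1 - p0 ^ D) ^ k < ε :=
    exists_pow_lt_of_lt_one hε (by linarith)
  obtain ⟨n0, hn0⟩ := peel D (D * k)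
  refine ⟨max 1 n0, ?_⟩
  intro V _ _ t Δ T E d p hn ht hΔ hl hd hdeg hp hp1 htd
  have hV : Nonempty V := Fintype.card_pos_iff.mp (lt_of_lt_of_le one_pos (le_trans (le_max_left _ _) hn))
  have hcd : 0 < c * d := mul_pos hc hd
  by_cases hcase : d0 ≤ d
  · apply hd0 V t Δ T E (fun _ => univ) d p hcase hΔ hd hp hp1 htd
    apply host_mindeg T E _ _ hl
    intro x
    have h1 := Nat.floor_le (show 0 ≤ c * d / 8 by positivity)
    have h2 := Nat.floor_le (show 0 ≤ c * d / 4 by positivity)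
    have h3 := hdeg x
    have h4 : ((t + ⌊c * d / 8⌋₊ + ⌊c * d / 4⌋₊ : ℕ) : ℝ) ≤
        ((univ.filter (fun z => s(x, z) ∈ E)).card : ℝ) := by
      push_cast
      nlinarith
    exact_mod_cast h4
  · push Not at hcase
    have hdD : d ≤ D := hcase.le.trans hDd
    have htd' : (t : ℝ) ≤ d := htd.trans (by nlinarith)
    have htD : t ≤ D := by exact_mod_cast htd'.trans hdD
    have hΔr : (1 : ℝ) ≤ Δ := by exact_mod_cast hΔ
    have hp0p : p0 ≤ p := by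
      refine hp0K.trans (le_trans ?_ hp)
      rw [div_le_div_iff₀ hDpos hd]
      have hKΔ : K ≤ K * Δ := le_mul_of_one_le_right (by linarith) hΔr
      calc K * d ≤ (K * Δ) * d := mul_le_mul_of_nonneg_right hKΔ hd.le
        _ ≤ (K * Δ) * D := mul_le_mul_of_nonneg_left hdD (by positivity)
    have hp00 : 0 ≤ p := hp0.le.trans hp0p
    have hrob := robust_small T ht hp00 hp1 E (D * k) (fun X hX hXc =>
      hn0 t Δ T V E htD ((le_max_right _ _).trans hn) hl (fun x => by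
        have h3 := hdeg x
        have h4 : (t : ℝ) ≤ ((univ.filter (fun z => s(x, z) ∈ E)).card : ℝ) := by
          refine htd.trans (le_trans ?_ h3)
          nlinarith
        exact_mod_cast h4) X hX hXc)
    refine hrob.trans (le_trans ?_ hk.le)
    have hpt : p0 ^ D ≤ p ^ t := by
      calc p0 ^ D ≤ p0 ^ t := pow_le_pow_of_le_one hp0.le hp01 htD
        _ ≤ p ^ t := pow_le_pow_left₀ hp0.le hp0p t
    have hpt1 : p ^ t ≤ 1 := pow_le_one₀ hp00 hp1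
    have hkt : k ≤ D * k / t := by
      rw [Nat.le_div_iff_mul_le (by omega), mul_comm]
      exact Nat.mul_le_mul_right k htD
    calc (1 - p ^ t) ^ (D * k / t) ≤ (1 - p0 ^ D) ^ (D * k / t) :=
          pow_le_pow_left₀ (by linarith) (by linarith) _
      _ ≤ (1 - p0 ^ D) ^ k := pow_le_pow_of_le_one (by linarith) (by linarith) hkt

end Pool.Agent.Lib.MP_56e41f_co
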