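import Pool.Agent.Lib.MP_56e41f_co.Defs

open Finset

namespace Pool.Agent.Lib.MP_56e41f_co

variable {t Δ : ℕ} (T : TD t Δ)

theorem treeExists_pred {W : Type*} {T : SimpleGraph W} (hT : T.Connected) (r x : W)
    (hx : x ≠ r) : ∃ y, T.Adj y x ∧ T.dist r y + 1 = T.dist r x := by
  obtain ⟨p, hp⟩ := hT.exists_walk_length_eq_dist x r
  cases p with
  | nil => exact absurd rfl hx
  | cons h q =>
    rename_i y
    refine ⟨y, h.symm, ?_⟩
    rw [SimpleGraph.Walk.length_cons] at hp
    have h1 : T.dist r y ≤ q.length := by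
      rw [SimpleGraph.dist_comm]
      exact SimpleGraph.dist_le q
    have h2 : T.dist r x ≤ T.dist r y + 1 := by
      have h3 := hT.dist_triangle (u := r) (v := y) (w := x)
      have h4 : T.dist y x = 1 := SimpleGraph.dist_eq_one_iff_adj.2 h.symm
      omega
    rw [SimpleGraph.dist_comm] at hp
    omega

/-- Every finite tree can be listed in order of depth. -/
theorem exists_TD {W : Type*} [Fintype W] [DecidableEq W] (T : SimpleGraph W) (hT : T.IsTree)
    (Δ : ℕ) (hΔ : ∀ v : W, (T.neighborSet v).ncard ≤ Δ) :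
    ∃ (D : TD (Fintype.card W) Δ) (e : Fin (Fintype.card W) ≃ W),
      (∀ i, i.val ≠ 0 → T.Adj (e (D.par i)) (e i)) ∧
      (∀ x y, T.Adj x y → ∃ i, i.val ≠ 0 ∧ ((x = e i ∧ y = e (D.par i)) ∨
        (y = e i ∧ x = e (D.par i)))) := by
  classical
  have hconn : T.Connected := hT.1
  obtain ⟨r⟩ := hconn.nonempty
  -- the parent
  choose! p hp1 hp2 using fun x (hx : x ≠ r) => treeExists_pred hconn r x hx
  -- the order
  set e0 := (Fintype.equivFin W).symm with he0
  set σ := Tuple.sort (fun i => T.dist r (e0 i)) with hσ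
  have hmono : Monotone ((fun i => T.dist r (e0 i)) ∘ σ) := Tuple.monotone_sort _
  set e : Fin (Fintype.card W) ≃ W := (σ : Fin (Fintype.card W) ≃ Fin (Fintype.card W)).trans e0
    with he
  have hmono' : ∀ i j, i ≤ j → T.dist r (e i) ≤ T.dist r (e j) := fun i j hij => hmono hij
  have hpos : 0 < Fintype.card W := Fintype.card_pos_iff.2 ⟨r⟩
  have hzero : ∀ i : Fin (Fintype.card W), T.dist r (e i) = 0 ↔ i.val = 0 := by
    have h0 : ∀ i : Fin (Fintype.card W), i.val = 0 → T.dist r (e i) = 0 := by
      intro i hi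
      have h1 : i ≤ e.symm r := by
        rw [Fin.le_def, hi]
        exact Nat.zero_le _
      have h2 := hmono' _ _ h1
      rw [Equiv.apply_symm_apply, SimpleGraph.dist_self] at h2
      omega
    intro i
    constructor
    · intro h
      have h1 : r = e i := hconn.dist_eq_zero_iff.1 h
      have h2 : r = e ⟨0, hpos⟩ := hconn.dist_eq_zero_iff.1 (h0 ⟨0, hpos⟩ rfl)
      have h3 : e i = e ⟨0, hpos⟩ := by rw [← h1, ← h2]
      rw [e.injective h3]
    · exact h0 i
  have hne : ∀ i : Fin (Fintype.card W), i.val ≠ 0 → e i ≠ r := by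
    intro i hi h
    apply hi
    rw [← hzero, h, SimpleGraph.dist_self]
  let par : Fin (Fintype.card W) → Fin (Fintype.card W) := fun i =>
    if i.val = 0 then i else e.symm (p (e i))
  have hpar : ∀ i : Fin (Fintype.card W), i.val ≠ 0 → e (par i) = p (e i) := by
    intro i hi
    simp only [par, if_neg hi, Equiv.apply_symm_apply]
  have hdeg : ∀ u : Fin (Fintype.card W),
      (univ.filter (fun v : Fin (Fintype.card W) => v.val ≠ 0 ∧ par v = u)).card ≤ Δ := by
    intro u
    refine le_trans ?_ (hΔ (e u))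
    rw [Set.ncard_eq_toFinset_card']
    apply Finset.card_le_card_of_injOn e
    · intro v hv
      rw [Finset.mem_coe, Finset.mem_filter] at hv
      rw [Finset.mem_coe, Set.mem_toFinset, SimpleGraph.mem_neighborSet]
      rw [← hv.2.2, hpar v hv.2.1]
      exact hp1 _ (hne v hv.2.1)
    · exact e.injective.injOn
  refine ⟨⟨par, fun i => T.dist r (e i), hmono', hzero, ?_, ?_, hdeg⟩, e, ?_, ?_⟩
  · intro i hi
    simp only [hpar i hi]
    exact hp2 _ (hne i hi)
  · intro i hi
    simp only [par, if_pos hi]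
  · intro i hi
    have := hp1 _ (hne i hi)
    rw [← hpar i hi] at this
    exact this
  · -- every edge joins a vertex to its parent
    have hsurj : ∀ x y, T.Adj x y → (x ≠ r ∧ y = p x) ∨ (y ≠ r ∧ x = p y) := by
      let g : {x : W // x ≠ r} → T.edgeSet := fun x => ⟨s(x.1, p x.1), (hp1 x.1 x.2).symm⟩
      have hinj : Function.Injective g := by
        intro x y hxy
        have h1 : s(x.1, p x.1) = s(y.1, p y.1) := congrArg Subtype.val hxy
        rw [Sym2.eq_iff] at h1
        rcases h1 with h1 | h1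
        · exact Subtype.ext h1.1
        · exfalso
          have h2 := hp2 x.1 x.2
          have h3 := hp2 y.1 y.2
          rw [h1.2] at h2
          rw [← h1.1] at h3
          omega
      have hcard : Fintype.card {x : W // x ≠ r} = Fintype.card T.edgeSet := by
        have h1 := hT.card_edgeFinset
        rw [SimpleGraph.edgeFinset, Set.toFinset_card] at h1
        rw [Fintype.card_subtype_compl, Fintype.card_subtype_eq]
        omega
      have hbij := (Fintype.bijective_iff_injective_and_card g).2 ⟨hinj, hcard⟩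
      intro x y hxy
      obtain ⟨z, hz⟩ := hbij.2 ⟨s(x, y), hxy⟩
      have h1 : s(z.1, p z.1) = s(x, y) := congrArg Subtype.val hz
      rw [Sym2.eq_iff] at h1
      rcases h1 with h1 | h1
      · left
        rw [← h1.1]
        exact ⟨z.2, h1.2.symm⟩
      · right
        rw [← h1.1]
        exact ⟨z.2, h1.2.symm⟩
    have key : ∀ x, x ≠ r → ∃ i : Fin (Fintype.card W), i.val ≠ 0 ∧ x = e i ∧ p x = e (par i) := by
      intro x hx
      have h0 : (e.symm x).val ≠ 0 := by
        rw [Ne, ← hzero, Equiv.apply_symm_apply]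
        intro h
        exact hx (hconn.dist_eq_zero_iff.1 h).symm
      refine ⟨e.symm x, h0, by simp, ?_⟩
      rw [hpar _ h0, Equiv.apply_symm_apply]
    intro x y hxy
    rcases hsurj x y hxy with ⟨h1, h2⟩ | ⟨h1, h2⟩
    · obtain ⟨i, hi, h3, h4⟩ := key x h1
      exact ⟨i, hi, Or.inl ⟨h3, by rw [h2, h4]⟩⟩
    · obtain ⟨i, hi, h3, h4⟩ := key y h1
      exact ⟨i, hi, Or.inr ⟨h3, by rw [h2, h4]⟩⟩

end Pool.Agent.Lib.MP_56e41f_co
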