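import Pool.Agent.Lib.MP_56e41f_co.Perc
import Pool.Agent.Lib.MP_56e41f_co.Ex
import Pool.Agent.Lib.MP_56e41f_co.TreeExists
import Pool.Agent.Lib.MP_56e41f_co.BipCase
import Pool.Agent.Lib.MP_56e41f_co.MinCase
import Pool.Agent.Lib.MP_56e41f_co.Half

/-!
# From rooted tree data to graphs
-/

open Finset

namespace Pool.Agent.Lib.MP_56e41f_co

open Classical in
theorem percProb_eq {V : Type} [Fintype V] (G : SimpleGraph V) (p : ℝ)
    (P : SimpleGraph V → Prop) :
    percProb G p P = pr p G.edgeFinset (fun F => P (SimpleGraph.fromEdgeSet (F : Set (Sym2 V)))) := by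
  unfold percProb pr ex ind
  refine sum_congr rfl (fun F _ => ?_)
  congr 1

theorem contained_of_emb {V W : Type} [Fintype W] [DecidableEq W]
    (T : SimpleGraph W) {Δ : ℕ} (D : TD (Fintype.card W) Δ) (e : Fin (Fintype.card W) ≃ W)
    (he : ∀ x y, T.Adj x y → ∃ i, i.val ≠ 0 ∧ ((x = e i ∧ y = e (D.par i)) ∨
        (y = e i ∧ x = e (D.par i)))) (F : Finset (Sym2 V)) (h : Emb D F) :
    T.IsContained (SimpleGraph.fromEdgeSet (F : Set (Sym2 V))) := by
  obtain ⟨φ, hφ, hE⟩ := h
  refine ⟨⟨⟨fun x => φ (e.symm x), ?_⟩, ?_⟩⟩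
  · intro x y hxy
    rw [SimpleGraph.fromEdgeSet_adj]
    have hne : φ (e.symm x) ≠ φ (e.symm y) := by
      intro hh
      have := e.symm.injective (hφ hh)
      exact hxy.ne this
    refine ⟨?_, hne⟩
    obtain ⟨i, hi, ⟨rfl, rfl⟩ | ⟨rfl, rfl⟩⟩ := he x y hxy
    · have := hE i hi
      rw [Equiv.symm_apply_apply, Equiv.symm_apply_apply, Sym2.eq_swap]
      exact_mod_cast this
    · have := hE i hi
      rw [Equiv.symm_apply_apply, Equiv.symm_apply_apply]
      exact_mod_cast this
  · intro x y hxy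
    exact e.symm.injective (hφ hxy)

open Classical in
/-- It is enough to bound the probability that there is no embedding. -/
theorem percProb_ge {V W : Type} [Fintype V] [Fintype W] (G : SimpleGraph V)
    (T : SimpleGraph W) {Δ : ℕ} (D : TD (Fintype.card W) Δ) (e : Fin (Fintype.card W) ≃ W)
    (he : ∀ x y, T.Adj x y → ∃ i, i.val ≠ 0 ∧ ((x = e i ∧ y = e (D.par i)) ∨
        (y = e i ∧ x = e (D.par i)))) {p ε : ℝ} (h0 : 0 ≤ p) (h1 : p ≤ 1)
    (h : pr p G.edgeFinset (fun F => ¬ Emb D F) ≤ ε) :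
    1 - ε ≤ percProb G p (fun H => T.IsContained H) := by
  rw [percProb_eq]
  have h2 : pr p G.edgeFinset (fun F => ¬ Emb D F)
      + pr p G.edgeFinset (fun F => T.IsContained (SimpleGraph.fromEdgeSet (F : Set (Sym2 V))))
      ≥ 1 := by
    unfold pr
    rw [← ex_add]
    have := ex_mono h0 h1 G.edgeFinset (f := fun _ => (1 : ℝ))
      (g := fun F => ind (¬ Emb D F) +
        ind (T.IsContained (SimpleGraph.fromEdgeSet (F : Set (Sym2 V))))) (by
        intro F _
        by_cases hF : Emb D F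
        · rw [ind_true (contained_of_emb T D e he F hF)]
          have := ind_nonneg (¬ Emb D F)
          linarith
        · rw [ind_true hF]
          have := ind_nonneg (T.IsContained (SimpleGraph.fromEdgeSet (F : Set (Sym2 V))))
          linarith)
    rwa [ex_const] at this
  linarith

open Classical in
theorem percProb_one {V W : Type} [Fintype V] [Fintype W] [Nonempty V] (G : SimpleGraph V)
    (T : SimpleGraph W) (hW : Fintype.card W = 1) {p ε : ℝ} (hε : 0 < ε) :
    1 - ε ≤ percProb G p (fun H => T.IsContained H) := by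
  obtain ⟨z⟩ := ‹Nonempty V›
  have hsub : Subsingleton W := Fintype.card_le_one_iff_subsingleton.mp hW.le
  have hc : ∀ H : SimpleGraph V, T.IsContained H := by
    intro H
    refine ⟨⟨⟨fun _ => z, ?_⟩, ?_⟩⟩
    · intro x y hxy
      exact absurd (Subsingleton.elim x y) hxy.ne
    · intro x y _
      exact Subsingleton.elim x y
  rw [percProb_eq]
  unfold pr
  rw [ex_congr p G.edgeFinset (g := fun _ => (1 : ℝ)) (fun F _ => ind_true (hc _)), ex_const]
  linarith

/-- A tree with at least two vertices has a vertex of degree at least one. -/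
theorem one_le_of_tree {W : Type} [Fintype W] (T : SimpleGraph W) (hT : T.IsTree)
    (hW : 2 ≤ Fintype.card W) {Δ : ℕ} (hΔ : ∀ v : W, (T.neighborSet v).ncard ≤ Δ) : 1 ≤ Δ := by
  have hnt : Nontrivial W := Fintype.one_lt_card_iff_nontrivial.mp (by omega)
  obtain ⟨x, y, hxy⟩ := exists_pair_ne W
  obtain ⟨q⟩ := hT.1.preconnected x y
  cases q with
  | nil => exact absurd rfl hxy
  | @cons _ z _ h q' =>
    have h1 : z ∈ T.neighborSet x := h
    have h2 : 0 < (T.neighborSet x).ncard := by
      rw [Set.ncard_pos (Set.toFinite _)]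
      exact ⟨z, h1⟩
    exact le_trans h2 (hΔ x)

open Classical in
/-- degrees as counts of edges -/
theorem count_eq_degree {V : Type} [Fintype V] (G : SimpleGraph V) (x : V) :
    (univ.filter (fun z => s(x, z) ∈ G.edgeFinset)).card = (G.neighborSet x).ncard := by
  rw [Set.ncard_eq_toFinset_card']
  congr 1
  ext z
  simp

/-- Fewer edges make it harder to embed. -/
theorem pr_not_emb_mono {V : Type} [DecidableEq V] {t Δ : ℕ} (T : TD t Δ) {p : ℝ} (h0 : 0 ≤ p)
    (h1 : p ≤ 1) (E E' : Finset (Sym2 V)) (h : E' ⊆ E) :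
    pr p E (fun F => ¬ Emb T F) ≤ pr p E' (fun F => ¬ Emb T F) := by
  have hE : E = E' ∪ (E \ E') := by
    rw [union_sdiff_of_subset h]
  have hd : Disjoint E' (E \ E') := disjoint_sdiff
  unfold pr
  rw [hE, ex_union p E' (E \ E') hd]
  refine ex_mono h0 h1 E' (fun F _ => ?_)
  have := ex_mono h0 h1 (E \ E') (f := fun F' => ind (¬ Emb T (F ∪ F')))
    (g := fun _ => ind (¬ Emb T F)) (by
      intro F' _
      refine ind_mono (fun hh hF => hh ?_)
      obtain ⟨φ, h2, h3⟩ := hF
      exact ⟨φ, h2, fun i hi => mem_union_left _ (h3 i hi)⟩)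
  rwa [ex_const] at this

end Pool.Agent.Lib.MP_56e41f_co
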