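import Pool.Agent.Lib.MP_56e41f_co.Dep

open Finset

namespace Pool.Agent.Lib.MP_56e41f_co

variable {V : Type*} [Fintype V] [DecidableEq V] {t Δ : ℕ}

theorem copies_ind_prod {ι : Type*} [DecidableEq ι] (I : Finset ι) (P : ι → Prop) :
    ind (∀ i ∈ I, P i) = ∏ i ∈ I, ind (P i) := by
  by_cases h : ∀ i ∈ I, P i
  · rw [ind_true h, prod_eq_one fun i hi => ind_true (h i hi)]
  · rw [ind_false h]
    push Not at h
    obtain ⟨i, hi, hP⟩ := h
    exact (prod_eq_zero hi (ind_false hP)).symm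

theorem copies_not (P : Prop) : ind (¬ P) = 1 - ind P := by
  by_cases h : P
  · rw [ind_true h, ind_false (not_not.2 h), sub_self]
  · rw [ind_false h, ind_true h, sub_zero]

theorem copies_pr_subset {α : Type*} [DecidableEq α] (p : ℝ) (E : Finset α) (x : Finset α)
    (hx : x ⊆ E) : pr p E (fun F => x ⊆ F) = p ^ x.card := by
  have h1 : (fun F : Finset α => ind (x ⊆ F)) = fun F => ∏ e ∈ x, ind (e ∈ F) := by
    funext F
    rw [← copies_ind_prod x (fun e => e ∈ F)]
    rfl
  unfold pr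
  rw [h1, ex_prod p E x (fun e => {e}) (fun e F => ind (e ∈ F))]
  · rw [prod_congr rfl (g := fun _ => p), prod_const]
    intro e he
    have h2 := pr_not_mem p E e (hx he)
    unfold pr at h2
    have h3 : (fun F : Finset α => ind (e ∉ F)) = fun F => 1 - ind (e ∈ F) := by
      funext F
      exact copies_not _
    rw [h3, ex_sub p E (fun _ => 1) (fun F => ind (e ∈ F)), ex_const] at h2
    linarith
  · intro e _ F F' h
    have h2 := h e (Set.mem_singleton e)
    simp only [h2]
  · intro e _ e' _ hee'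
    exact Set.disjoint_singleton.2 hee'

theorem pr_disjoint_copies {α : Type*} [DecidableEq α] {p : ℝ} (h0 : 0 ≤ p) (h1 : p ≤ 1)
    (E : Finset α) (X : Finset (Finset α)) (hX : ∀ x ∈ X, x ⊆ E)
    (hd : ∀ x ∈ X, ∀ y ∈ X, x ≠ y → Disjoint x y) (k : ℕ) (hk : ∀ x ∈ X, x.card ≤ k) :
    pr p E (fun F => ∀ x ∈ X, ¬ x ⊆ F) ≤ (1 - p ^ k) ^ X.card := by
  have h2 : (fun F : Finset α => ind (∀ x ∈ X, ¬ x ⊆ F)) = fun F => ∏ x ∈ X, ind (¬ x ⊆ F) := by
    funext F
    exact copies_ind_prod X (fun x => ¬ x ⊆ F)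
  unfold pr
  rw [h2, ex_prod p E X (fun x => (x : Set α)) (fun x F => ind (¬ x ⊆ F))]
  · rw [← prod_const]
    refine prod_le_prod (fun x _ => ex_nonneg h0 h1 E fun F _ => ind_nonneg _) fun x hx => ?_
    have h3 : (fun F : Finset α => ind (¬ x ⊆ F)) = fun F => 1 - ind (x ⊆ F) := by
      funext F
      exact copies_not _
    rw [h3, ex_sub p E (fun _ => 1) (fun F => ind (x ⊆ F)), ex_const]
    have h4 := copies_pr_subset p E x (hX x hx)
    unfold pr at h4
    rw [h4]
    have h5 := pow_le_pow_of_le_one h0 h1 (hk x hx)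
    linarith
  · intro x _ F F' h
    have h3 : x ⊆ F ↔ x ⊆ F' := by
      constructor
      · intro hs e he
        exact (h e (mem_coe.2 he)).1 (hs he)
      · intro hs e he
        exact (h e (mem_coe.2 he)).2 (hs he)
    simp only [h3]
  · intro x hx y hy hxy
    exact disjoint_coe.2 (hd x hx y hy hxy)

end Pool.Agent.Lib.MP_56e41f_co
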