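import Pool.Agent.Lib.MP_56e41f_co.Mach
import Pool.Agent.Lib.MP_56e41f_co.Tree

open Finset

namespace Pool.Agent.Lib.MP_56e41f_co

variable {t Δ : ℕ} (T : TD t Δ) (B w : ℕ)

theorem Str_init : Str T B (init t) := by
  refine ⟨?_, ?_, ?_, ?_, ?_, ?_, ?_, ?_, ?_, ?_, ?_, ?_⟩ <;> simp [init, St.alive]

/-- If the root is missing then everything is missing. -/
theorem StrA_all_none {s : St t} (h : Str T B s) {v : Fin t} (hv : v.val = 0)
    (hn : s.f v = none) (i : Fin t) : s.f i = none := by
  induction hk : i.val using Nat.strong_induction_on generalizing i with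
  | _ k ih =>
    by_cases hi : i.val = 0
    · have : i = v := Fin.ext (hi.trans hv.symm)
      rw [this, hn]
    · cases hx : s.f i with
      | none => rfl
      | some x =>
        obtain ⟨y, j, hy, -⟩ := h.par i x hx hi
        have hlt : (T.par i).val < k := by
          rw [← hk]; exact T.par_lt i hi
        rw [ih _ hlt (T.par i) rfl] at hy
        cases hy

/-- The three outcomes of a step preserve the structural invariants (used for `val`). -/
theorem Str_root (s : St t) (v : Fin t) (h : Str T B s) (ha : act T B w s = Act.root v) :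
    Str T B (placeRoot s v) := by
  obtain ⟨hn, -, hv⟩ := act_root T B w ha
  have hvn := (nxt_eq_some hn).1
  have hall := StrA_all_none T B h hv hvn
  have hf : ∀ i x, (placeRoot s v).f i = some x → i = v ∧ x = ⟨[s.roots], 0, 0⟩ := by
    intro i x hx
    by_cases hi : i = v
    · subst hi
      simp only [placeRoot, Function.update_self, Option.some.injEq] at hx
      exact ⟨rfl, hx.symm⟩
    · simp only [placeRoot, Function.update_of_ne hi, bump, hall i, Option.map_none] at hx
      cases hx
  have htch : (placeRoot s v).tch = [s.roots] :: s.tch := rfl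
  have hroots : (placeRoot s v).roots = s.roots + 1 := rfl
  have hdep : T.dep v = 0 := (T.dep_zero v).2 hv
  have hnot : [s.roots] ∉ s.tch := fun hm => lt_irrefl _ (h.rootlab _ hm)
  have ht : 1 ≤ t := lt_of_le_of_lt (Nat.zero_le _) v.isLt
  refine ⟨?_, ?_, ?_, ?_, ?_, ?_, ?_, ?_, ?_, ?_, ?_, ?_⟩
  · intro i x hx
    obtain ⟨rfl, rfl⟩ := hf i x hx
    rw [htch, hdep]
    simp
  · intro i x hx hi
    obtain ⟨rfl, rfl⟩ := hf i x hx
    exact absurd hv hi
  · intro i i' x x' hx hx' _
    rw [(hf i x hx).1, (hf i' x' hx').1]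
  · rw [htch]; exact List.nodup_cons.2 ⟨hnot, h.nodup⟩
  · rw [htch]
    intro hm
    rcases List.mem_cons.1 hm with h1 | h1
    · cases h1
    · exact h.nonnil h1
  · intro r hr
    rw [htch] at hr
    rw [hroots]
    rcases List.mem_cons.1 hr with h1 | h1
    · have : r = s.roots := by simpa using h1
      omega
    · have := h.rootlab r h1
      omega
  · intro j a hm hane
    rw [htch] at hm ⊢
    rcases List.mem_cons.1 hm with h1 | h1
    · have : a = [] := by
        have := List.cons.inj h1
        exact this.2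
      exact absurd this hane
    · exact List.mem_cons_of_mem _ (h.closed j a h1 hane)
  · intro i x j hx hm
    obtain ⟨rfl, rfl⟩ := hf i x hx
    rw [htch] at hm
    rcases List.mem_cons.1 hm with h1 | h1
    · have := congrArg List.length h1
      simp at this
    · exact absurd (h.closed j _ h1 (by simp)) hnot
  · intro j a hm hane
    rw [htch] at hm
    rcases List.mem_cons.1 hm with h1 | h1
    · exact absurd (List.cons.inj h1).2 hane
    · exact h.slotB j a h1 hane
  · intro a hm
    rw [htch] at hm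
    rcases List.mem_cons.1 hm with h1 | h1
    · rw [h1]; simpa using ht
    · exact h.len a h1
  · rw [alive_placeRoot s v hvn, htch]
    simpa using h.alive_le
  · rw [htch, hroots]
    simpa using h.rootsle

theorem Str_fail (s : St t) (v u : Fin t) (x : Nd) (h : Str T B s)
    (ha : act T B w s = Act.ask v u x) : Str T B (failSt s u x) := by
  obtain ⟨-, -, hv, hu, hux, hask⟩ := act_ask T B w ha
  have hf : ∀ i x', (failSt s u x).f i = some x' → ∃ y, s.f i = some y ∧ x'.lab = y.lab ∧
      y.asks ≤ x'.asks ∧ x'.asks ≤ B ∧ x'.lev = y.lev := by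
    intro i x' hx'
    by_cases hi : i = u
    · subst hi
      simp only [failSt, Function.update_self, Option.some.injEq] at hx'
      subst hx'
      exact ⟨x, hux, rfl, Nat.le_succ _, hask, rfl⟩
    · simp only [failSt, Function.update_of_ne hi] at hx'
      exact ⟨x', hx', rfl, le_rfl, (h.lab i x' hx').2.2.1, rfl⟩
  have hf' : ∀ i y, s.f i = some y → ∃ x', (failSt s u x).f i = some x' ∧ x'.lab = y.lab ∧
      y.asks ≤ x'.asks ∧ x'.lev = y.lev := by
    intro i y hy
    by_cases hi : i = u
    · subst hi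
      rw [hux] at hy
      cases hy
      exact ⟨⟨x.lab, x.asks + 1, x.lev⟩, by simp [failSt], rfl, Nat.le_succ _, rfl⟩
    · exact ⟨y, by simp only [failSt, Function.update_of_ne hi]; exact hy, rfl, le_rfl, rfl⟩
  have htch : (failSt s u x).tch = s.tch := rfl
  have hroots : (failSt s u x).roots = s.roots := rfl
  refine ⟨?_, ?_, ?_, ?_, ?_, ?_, ?_, ?_, ?_, ?_, ?_, ?_⟩
  · intro i x' hx'
    obtain ⟨y, hy, h1, h2, h3, h4⟩ := hf i x' hx'
    obtain ⟨g1, g2, g3, g4, g5⟩ := h.lab i y hy
    rw [htch, h1, h4]
    exact ⟨g1, g2, h3, g4, g5⟩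
  · intro i x' hx' hi
    obtain ⟨y, hy, h1, h2, h3, h4⟩ := hf i x' hx'
    obtain ⟨z, j, hz, k1, k2, k3⟩ := h.par i y hy hi
    obtain ⟨z', hz', m1, m2, m3⟩ := hf' _ z hz
    refine ⟨z', j, hz', ?_, ?_, ?_⟩
    · rw [h1, m1, k1]
    · omega
    · rw [h4, m3]; exact k3
  · intro i i' x' x'' hx' hx'' he
    obtain ⟨y, hy, h1, -⟩ := hf i x' hx'
    obtain ⟨y', hy', h1', -⟩ := hf i' x'' hx''
    exact h.inj i i' y y' hy hy' (by rw [← h1, ← h1', he])
  · exact h.nodup
  · exact h.nonnil
  · exact h.rootlab
  · exact h.closed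
  · intro i x' j hx' hm
    obtain ⟨y, hy, h1, h2, -⟩ := hf i x' hx'
    rw [htch, h1] at hm
    exact lt_of_lt_of_le (h.slot i y j hy hm) h2
  · exact h.slotB
  · exact h.len
  · rw [alive_failSt s u x hux]; exact h.alive_le
  · exact h.rootsle

theorem Str_rem (s : St t) (u : Fin t) (h : Str T B s) (ha : act T B w s = Act.rem u) :
    Str T B (remSt T s u) := by
  have hf : ∀ i x, (remSt T s u).f i = some x → ¬ T.desc u i ∧ s.f i = some x := by
    intro i x hx
    by_cases hd : T.desc u i
    · simp [remSt, hd] at hx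
    · refine ⟨hd, ?_⟩
      simpa [remSt, hd] using hx
  have hf' : ∀ i x, s.f i = some x → ¬ T.desc u i → (remSt T s u).f i = some x := by
    intro i x hx hd
    simpa [remSt, hd] using hx
  refine ⟨?_, ?_, ?_, ?_, ?_, ?_, ?_, ?_, ?_, ?_, ?_, ?_⟩
  · intro i x hx
    exact h.lab i x (hf i x hx).2
  · intro i x hx hi
    obtain ⟨hd, hx⟩ := hf i x hx
    obtain ⟨z, j, hz, k⟩ := h.par i x hx hi
    exact ⟨z, j, hf' _ z hz (fun hd' => hd (T.desc_of_par hd')), k⟩
  · intro i i' x x' hx hx' he
    exact h.inj i i' x x' (hf i x hx).2 (hf i' x' hx').2 he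
  · exact h.nodup
  · exact h.nonnil
  · exact h.rootlab
  · exact h.closed
  · intro i x j hx hm
    exact h.slot i x j (hf i x hx).2 hm
  · exact h.slotB
  · exact h.len
  · have := alive_remSt T s u
    have h2 := h.alive_le
    have h3 : (remSt T s u).tch = s.tch := rfl
    rw [h3]
    omega
  · exact h.rootsle

end Pool.Agent.Lib.MP_56e41f_co
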