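import Pool.Agent.Lib.MP_56e41f_co.LedChain
import Pool.Agent.Lib.MP_56e41f_co.StrA

open Finset

namespace Pool.Agent.Lib.MP_56e41f_co

variable {t Δ : ℕ} (T : TD t Δ) (B w : ℕ)

theorem LedRem_bad_of_chn (F : Finset Lab) (M : ℕ) (a : Lab) (h : chn Δ F M a) :
    bad Δ F M a := by
  rcases M with _ | _ | M
  · exact h
  · exact h
  · exact h.1

theorem LedRem_f {s : St t} {u i : Fin t} {x : Nd} (h : (remSt T s u).f i = some x) :
    ¬ T.desc u i ∧ s.f i = some x := by
  simp only [remSt] at h
  split_ifs at h with h1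
  exact ⟨h1, h⟩

theorem LedRem_f' {s : St t} {u i : Fin t} {x : Nd} (h1 : ¬ T.desc u i) (h : s.f i = some x) :
    (remSt T s u).f i = some x := by
  simp only [remSt]
  rw [if_neg h1]
  exact h

/-- a vertex below `u` whose parent is not below `u` is `u` itself -/
theorem LedRem_eq {u i' : Fin t} (h : T.desc u i') (h' : ¬ T.desc u (T.par i')) : i' = u := by
  by_contra hne
  exact h' (T.desc_par h hne).2

theorem Led_rem (F : Finset Lab) (s : St t) (u : Fin t) (h : Str T (3 * Δ) s) (hl : Led T F s)
    (ha : act T (3 * Δ) w s = Act.rem u) : Led T F (remSt T s u) := by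
  classical
  obtain ⟨v, x, hnxt, hdead, hv0, huv, hx, hask⟩ := act_rem T (3 * Δ) w ha
  have hchn := Led_chain T w F s u x h hl ha hx
  have hbad := LedRem_bad_of_chn F _ _ hchn
  obtain ⟨hxlab, hxlen, hxask, hxdep, hxlev⟩ := h.lab u x hx
  refine ⟨?_, ?_, ?_, ?_⟩
  · -- slots
    intro i y hy j hj
    obtain ⟨hiu, hsi⟩ := LedRem_f T hy
    rcases hl.slots i y hsi j hj with h1 | ⟨i', x', hi'0, hpar, hx', hlab⟩ | h1
    · exact Or.inl h1
    · by_cases hd : T.desc u i'
      · right
        right
        have hi'u : i' = u := LedRem_eq T hd (by rw [hpar]; exact hiu)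
        subst hi'u
        have hxx : x' = x := by
          rw [hx'] at hx
          exact Option.some.inj hx
        subst hxx
        obtain ⟨y', k, hy', hlab', hk, hle⟩ := h.par i' x' hx' hi'0
        rw [hpar, hsi] at hy'
        have hyy : y = y' := Option.some.inj hy'
        subst hyy
        have hdp := T.dep_par i' hi'0
        rw [hpar] at hdp
        refine ⟨by omega, ?_⟩
        rw [← hlab]
        exact bad_mono F (by omega) _ hbad
      · exact Or.inr (Or.inl ⟨i', x', hi'0, hpar, LedRem_f' T hd hx', hlab⟩)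
    · exact Or.inr (Or.inr h1)
  · -- chain
    intro i y hy hlev
    obtain ⟨hiu, hsi⟩ := LedRem_f T hy
    rcases hl.chain i y hsi hlev with h1 | h1
    · exact Or.inl h1
    · by_cases hch : u.val ≠ 0 ∧ T.par u = i
      · left
        obtain ⟨hu0, hpar⟩ := hch
        obtain ⟨y', k, hy', hlab', hk, hle⟩ := h.par u x hx hu0
        rw [hpar, hsi] at hy'
        have hyy : y = y' := Option.some.inj hy'
        subst hyy
        obtain ⟨z, hz, hzlev⟩ := h1 u hu0 hpar
        have hzx : z = x := by
          rw [hz] at hx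
          exact Option.some.inj hx
        subst hzx
        have hdp := T.dep_par u hu0
        rw [hpar] at hdp
        refine ⟨k, lt_of_lt_of_le hk (h.lab i y hsi).2.2.1, ?_⟩
        rw [← hlab', ← hzlev]
        have he : z.lev - T.dep i - 1 = z.lev - T.dep u := by omega
        rw [he]
        exact hchn
      · right
        intro c hc0 hcpar
        obtain ⟨z, hz, hzlev⟩ := h1 c hc0 hcpar
        refine ⟨z, LedRem_f' T ?_ hz, hzlev⟩
        intro hd
        have hcu : c = u := LedRem_eq T hd (by rw [hcpar]; exact hiu)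
        subst hcu
        exact hch ⟨hc0, hcpar⟩
  · -- deep
    intro i y z y' hy hy' hd
    exact hl.deep i y z y' (LedRem_f T hy).2 (LedRem_f T hy').2 hd
  · -- ledger
    obtain ⟨R, hR1, hR2, hR3⟩ := hl.rem
    refine ⟨(x.lab, x.lev - T.dep u) :: R, ?_, ?_, ?_⟩
    · rw [List.map_cons, List.nodup_cons]
      refine ⟨?_, hR1⟩
      intro hmem
      obtain ⟨c, hc, hce⟩ := List.mem_map.mp hmem
      exact (hR2 c hc).2.2.2 u x hx hce.symm
    · intro c hc
      rw [List.mem_cons] at hc
      rcases hc with rfl | hc
      · refine ⟨hxlab, by omega, hchn, ?_⟩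
        intro i y hy heq
        obtain ⟨hiu, hsi⟩ := LedRem_f T hy
        have : i = u := h.inj i u y x hsi hx heq
        rw [this] at hiu
        exact hiu (T.desc_refl u)
      · obtain ⟨h1, h2, h3, h4⟩ := hR2 c hc
        exact ⟨h1, h2, h3, fun i y hy => h4 i y (LedRem_f T hy).2⟩
    · rw [List.map_cons, List.sum_cons]
      have h1 := alive_remSt T s u
      have h2 : (univ.filter (fun z => T.desc u z ∧ (s.f z).isSome)).card ≤
          (Δ + 1) ^ (x.lev - T.dep u) := by
        refine le_trans (Finset.card_le_card ?_) (T.desc_card u (x.lev - T.dep u))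
        intro z hz
        rw [Finset.mem_filter] at hz ⊢
        refine ⟨hz.1, hz.2.1, ?_⟩
        obtain ⟨y, hy⟩ := Option.isSome_iff_exists.mp hz.2.2
        have := hl.deep u x z y hx hy hz.2.1
        omega
      have h3 := h.alive_le
      have h4 : (remSt T s u).dead = s.tch.length - (remSt T s u).alive := rfl
      have h5 : s.dead = s.tch.length - s.alive := rfl
      rw [h4]
      rw [h5] at hR3
      have h6 : s.tch.length - (remSt T s u).alive ≤ (s.tch.length - s.alive) +
          (univ.filter (fun z => T.desc u z ∧ (s.f z).isSome)).card := by omega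
      refine h6.trans ?_
      rw [Nat.add_comm]
      exact Nat.add_le_add h2 hR3

end Pool.Agent.Lib.MP_56e41f_co
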