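import Pool.Agent.Lib.MP_56e41f_co.LedSucc
import Pool.Agent.Lib.MP_56e41f_co.LedRem
import Pool.Agent.Lib.MP_56e41f_co.StrRun

open Finset

namespace Pool.Agent.Lib.MP_56e41f_co

variable {t Δ : ℕ} (T : TD t Δ) (B w : ℕ)

theorem Led_run (F : Finset Lab) (n : ℕ) : Led T F (run T (3 * Δ) w F n (init t)) := by
  induction n with
  | zero => exact Led_init T F
  | succ n ih =>
    rw [run_succ']
    have hs := Str_run T (3 * Δ) w F n
    generalize run T (3 * Δ) w F n (init t) = s at ih hs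
    unfold step
    cases ha : act T (3 * Δ) w s with
    | stop => exact ih
    | root v => exact Led_root T w F s v hs ih ha
    | ask v u x =>
      by_cases hF : x.asks :: x.lab ∈ F
      · simp only [hF, if_true]
        exact Led_succ T w F s v u x hs ih ha hF
      · simp only [hF, if_false]
        exact Led_fail T w F s v u x hs ih ha hF
    | rem u => exact Led_rem T w F s u hs ih ha

theorem ledrun_ind_nonneg (P : Prop) : 0 ≤ ind P := by
  unfold ind
  split_ifs <;> norm_num

theorem ledrun_loss_nonneg (L : ℕ) (F : Finset Lab) (a : Lab) : 0 ≤ loss Δ L F a := by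
  unfold loss
  refine Finset.sum_nonneg (fun M _ => ?_)
  exact mul_nonneg (by positivity) (ledrun_ind_nonneg _)

theorem ledrun_le_loss (L : ℕ) (F : Finset Lab) (a : Lab) (M : ℕ) (hM : M ≤ L)
    (hc : chn Δ F M a) : ((Δ : ℝ) + 1) ^ M ≤ loss Δ L F a := by
  unfold loss
  have h1 : ((Δ : ℝ) + 1) ^ M * ind (chn Δ F M a) = ((Δ : ℝ) + 1) ^ M := by
    unfold ind
    rw [if_pos hc, mul_one]
  rw [← h1]
  exact Finset.single_le_sum (f := fun M => ((Δ : ℝ) + 1) ^ M * ind (chn Δ F M a))
    (fun i _ => mul_nonneg (by positivity) (ledrun_ind_nonneg _))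
    (Finset.mem_range.2 (Nat.lt_succ_of_le hM))

theorem ledrun_sum_map_le {α : Type*} (l : List α) (f g : α → ℝ)
    (h : ∀ a ∈ l, f a ≤ g a) : (l.map f).sum ≤ (l.map g).sum := by
  induction l with
  | nil => simp
  | cons a l ih =>
    simp only [List.map_cons, List.sum_cons]
    have h1 := h a (by simp)
    have h2 := ih (fun b hb => h b (by simp [hb]))
    linarith

theorem ledrun_sum_sub (l m : List Lab) (hl : l.Nodup) (hm : m.Nodup) (h : ∀ a ∈ l, a ∈ m)
    (f : Lab → ℝ) (hf : ∀ a, 0 ≤ f a) : (l.map f).sum ≤ (m.map f).sum := by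
  rw [← List.sum_toFinset f hl, ← List.sum_toFinset f hm]
  refine Finset.sum_le_sum_of_subset_of_nonneg ?_ (fun a _ _ => hf a)
  intro a ha
  rw [List.mem_toFinset] at ha ⊢
  exact h a ha

/-- Deterministic conclusion. -/
theorem loss_of_dead (F : Finset Lab) (n L : ℕ) (h : w < (run T (3 * Δ) w F n (init t)).dead) :
    (∃ a ∈ tl T (3 * Δ) w n F, ∃ M, L < M ∧ M ≤ t ∧ chn Δ F M a) ∨
    (w : ℝ) < ((tl T (3 * Δ) w n F).map (loss Δ L F)).sum := by
  obtain ⟨R, hnd, hR, hdead⟩ := (Led_run T w F n).rem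
  have hs := Str_run T (3 * Δ) w F n
  by_cases hL : ∃ c ∈ R, L < c.2
  · left
    obtain ⟨c, hc, hcL⟩ := hL
    obtain ⟨h1, h2, h3, _⟩ := hR c hc
    refine ⟨c.1, ?_, c.2, hcL, h2, h3⟩
    unfold tl
    rw [List.mem_reverse]
    exact h1
  · right
    push Not at hL
    have h1 : w < (R.map (fun c => (Δ + 1) ^ c.2)).sum := lt_of_lt_of_le h hdead
    have h2 : (w : ℝ) < (R.map (fun c => ((Δ : ℝ) + 1) ^ c.2)).sum := by
      have h3 : (((R.map (fun c => (Δ + 1) ^ c.2)).sum : ℕ) : ℝ)
          = (R.map (fun c => ((Δ : ℝ) + 1) ^ c.2)).sum := by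
        rw [Nat.cast_list_sum, List.map_map]
        congr 1
        refine List.map_congr_left (fun c _ => ?_)
        simp
      rw [← h3]
      exact_mod_cast h1
    refine lt_of_lt_of_le h2 ?_
    have h4 : (R.map (fun c => ((Δ : ℝ) + 1) ^ c.2)).sum
        ≤ (R.map (fun c => loss Δ L F c.1)).sum :=
      ledrun_sum_map_le R _ _ (fun c hc => ledrun_le_loss L F c.1 c.2 (hL c hc) (hR c hc).2.2.1)
    refine h4.trans ?_
    have h5 : (R.map (fun c => loss Δ L F c.1)) = (R.map Prod.fst).map (loss Δ L F) := by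
      rw [List.map_map]
      rfl
    rw [h5]
    refine ledrun_sum_sub _ _ hnd ?_ ?_ _ (ledrun_loss_nonneg L F)
    · unfold tl
      exact List.nodup_reverse.2 hs.nodup
    · intro a ha
      rw [List.mem_map] at ha
      obtain ⟨c, hc, rfl⟩ := ha
      unfold tl
      rw [List.mem_reverse]
      exact (hR c hc).1

end Pool.Agent.Lib.MP_56e41f_co
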