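import Pool.Agent.Lib.MP_56e41f_co.Second

open Finset

namespace Pool.Agent.Lib.MP_56e41f_co

variable {t Δ : ℕ} (T : TD t Δ) (B w : ℕ)

/-- second moment of the whole sum -/
theorem second_all (R : ℕ) (hR : B ≤ R) (hR' : t + w ≤ R) (p : ℝ) (h0 : 0 ≤ p) (h1 : p ≤ 1)
    (E : Finset Lab) (N r : ℕ) (hr : 0 < r) (g : Lab → Finset Lab → ℝ) (v : ℝ)
    (hg : ∀ a, Dep (BelowR a r) (g a)) (hmean : ∀ a ∈ labs R t, ex p E (g a) = 0)
    (hv : ∀ a ∈ labs R t, ex p E (fun F => g a F ^ 2) ≤ v) (hv0 : 0 ≤ v) :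
    ex p E (fun F => (((tl T B w N F).map (fun a => g a F)).sum) ^ 2) ≤ r * ((t + w) * v) := by
  classical
  set X : ℕ → Finset Lab → ℝ := fun ρ F =>
    ((tl T B w N F).map (fun a => if a.length % r = ρ then g a F else 0)).sum with hX
  have hsplit : ∀ F, ((tl T B w N F).map (fun a => g a F)).sum = ∑ ρ ∈ range r, X ρ F := by
    intro F
    simp only [hX]
    induction tl T B w N F with
    | nil => simp
    | cons a l ih =>
      simp only [List.map_cons, List.sum_cons]
      rw [ih, Finset.sum_add_distrib]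
      congr 1
      rw [Finset.sum_ite_eq, if_pos (Finset.mem_range.2 (Nat.mod_lt _ hr))]
  have hcs : ∀ F, (((tl T B w N F).map (fun a => g a F)).sum) ^ 2 ≤
      (r : ℝ) * ∑ ρ ∈ range r, X ρ F ^ 2 := by
    intro F
    rw [hsplit]
    have := sq_sum_le_card_mul_sum_sq (s := range r) (f := fun ρ => X ρ F)
    rwa [Finset.card_range] at this
  calc ex p E (fun F => (((tl T B w N F).map (fun a => g a F)).sum) ^ 2)
      ≤ ex p E (fun F => (r : ℝ) * ∑ ρ ∈ range r, X ρ F ^ 2) := ex_mono h0 h1 E fun F _ => hcs F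
    _ = (r : ℝ) * ∑ ρ ∈ range r, ex p E (fun F => X ρ F ^ 2) := by
        rw [ex_mul_left, ex_sum]
    _ ≤ (r : ℝ) * ∑ ρ ∈ range r, (∑ a ∈ labs R t, if a.length % r = ρ then
          ex p E (fun F => ind (a ∈ tl T B w N F)) else 0) * v := by
        refine mul_le_mul_of_nonneg_left (Finset.sum_le_sum fun ρ _ => ?_) (Nat.cast_nonneg _)
        exact second_class_ref T B w R hR hR' p h0 h1 E N r ρ hr g v hg hmean hv
    _ = (r : ℝ) * ((∑ a ∈ labs R t, ex p E (fun F => ind (a ∈ tl T B w N F))) * v) := by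
        rw [← Finset.sum_mul, Finset.sum_comm]
        congr 2
        refine Finset.sum_congr rfl fun a _ => ?_
        rw [Finset.sum_ite_eq, if_pos (Finset.mem_range.2 (Nat.mod_lt _ hr))]
    _ ≤ r * ((t + w) * v) := by
        refine mul_le_mul_of_nonneg_left (mul_le_mul_of_nonneg_right ?_ hv0) (Nat.cast_nonneg _)
        exact second_count T B w R hR hR' p h0 h1 E N

end Pool.Agent.Lib.MP_56e41f_co
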