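import Pool.Agent.Lib.MP_56e41f_co.StrRun

open Finset

namespace Pool.Agent.Lib.MP_56e41f_co

variable {t Δ : ℕ} (T : TD t Δ) (B w : ℕ)

/-- number of slots used by an image -/
def term_a (o : Option Nd) : ℕ := o.elim 0 Nd.asks

/-- total number of slots used by the embedded vertices -/
def term_asks (s : St t) : ℕ := ∑ i, term_a (s.f i)

/-- the potential -/
def term_mu (s : St t) : ℕ := s.tch.length + term_asks s + (B + 1) * s.dead

theorem term_a_bump (e : ℕ) (f : Fin t → Option Nd) (i : Fin t) :
    term_a (bump e f i) = term_a (f i) := by
  unfold bump term_a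
  cases f i <;> rfl

theorem term_asks_placeRoot (s : St t) (v : Fin t) (h : s.f v = none) :
    term_asks (placeRoot s v) = term_asks s := by
  unfold term_asks
  refine Finset.sum_congr rfl fun i _ => ?_
  unfold placeRoot
  by_cases hi : i = v
  · subst hi
    simp [h, term_a]
  · simp [Function.update_of_ne hi, term_a_bump]

theorem term_asks_update (f : Fin t → Option Nd) (u : Fin t) (x y : Nd) (hu : f u = some x)
    (hy : y.asks = x.asks + 1) :
    ∑ i, term_a (Function.update f u (some y) i) = (∑ i, term_a (f i)) + 1 := by
  rw [← Finset.add_sum_erase _ _ (Finset.mem_univ u), ← Finset.add_sum_erase _ (fun i => term_a (f i)) (Finset.mem_univ u)]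
  have h1 : ∑ i ∈ univ.erase u, term_a (Function.update f u (some y) i) =
      ∑ i ∈ univ.erase u, term_a (f i) := by
    refine Finset.sum_congr rfl fun i hi => ?_
    rw [Function.update_of_ne (Finset.ne_of_mem_erase hi)]
  rw [h1]
  simp only [Function.update_self, hu]
  simp only [term_a, Option.elim, hy]
  omega

theorem term_asks_failSt (s : St t) (u : Fin t) (x : Nd) (hu : s.f u = some x) :
    term_asks (failSt s u x) = term_asks s + 1 := by
  unfold term_asks failSt
  exact term_asks_update s.f u x _ hu rfl

theorem term_asks_succSt (s : St t) (v u : Fin t) (x : Nd) (h : s.f v = none)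
    (hu : s.f u = some x) : term_asks (succSt T s v u x) = term_asks s + 1 := by
  have hne : v ≠ u := by
    rintro rfl
    rw [h] at hu
    cases hu
  unfold term_asks
  rw [← term_asks_update s.f u x ⟨x.lab, x.asks + 1, x.lev⟩ hu rfl]
  refine Finset.sum_congr rfl fun i _ => ?_
  unfold succSt
  by_cases hi : i = v
  · subst hi
    simp [h, term_a, Function.update_of_ne hne]
  · simp [Function.update_of_ne hi, term_a_bump]

open Classical in
theorem term_asks_remSt (s : St t) (u : Fin t) (hB : ∀ i x, s.f i = some x → x.asks ≤ B) :
    term_asks s ≤ term_asks (remSt T s u) +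
      B * (univ.filter (fun z => T.desc u z ∧ (s.f z).isSome)).card := by
  unfold term_asks
  have h1 : ∀ i, term_a (s.f i) ≤ term_a ((remSt T s u).f i) +
      B * (if T.desc u i ∧ (s.f i).isSome then 1 else 0) := by
    intro i
    unfold remSt
    simp only
    by_cases hd : T.desc u i
    · cases hfi : s.f i with
      | none => simp [term_a]
      | some x =>
        have := hB i x hfi
        simp [hd, term_a, this]
    · simp [hd]
  calc ∑ i, term_a (s.f i)
      ≤ ∑ i, (term_a ((remSt T s u).f i) +
          B * (if T.desc u i ∧ (s.f i).isSome then 1 else 0)) := Finset.sum_le_sum fun i _ => h1 i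
    _ = _ := by
      rw [Finset.sum_add_distrib, ← Finset.mul_sum, Finset.card_filter]

theorem term_mu_step (F : Finset Lab) (s : St t) (hS : Str T B s)
    (hns : act T B w s ≠ Act.stop) : term_mu B s + 1 ≤ term_mu B (step T B w F s) := by
  classical
  unfold step
  cases ha : act T B w s with
  | stop => exact absurd ha hns
  | root v =>
    obtain ⟨hn, hd, hv⟩ := act_root T B w ha
    obtain ⟨hfv, -⟩ := nxt_eq_some hn
    simp only
    unfold term_mu
    rw [term_asks_placeRoot s v hfv]
    have h1 : (placeRoot s v).tch.length = s.tch.length + 1 := by simp [placeRoot]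
    have h2 : (placeRoot s v).dead = s.dead := by
      unfold St.dead
      rw [h1, alive_placeRoot s v hfv]
      omega
    rw [h1, h2]
    omega
  | ask v u x =>
    obtain ⟨hn, hd, hv, hu, hfu, hx⟩ := act_ask T B w ha
    obtain ⟨hfv, -⟩ := nxt_eq_some hn
    simp only
    split_ifs with hF
    · have hne : u ≠ v := by
        rintro rfl
        rw [hfv] at hfu
        cases hfu
      unfold term_mu
      rw [term_asks_succSt T s v u x hfv hfu]
      have h1 : (succSt T s v u x).tch.length = s.tch.length + 1 := by simp [succSt]
      have h2 : (succSt T s v u x).dead = s.dead := by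
        unfold St.dead
        rw [h1, alive_succSt T s v u x hfv hfu hne]
        omega
      rw [h1, h2]
      omega
    · unfold term_mu
      rw [term_asks_failSt s u x hfu]
      have h1 : (failSt s u x).tch.length = s.tch.length := by simp [failSt]
      have h2 : (failSt s u x).dead = s.dead := by
        unfold St.dead
        rw [h1, alive_failSt s u x hfu]
      rw [h1, h2]
      omega
  | rem u =>
    obtain ⟨v, x, hn, hd, hv, hu, hfu, hx⟩ := act_rem T B w ha
    simp only
    set c := (univ.filter (fun z => T.desc u z ∧ (s.f z).isSome)).card with hc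
    have hal := alive_remSt T s u
    rw [← hc] at hal
    have hask := term_asks_remSt T B s u (fun i x hi => (hS.lab i x hi).2.2.1)
    rw [← hc] at hask
    have hc1 : 1 ≤ c := by
      rw [hc, Nat.one_le_iff_ne_zero, Finset.card_ne_zero]
      exact ⟨u, by
        rw [Finset.mem_filter]
        exact ⟨Finset.mem_univ _, ⟨0, rfl⟩, by rw [hfu]; rfl⟩⟩
    have h1 : (remSt T s u).tch.length = s.tch.length := by simp [remSt]
    have h2 : (remSt T s u).dead = s.dead + c := by
      unfold St.dead
      rw [h1]
      have := hS.alive_le
      omega
    unfold term_mu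
    rw [h1, h2]
    have h3 : (B + 1) * (s.dead + c) = (B + 1) * s.dead + (B * c + c) := by ring
    rw [h3]
    omega

theorem term_act_stop (s : St t) (h : s.nxt = none ∨ w < s.dead) :
    act T B w s = Act.stop := by
  unfold act
  cases hn : s.nxt with
  | none => rfl
  | some v =>
    rcases h with h | h
    · rw [hn] at h
      cases h
    · simp [h]

theorem term_step_stop (F : Finset Lab) (s : St t) (h : act T B w s = Act.stop) :
    step T B w F s = s := by
  unfold step
  rw [h]

theorem term_main (F : Finset Lab) (n : ℕ) :
    ((run T B w F n (init t)).nxt = none ∨ w < (run T B w F n (init t)).dead) ∨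
      n ≤ term_mu B (run T B w F n (init t)) := by
  induction n with
  | zero => exact Or.inr (Nat.zero_le _)
  | succ n ih =>
    rw [run_succ']
    set s := run T B w F n (init t) with hs
    have hS : Str T B s := Str_run T B w F n
    by_cases ha : act T B w s = Act.stop
    · rw [term_step_stop T B w F s ha]
      exact Or.inl (Str.stop T B w hS ha)
    · rcases ih with h | h
      · exact absurd (term_act_stop T B w s h) ha
      · right
        have := term_mu_step T B w F s hS ha
        omega

theorem stops (F : Finset Lab) (n : ℕ) (hn : (B + 2) * (t + w + 1) ≤ n) :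
    (run T B w F n (init t)).nxt = none ∨ w < (run T B w F n (init t)).dead := by
  rcases term_main T B w F n with h | h
  · exact h
  · right
    by_contra hd
    rw [not_lt] at hd
    set s := run T B w F n (init t) with hs
    have hS : Str T B s := Str_run T B w F n
    have h1 : s.tch.length ≤ t + w := tch_le T B w F n
    have h2 : term_asks s ≤ B * t := by
      unfold term_asks
      calc ∑ i, term_a (s.f i) ≤ ∑ _i : Fin t, B := by
            refine Finset.sum_le_sum fun i _ => ?_
            cases hfi : s.f i with
            | none => simp [term_a]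
            | some x => exact (hS.lab i x hfi).2.2.1
        _ = B * t := by simp [mul_comm]
    have h3 : (B + 1) * s.dead ≤ (B + 1) * w := Nat.mul_le_mul_left _ hd
    have h4 : term_mu B s ≤ (t + w) + B * t + (B + 1) * w := by
      unfold term_mu
      omega
    have h5 : (B + 2) * (t + w + 1) = ((t + w) + B * t + (B + 1) * w) + t + (B + 2) := by ring
    omega

end Pool.Agent.Lib.MP_56e41f_co
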