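import Pool.Agent.Lib.MP_56e41f_co.RunDep
import Pool.Agent.Lib.MP_56e41f_co.Ex

open Finset

namespace Pool.Agent.Lib.MP_56e41f_co

variable {t Δ : ℕ} (T : TD t Δ) (B w : ℕ)

theorem valeq_mem_labs (R : ℕ) : ∀ (n : ℕ) (l : Lab), l ∈ labs R n ↔
    l.length ≤ n ∧ ∀ i ∈ l, i < R := by
  intro n
  induction n with
  | zero =>
    intro l
    rw [labs, mem_singleton]
    constructor
    · rintro rfl
      simp
    · rintro ⟨h, _⟩
      exact List.length_eq_zero_iff.1 (by omega)
  | succ n ih =>
    intro l
    rw [labs, mem_insert, mem_image]
    constructor
    · rintro (rfl | ⟨⟨j, a⟩, hja, rfl⟩)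
      · simp
      · rw [mem_product, mem_range] at hja
        obtain ⟨h1, h2⟩ := hja
        obtain ⟨h3, h4⟩ := (ih a).1 h2
        refine ⟨?_, ?_⟩
        · simp only [List.length_cons]
          omega
        · intro i hi
          rcases List.mem_cons.1 hi with h5 | h5
          · rw [h5]; exact h1
          · exact h4 i h5
    · rintro ⟨h1, h2⟩
      cases l with
      | nil => left; rfl
      | cons j a =>
        right
        refine ⟨(j, a), ?_, rfl⟩
        rw [mem_product, mem_range]
        refine ⟨h2 j List.mem_cons_self, (ih a).2 ⟨?_, ?_⟩⟩
        · simp only [List.length_cons] at h1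
          omega
        · intro i hi
          exact h2 i (List.mem_cons_of_mem _ hi)

theorem valeq_alive_lt {s : St t} {v : Fin t} (hv : s.f v = none) : s.alive < t := by
  have h1 : (univ.filter (fun i => (s.f i).isSome)) ⊂ (univ : Finset (Fin t)) := by
    rw [ssubset_iff_subset_ne]
    refine ⟨subset_univ _, fun h => ?_⟩
    have h2 : v ∈ univ.filter (fun i => (s.f i).isSome) := by
      rw [h]; exact mem_univ v
    rw [mem_filter, hv] at h2
    simp at h2
  have h3 := card_lt_card h1
  rw [card_univ, Fintype.card_fin] at h3
  exact h3

theorem valeq_tch_entries {s : St t} (h : Str T B s) {R : ℕ} (hR : B ≤ R)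
    (hR' : s.tch.length < R) : ∀ a ∈ s.tch, ∀ i ∈ a, i < R := by
  intro a
  induction a with
  | nil => intro _ i hi; simp at hi
  | cons j a ih =>
    intro hja i hi
    by_cases ha : a = []
    · subst ha
      have h1 := h.rootlab j hja
      have h2 := h.rootsle
      have h3 : i = j := by simpa using hi
      omega
    · have h1 := h.closed j a hja ha
      have h2 := h.slotB j a hja ha
      rcases List.mem_cons.1 hi with h3 | h3
      · omega
      · exact ih h1 i h3

theorem valeq_run_stop (F : Finset Lab) {s : St t} (ha : act T B w s = Act.stop) (n : ℕ) :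
    run T B w F n s = s := by
  have hs : step T B w F s = s := by rw [step, ha]
  induction n with
  | zero => rfl
  | succ n ih => rw [run, hs, ih]

theorem valeq_ex_erase_dep {α : Type*} [DecidableEq α] (p : ℝ) (E : Finset α) (e : α)
    (he : e ∈ E) (G : Finset α → ℝ) (hG : ∀ F, G (insert e F) = G F) :
    ex p (E.erase e) (fun F => G (insert e F)) = ex p E G ∧ ex p (E.erase e) G = ex p E G := by
  have h1 : ex p (E.erase e) (fun F => G (insert e F)) = ex p (E.erase e) G :=
    ex_congr p _ (fun F _ => hG F)
  have h2 := ex_erase p E e he G
  rw [h1] at h2
  have h3 : ex p E G = ex p (E.erase e) G := by rw [h2]; ring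
  exact ⟨h1.trans h3.symm, h3.symm⟩

theorem val_eq (R Λ : ℕ) (hR : B ≤ R) (hR' : t + w + 1 ≤ R) (hΛ : t + 1 ≤ Λ) (q : ℝ) (n : ℕ)
    (s : St t) (h : Str T B s) (hl : s.tch.length ≤ t + w) :
    val T B w q n s = pr (1 - q) (labs R Λ) (fun F => (run T B w F n s).nxt ≠ none) := by
  induction n generalizing s with
  | zero =>
    rw [val, pr]
    exact (ex_const _ _ _).symm
  | succ n ih =>
    rw [val]
    cases hact : act T B w s with
    | stop =>
      simp only
      rw [pr]
      have h1 : ∀ F ⊆ labs R Λ, ind ((run T B w F (n + 1) s).nxt ≠ none) =
          ind (s.nxt ≠ none) := by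
        intro F _
        rw [valeq_run_stop T B w F hact]
      rw [ex_congr _ _ h1, ex_const]
    | root v =>
      simp only
      obtain ⟨h1, h2, h3⟩ := act_root T B w hact
      obtain ⟨h4, -⟩ := nxt_eq_some h1
      have h5 := valeq_alive_lt h4
      have h6 := h.alive_le
      have h7 : s.tch.length = s.dead + s.alive := by
        rw [St.dead]; omega
      rw [ih (placeRoot s v) (Str_root T B w s v h hact) (by
        simp only [placeRoot, List.length_cons]; omega)]
      rw [pr, pr]
      apply ex_congr
      intro F _
      rw [run, step, hact]
    | rem u =>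
      simp only
      rw [ih (remSt T s u) (Str_rem T B w s u h hact) hl]
      rw [pr, pr]
      apply ex_congr
      intro F _
      rw [run, step, hact]
    | ask v u x =>
      simp only
      obtain ⟨h1, h2, h3, h4, h5, h6⟩ := act_ask T B w hact
      obtain ⟨h7, -⟩ := nxt_eq_some h1
      have h8 := valeq_alive_lt h7
      have h9 := h.alive_le
      have h10 : s.tch.length = s.dead + s.alive := by
        rw [St.dead]; omega
      have hlab := h.lab u x h5
      have hS := Str_succ T B w s v u x h hact
      have hFl := Str_fail T B w s v u x h hact
      have he : x.asks :: x.lab ∈ labs R Λ := by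
        rw [valeq_mem_labs]
        constructor
        · have := h.len x.lab hlab.1
          simp only [List.length_cons]
          omega
        · intro i hi
          rcases List.mem_cons.1 hi with h11 | h11
          · omega
          · exact valeq_tch_entries T B h hR (by omega) x.lab hlab.1 i h11
      rw [ih (succSt T s v u x) hS (by simp only [succSt, List.length_cons]; omega),
        ih (failSt s u x) hFl hl]
      -- the bit `e` is consumed
      have hc1 : x.asks :: x.lab ∈ consumed (succSt T s v u x) := by
        refine ⟨x.asks, x.lab, rfl, ?_, ?_⟩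
        · exact List.mem_cons_of_mem _ hlab.1
        · intro i y hi hy
          have := hS.slot i y x.asks hi (by rw [hy]; exact List.mem_cons_self)
          exact this
      have hc2 : x.asks :: x.lab ∈ consumed (failSt s u x) := by
        refine ⟨x.asks, x.lab, rfl, hlab.1, ?_⟩
        intro i y hi hy
        by_cases hiu : i = u
        · subst hiu
          simp only [failSt, Function.update_self, Option.some.injEq] at hi
          rw [← hi]
          exact Nat.lt_succ_self _
        · simp only [failSt, Function.update_of_ne hiu] at hi
          exact absurd (h.inj i u y x hi h5 hy) hiu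
      have hG : ∀ s' : St t, Str T B s' → x.asks :: x.lab ∈ consumed s' → ∀ F : Finset Lab,
          ind ((run T B w (insert (x.asks :: x.lab) F) n s').nxt ≠ none) =
            ind ((run T B w F n s').nxt ≠ none) := by
        intro s' hs' hc F
        have := run_dep T B w n s' hs' (insert (x.asks :: x.lab) F) F (by
          intro y hy
          have hne : y ≠ x.asks :: x.lab := fun hh => hy (hh ▸ hc)
          simp [hne])
        simp only at this
        rw [this]
      have e1 := valeq_ex_erase_dep (1 - q) (labs R Λ) (x.asks :: x.lab) he
        (fun F => ind ((run T B w F n (succSt T s v u x)).nxt ≠ none))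
        (hG (succSt T s v u x) hS hc1)
      have e2 := valeq_ex_erase_dep (1 - q) (labs R Λ) (x.asks :: x.lab) he
        (fun F => ind ((run T B w F n (failSt s u x)).nxt ≠ none))
        (hG (failSt s u x) hFl hc2)
      simp only [pr]
      rw [ex_erase (1 - q) (labs R Λ) (x.asks :: x.lab) he
        (fun F => ind ((run T B w F (n + 1) s).nxt ≠ none)), sub_sub_cancel]
      congr 1
      · congr 1
        rw [← e1.1]
        apply ex_congr
        intro F _
        rw [run, step, hact]
        simp
      · congr 1
        rw [← e2.2]
        apply ex_congr
        intro F hF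
        have hnot : x.asks :: x.lab ∉ F := fun hh => by
          have := hF hh
          simp at this
        rw [run, step, hact]
        simp only
        rw [if_neg hnot]

end Pool.Agent.Lib.MP_56e41f_co
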