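import Pool.Agent.Lib.MP_56e41f_co.Ex

open Finset

namespace Pool.Agent.Lib.MP_56e41f_co

variable {α : Type*} [DecidableEq α]

theorem Dep.mono {β : Type*} {S S' : Set α} {f : Finset α → β} (h : Dep S f) (hs : S ⊆ S') :
    Dep S' f := fun F F' hF => h F F' fun x hx => hF x (hs hx)

theorem Dep.comp {β γ : Type*} {S : Set α} {f : Finset α → β} (h : Dep S f) (g : β → γ) :
    Dep S (fun F => g (f F)) := fun F F' hF => congrArg g (h F F' hF)

theorem Dep.comp2 {β γ δ : Type*} {S : Set α} {f : Finset α → β} {f' : Finset α → γ}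
    (h : Dep S f) (h' : Dep S f') (g : β → γ → δ) :
    Dep S (fun F => g (f F) (f' F)) := fun F F' hF => by
  change g (f F) (f' F) = g (f F') (f' F')
  rw [h F F' hF, h' F F' hF]

theorem ex_mul {S S' : Set α} {f g : Finset α → ℝ} (p : ℝ) (E : Finset α)
    (hf : Dep S f) (hg : Dep S' g) (h : Disjoint S S') :
    ex p E (fun F => f F * g F) = ex p E f * ex p E g := by
  classical
  set E1 := E.filter (fun x => x ∈ S) with hE1
  set E2 := E.filter (fun x => ¬ x ∈ S) with hE2
  have hE : E1 ∪ E2 = E := Finset.filter_union_filter_not_eq _ E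
  have hdisj : Disjoint E1 E2 := Finset.disjoint_filter_filter_not E E _
  have h1 : ∀ F ⊆ E1, ∀ F' ⊆ E2, f (F ∪ F') = f F := by
    intro F hF F' hF'
    apply hf
    intro x hx
    rw [mem_union]
    constructor
    · rintro (h1 | h1)
      · exact h1
      · exact absurd hx (mem_filter.mp (hF' h1)).2
    · exact Or.inl
  have h2 : ∀ F ⊆ E1, ∀ F' ⊆ E2, g (F ∪ F') = g F' := by
    intro F hF F' hF'
    apply hg
    intro x hx
    rw [mem_union]
    constructor
    · rintro (h1 | h1)
      · exact absurd hx (Set.disjoint_left.mp h (mem_filter.mp (hF h1)).2)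
      · exact h1
    · exact Or.inr
  have e1 : ex p E (fun F => f F * g F) = ex p E1 f * ex p E2 g := by
    rw [← hE, ex_union p E1 E2 hdisj]
    have h3 : ex p E1 (fun F => ex p E2 (fun F' => f (F ∪ F') * g (F ∪ F'))) =
        ex p E1 (fun F => ex p E2 g * f F) := by
      apply ex_congr
      intro F hF
      rw [mul_comm, ← ex_mul_left]
      apply ex_congr
      intro F' hF'
      rw [h1 F hF F' hF', h2 F hF F' hF']
    rw [h3, ex_mul_left, mul_comm]
  have e2 : ex p E f = ex p E1 f := by
    rw [← hE, ex_union p E1 E2 hdisj]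
    apply ex_congr
    intro F hF
    have h3 : ex p E2 (fun F' => f (F ∪ F')) = ex p E2 (fun _ => f F) := by
      apply ex_congr
      intro F' hF'
      exact h1 F hF F' hF'
    rw [h3, ex_const]
  have e3 : ex p E g = ex p E2 g := by
    rw [← hE, ex_union p E1 E2 hdisj]
    have h3 : ex p E1 (fun F => ex p E2 (fun F' => g (F ∪ F'))) =
        ex p E1 (fun _ => ex p E2 g) := by
      apply ex_congr
      intro F hF
      apply ex_congr
      intro F' hF'
      exact h2 F hF F' hF'
    rw [h3, ex_const]
  rw [e1, e2, e3]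

theorem ex_prod {ι : Type*} [DecidableEq ι] (p : ℝ) (E : Finset α) (I : Finset ι)
    (S : ι → Set α) (f : ι → Finset α → ℝ) (hf : ∀ i ∈ I, Dep (S i) (f i))
    (h : ∀ i ∈ I, ∀ j ∈ I, i ≠ j → Disjoint (S i) (S j)) :
    ex p E (fun F => ∏ i ∈ I, f i F) = ∏ i ∈ I, ex p E (f i) := by
  classical
  induction I using Finset.induction_on with
  | empty => simp only [prod_empty, ex_const]
  | insert a I ha ih =>
    have h1 : (fun F => ∏ i ∈ insert a I, f i F) = fun F => f a F * ∏ i ∈ I, f i F := by
      funext F
      rw [prod_insert ha]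
    rw [h1, prod_insert ha, ← ih (fun i hi => hf i (mem_insert_of_mem hi))
      (fun i hi j hj => h i (mem_insert_of_mem hi) j (mem_insert_of_mem hj))]
    apply ex_mul (S := S a) (S' := ⋃ i ∈ I, S i) p E (hf a (mem_insert_self _ _))
    · intro F F' hF
      apply prod_congr rfl
      intro i hi
      apply hf i (mem_insert_of_mem hi)
      intro x hx
      exact hF x (Set.mem_biUnion hi hx)
    · rw [Set.disjoint_left]
      intro x hx hx2
      obtain ⟨i, hi, hxi⟩ := Set.mem_iUnion₂.mp hx2
      have hne : a ≠ i := by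
        rintro rfl
        exact ha hi
      exact Set.disjoint_left.mp (h a (mem_insert_self _ _) i (mem_insert_of_mem hi) hne) hx hxi

end Pool.Agent.Lib.MP_56e41f_co
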