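import Pool.Agent.Lib.MP_56e41f_co.Touch
import Pool.Agent.Lib.MP_56e41f_co.Dep

open Finset

namespace Pool.Agent.Lib.MP_56e41f_co

variable {t Δ : ℕ} (T : TD t Δ) (B w : ℕ)

/-- first moment (Wald) -/
theorem wald (R : ℕ) (hR : B ≤ R) (hR' : t + w ≤ R) (p : ℝ) (h0 : 0 ≤ p) (h1 : p ≤ 1)
    (E : Finset Lab) (N : ℕ) (g : Lab → Finset Lab → ℝ) (y : ℝ)
    (hg : ∀ a, Dep (Below a) (g a)) (hpos : ∀ a F, 0 ≤ g a F)
    (hy : ∀ a ∈ labs R t, ex p E (g a) ≤ y) (hy0 : 0 ≤ y) :
    ex p E (fun F => ((tl T B w N F).map (fun a => g a F)).sum) ≤ (t + w) * y := by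
  classical
  have hsum : ∀ (F : Finset Lab) (f : Lab → ℝ), ((tl T B w N F).map f).sum =
      ∑ a ∈ labs R t, ind (a ∈ tl T B w N F) * f a := by
    intro F f
    rw [← List.sum_toFinset f (tl_nodup T B w N F)]
    have hsub : (tl T B w N F).toFinset ⊆ labs R t := fun a ha =>
      (tl_mem T B w R hR hR' N F a (List.mem_toFinset.1 ha)).1
    rw [← Finset.sum_subset hsub]
    · refine Finset.sum_congr rfl fun a ha => ?_
      rw [ind_true (List.mem_toFinset.1 ha), one_mul]
    · intro a _ ha
      rw [ind_false (fun h' => ha (List.mem_toFinset.2 h')), zero_mul]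
  have e1 : ex p E (fun F => ((tl T B w N F).map (fun a => g a F)).sum) =
      ∑ a ∈ labs R t, ex p E (fun F => ind (a ∈ tl T B w N F)) * ex p E (g a) := by
    simp_rw [hsum]
    rw [ex_sum]
    refine Finset.sum_congr rfl fun a _ => ?_
    refine ex_mul p E (Dep.comp (tl_mem_dep T B w N a) ind) (hg a) ?_
    exact disjoint_compl_left
  rw [e1]
  calc ∑ a ∈ labs R t, ex p E (fun F => ind (a ∈ tl T B w N F)) * ex p E (g a)
      ≤ ∑ a ∈ labs R t, ex p E (fun F => ind (a ∈ tl T B w N F)) * y :=
        Finset.sum_le_sum fun a ha => mul_le_mul_of_nonneg_left (hy a ha)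
          (ex_nonneg h0 h1 E fun F _ => ind_nonneg _)
    _ = ex p E (fun F => ∑ a ∈ labs R t, ind (a ∈ tl T B w N F)) * y := by
        rw [← Finset.sum_mul, ex_sum]
    _ ≤ (t + w) * y := by
        refine mul_le_mul_of_nonneg_right ?_ hy0
        calc ex p E (fun F => ∑ a ∈ labs R t, ind (a ∈ tl T B w N F))
            ≤ ex p E (fun _ => ((t : ℝ) + w)) := by
              refine ex_mono h0 h1 E fun F _ => ?_
              have h2 := hsum F (fun _ => 1)
              simp only [mul_one] at h2
              rw [← h2]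
              have h3 := tl_length T B w N F
              simp only [List.map_const', List.sum_replicate, nsmul_eq_mul, mul_one]
              exact_mod_cast h3
          _ = (t : ℝ) + w := ex_const p E _

end Pool.Agent.Lib.MP_56e41f_co
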