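import Pool.Agent.Lib.MP_56e41f_co.LossMean
import Pool.Agent.Lib.MP_56e41f_co.Wald
import Pool.Agent.Lib.MP_56e41f_co.SecondAll
import Pool.Agent.Lib.MP_56e41f_co.LedRun
import Pool.Agent.Lib.MP_56e41f_co.Term
import Pool.Agent.Lib.MP_56e41f_co.ValEq

open Finset

namespace Pool.Agent.Lib.MP_56e41f_co

variable {t Δ : ℕ} (T : TD t Δ) (w : ℕ)

theorem core_labs_mono {R m n : ℕ} (h : m ≤ n) {a : Lab} (ha : a ∈ labs R m) :
    a ∈ labs R n := by
  rw [mem_labs] at ha ⊢
  exact ⟨ha.1.trans h, ha.2⟩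

theorem core_geom (x : ℝ) (h0 : 0 ≤ x) (h1 : x ≤ 1 / 2) (L t : ℕ) :
    ∑ M ∈ Ioc L t, x ^ (M - 1) ≤ 2 * x ^ L := by
  rcases lt_or_ge t L with h | h
  · rw [Ioc_eq_empty_of_le h.le]
    simp only [sum_empty]
    positivity
  · have key : ∑ M ∈ Ioc L t, x ^ (M - 1) ≤ 2 * (x ^ L - x ^ t) := by
      induction t, h using Nat.le_induction with
      | base => simp
      | succ n hn ih =>
        rw [Finset.sum_Ioc_succ_top hn]
        have h2 := pow_nonneg h0 n
        have h3 : x ^ (n + 1) = x ^ n * x := pow_succ x n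
        have h4 : n + 1 - 1 = n := by omega
        rw [h4, h3]
        nlinarith
    have := pow_nonneg h0 t
    linarith

theorem core_sum_sub (l : List Lab) (f g : Lab → ℝ) :
    (l.map (fun a => f a - g a)).sum = (l.map f).sum - (l.map g).sum := by
  induction l with
  | nil => simp
  | cons a l ih => simp only [List.map_cons, List.sum_cons, ih]; ring

theorem core_sum_le (l : List Lab) (g : Lab → ℝ) (y : ℝ) (h : ∀ a ∈ l, g a ≤ y) :
    (l.map g).sum ≤ l.length * y := by
  induction l with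
  | nil => simp
  | cons a l ih =>
    simp only [List.map_cons, List.sum_cons, List.length_cons, Nat.cast_add, Nat.cast_one]
    have h1 := h a (by simp)
    have h2 := ih (fun b hb => h b (by simp [hb]))
    linarith

theorem core_single_le (l : List Lab) (g : Lab → ℝ) (h : ∀ a, 0 ≤ g a) (a : Lab) (ha : a ∈ l) :
    g a ≤ (l.map g).sum := by
  refine List.single_le_sum ?_ _ (List.mem_map_of_mem ha)
  intro x hx
  obtain ⟨b, -, rfl⟩ := List.mem_map.mp hx
  exact h b

theorem core_loss_dep (L : ℕ) (a : Lab) : Dep (BelowR a (L + 1)) (fun F => loss Δ L F a) := by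
  intro F F' hF
  show loss Δ L F a = loss Δ L F' a
  unfold loss
  refine Finset.sum_congr rfl fun M hM => ?_
  have hM' : M ≤ L := by rw [mem_range] at hM; omega
  have : chn Δ F M a = chn Δ F' M a := by
    refine chn_dep Δ M a F F' (fun x hx => hF x ?_)
    exact ⟨hx.1, hx.2.1, hx.2.2.trans (by omega)⟩
  rw [this]

theorem core (hΔ : 1 ≤ Δ) (q β : ℝ) (hq0 : 0 ≤ q) (hq : 64 * q ^ 2 ≤ 1)
    (hβ : β = (32 * q ^ 2) ^ Δ) (hβ1 : 3 * Δ * (Δ + 1) * β ≤ 1 / 2) (L : ℕ)
    (hw : 0 < w) (hmean : (t + w : ℝ) * (3 * (Δ + 1) * β) ≤ w / 2)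
    (n : ℕ) (hn : (3 * Δ + 2) * (t + w + 1) ≤ n) :
    val T (3 * Δ) w q n (init t)
      ≤ (t + w) * (2 * β * (3 * Δ * β) ^ L)
        + 4 * ((L + 1) * ((t + w) * (2 * (Δ + 1) ^ L * (3 * (Δ + 1) * β)))) / w ^ 2 := by
  set R : ℕ := 3 * Δ + t + w + 1 with hRdef
  set Λ : ℕ := 2 * t + L + 3 with hΛdef
  have hq1 : q ≤ 1 := by nlinarith
  have h0 : (0 : ℝ) ≤ 1 - q := by linarith
  have h1 : (1 : ℝ) - q ≤ 1 := by linarith
  have hβ0 : 0 ≤ β := by rw [hβ]; positivity
  have hΔr : (1 : ℝ) ≤ (Δ : ℝ) := by exact_mod_cast hΔ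
  have hx0 : (0 : ℝ) ≤ 3 * Δ * β := by positivity
  have hx1 : (3 : ℝ) * Δ * β ≤ 1 / 2 := by
    have : (0 : ℝ) ≤ 3 * Δ * β * Δ := by positivity
    nlinarith
  set E := labs R Λ with hE
  have hval := val_eq T (3 * Δ) w R Λ (by omega) (by omega) (by omega) q n (init t)
    (Str_init T (3 * Δ)) (by simp [init])
  rw [hval]
  -- the two bad events
  let P1 : Finset Lab → Prop := fun F =>
    ∃ a ∈ tl T (3 * Δ) w n F, ∃ M, L < M ∧ M ≤ t ∧ chn Δ F M a
  let P2 : Finset Lab → Prop := fun F =>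
    (w : ℝ) < ((tl T (3 * Δ) w n F).map (loss Δ L F)).sum
  have hsplit : pr (1 - q) E (fun F => (run T (3 * Δ) w F n (init t)).nxt ≠ none)
      ≤ pr (1 - q) E P1 + pr (1 - q) E P2 := by
    refine le_trans (pr_mono h0 h1 E (Q := fun F => P1 F ∨ P2 F) ?_) (pr_or_le h0 h1 E P1 P2)
    intro F _ hF
    rcases stops T (3 * Δ) w F n hn with h | h
    · exact absurd h hF
    · exact loss_of_dead T w F n L h
  -- first event
  let g1 : Lab → Finset Lab → ℝ := fun a F => ∑ M ∈ Ioc L t, ind (chn Δ F M a)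
  have hfirst : pr (1 - q) E P1 ≤ (t + w) * (2 * β * (3 * Δ * β) ^ L) := by
    have hw1 := wald T (3 * Δ) w R (by omega) (by omega) (1 - q) h0 h1 E n g1
      (2 * β * (3 * Δ * β) ^ L) ?_ ?_ ?_ (by positivity)
    · refine le_trans ?_ hw1
      refine ex_mono h0 h1 E ?_
      intro F _
      by_cases hP : P1 F
      · rw [ind_true hP]
        obtain ⟨a, ha, M, hM1, hM2, hM3⟩ := hP
        have hnn : ∀ a, 0 ≤ g1 a F := fun a => Finset.sum_nonneg fun M _ => ind_nonneg _
        refine le_trans ?_ (core_single_le _ (fun a => g1 a F) hnn a ha)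
        have : ind (chn Δ F M a) ≤ g1 a F :=
          Finset.single_le_sum (f := fun M => ind (chn Δ F M a)) (fun M _ => ind_nonneg _)
            (mem_Ioc.mpr ⟨hM1, hM2⟩)
        rwa [ind_true hM3] at this
      · rw [ind_false hP]
        refine List.sum_nonneg ?_
        intro x hx
        obtain ⟨b, -, rfl⟩ := List.mem_map.mp hx
        exact Finset.sum_nonneg fun M _ => ind_nonneg _
    · intro a F F' hF
      refine Finset.sum_congr rfl fun M _ => ?_
      have : chn Δ F M a = chn Δ F' M a :=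
        chn_dep Δ M a F F' (fun x hx => hF x ⟨hx.1, hx.2.1⟩)
      rw [this]
    · intro a F
      exact Finset.sum_nonneg fun M _ => ind_nonneg _
    · intro a ha
      show ex (1 - q) E (fun F => ∑ M ∈ Ioc L t, ind (chn Δ F M a)) ≤ _
      rw [ex_sum (1 - q) E (Ioc L t) (fun M F => ind (chn Δ F M a))]
      have hb : ∀ M ∈ Ioc L t, ex (1 - q) E (fun F => ind (chn Δ F M a))
          ≤ β * (3 * Δ * β) ^ (M - 1) := by
        intro M hM
        rw [mem_Ioc] at hM
        have := pr_chn Δ q hq0 hq R Λ (by omega) M a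
          (core_labs_mono (by omega) ha) (by omega)
        rw [← hβ] at this
        exact this
      refine le_trans (Finset.sum_le_sum hb) ?_
      rw [← Finset.mul_sum]
      have := core_geom (3 * Δ * β) hx0 hx1 L t
      nlinarith
  -- second event
  set m : Lab → ℝ := fun a => ex (1 - q) E (fun F => loss Δ L F a) with hm
  set μ : ℝ := 3 * (Δ + 1) * β with hμ
  let g2 : Lab → Finset Lab → ℝ := fun a F => loss Δ L F a - m a
  have hm_le : ∀ a ∈ labs R t, m a ≤ μ := fun a ha =>
    (loss_mean hΔ q β hq0 hq hβ hβ1 R Λ L (by omega) a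
      (core_labs_mono (by omega) ha) (by omega)).1
  have hv : ∀ a ∈ labs R t, ex (1 - q) E (fun F => g2 a F ^ 2) ≤ 2 * (Δ + 1) ^ L * μ := by
    intro a ha
    have h2 := (loss_mean hΔ q β hq0 hq hβ hβ1 R Λ L (by omega) a
      (core_labs_mono (by omega) ha) (by omega)).2
    have heq : (fun F => g2 a F ^ 2)
        = fun F => loss Δ L F a ^ 2 - (2 * m a * loss Δ L F a - m a ^ 2) := by
      funext F; simp only [g2]; ring
    rw [heq, ex_sub (1 - q) E (fun F => loss Δ L F a ^ 2)
      (fun F => 2 * m a * loss Δ L F a - m a ^ 2),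
      ex_sub (1 - q) E (fun F => 2 * m a * loss Δ L F a) (fun _ => m a ^ 2),
      ex_mul_left (1 - q) E (2 * m a) (fun F => loss Δ L F a), ex_const]
    have h3 : ex (1 - q) E (fun F => loss Δ L F a) = m a := rfl
    rw [h3]
    have h4 : 0 ≤ m a ^ 2 := sq_nonneg _
    have h5 : ex (1 - q) E (fun F => loss Δ L F a ^ 2) ≤ 2 * (Δ + 1) ^ L * μ := h2
    nlinarith
  have hμ0 : 0 ≤ μ := by rw [hμ]; positivity
  have hsecond : pr (1 - q) E P2
      ≤ 4 * ((L + 1) * ((t + w) * (2 * (Δ + 1) ^ L * μ))) / w ^ 2 := by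
    have hwr : (0 : ℝ) < w := by exact_mod_cast hw
    have hch := pr_chebyshev h0 h1 E
      (fun F => ((tl T (3 * Δ) w n F).map (fun a => g2 a F)).sum) (w / 2 : ℝ) (by positivity)
    have hs := second_all T (3 * Δ) w R (by omega) (by omega) (1 - q) h0 h1 E n (L + 1)
      (by omega) g2 (2 * (Δ + 1) ^ L * μ) ?_ ?_ hv (by positivity)
    · have hpr : pr (1 - q) E P2 ≤ pr (1 - q) E
          (fun F => (w / 2 : ℝ) < ((tl T (3 * Δ) w n F).map (fun a => g2 a F)).sum) := by
        refine pr_mono h0 h1 E ?_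
        intro F _ hF
        have hF' : (w : ℝ) < ((tl T (3 * Δ) w n F).map (loss Δ L F)).sum := hF
        have hd := core_sum_sub (tl T (3 * Δ) w n F) (loss Δ L F) m
        have hle := core_sum_le (tl T (3 * Δ) w n F) m μ (fun a ha =>
          hm_le a (tl_mem T (3 * Δ) w R (by omega) (by omega) n F a ha).1)
        have hlen : ((tl T (3 * Δ) w n F).length : ℝ) ≤ t + w := by
          exact_mod_cast tl_length T (3 * Δ) w n F
        have hle2 : ((tl T (3 * Δ) w n F).length : ℝ) * μ ≤ (t + w) * μ :=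
          mul_le_mul_of_nonneg_right hlen hμ0
        show (w / 2 : ℝ) < ((tl T (3 * Δ) w n F).map (fun a => loss Δ L F a - m a)).sum
        rw [hd]
        linarith
      refine le_trans hpr (le_trans hch ?_)
      have hs' : ex (1 - q) E (fun F =>
          (((tl T (3 * Δ) w n F).map (fun a => g2 a F)).sum) ^ 2)
          ≤ (L + 1) * ((t + w) * (2 * (Δ + 1) ^ L * μ)) := by
        refine le_trans hs (le_of_eq ?_)
        push_cast
        ring
      have h4 : (4 : ℝ) * ((L + 1) * ((t + w) * (2 * (Δ + 1) ^ L * μ))) / w ^ 2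
          = ((L + 1) * ((t + w) * (2 * (Δ + 1) ^ L * μ))) / (w / 2) ^ 2 := by
        field_simp
        ring
      rw [h4]
      exact div_le_div_of_nonneg_right hs' (by positivity)
    · intro a F F' hF
      show loss Δ L F a - m a = loss Δ L F' a - m a
      have hdep : loss Δ L F a = loss Δ L F' a := core_loss_dep L a F F' hF
      rw [hdep]
    · intro a _
      show ex (1 - q) E (fun F => loss Δ L F a - m a) = 0
      rw [ex_sub (1 - q) E (fun F => loss Δ L F a) (fun _ => m a), ex_const]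
      exact sub_self _
  linarith

end Pool.Agent.Lib.MP_56e41f_co
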