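import Pool.Agent.Lib.MP_56e41f_co.Dep

open Finset

namespace Pool.Agent.Lib.MP_56e41f_co

variable {α : Type*} [DecidableEq α]

private lemma count_ind_forall {ι : Type*} [DecidableEq ι] (J : Finset ι) (P : ι → Prop) :
    ind (∀ i ∈ J, P i) = ∏ i ∈ J, ind (P i) := by
  induction J using Finset.induction_on with
  | empty => simp [ind]
  | insert a J ha ih =>
    rw [prod_insert ha, ← ih, ← ind_and]
    congr 1
    apply propext
    simp [forall_mem_insert]

private lemma count_dep_forall {ι : Type*} (J : Finset ι) (S : ι → Set α)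
    (P : ι → Finset α → Prop) (hP : ∀ i ∈ J, Dep (S i) (P i)) :
    Dep (⋃ i ∈ J, S i) (fun F => ∏ i ∈ J, ind (P i F)) := by
  intro F F' hF
  apply prod_congr rfl
  intro i hi
  have := hP i hi F F' (fun x hx => hF x (Set.mem_biUnion hi hx))
  rw [this]

open Classical in
/-- At least `m` of `|I|` independent events, together with a further independent event. -/
theorem pr_count_le {ι : Type*} [DecidableEq ι] {p : ℝ} (h0 : 0 ≤ p) (h1 : p ≤ 1) (E : Finset α)
    (I : Finset ι) (S : ι → Set α) (P : ι → Finset α → Prop) (S' : Set α) (Q : Finset α → Prop)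
    (hP : ∀ i ∈ I, Dep (S i) (P i)) (hQ : Dep S' Q)
    (h : ∀ i ∈ I, ∀ j ∈ I, i ≠ j → Disjoint (S i) (S j)) (h' : ∀ i ∈ I, Disjoint (S i) S')
    (r : ℝ) (hr0 : 0 ≤ r) (hr : ∀ i ∈ I, pr p E (P i) ≤ r) (m : ℕ) :
    pr p E (fun F => m ≤ (I.filter (fun i => P i F)).card ∧ Q F)
      ≤ 2 ^ I.card * r ^ m * pr p E Q := by
  have step1 : pr p E (fun F => m ≤ (I.filter (fun i => P i F)).card ∧ Q F) ≤
      ∑ J ∈ I.powersetCard m, ex p E (fun F => (∏ i ∈ J, ind (P i F)) * ind (Q F)) := by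
    unfold pr
    rw [← ex_sum]
    apply ex_mono h0 h1
    intro F _
    have h2 : ind (m ≤ (I.filter (fun i => P i F)).card ∧ Q F) ≤
        ind (∃ J ∈ I.powersetCard m, (∀ i ∈ J, P i F) ∧ Q F) := by
      apply ind_mono
      rintro ⟨h3, h4⟩
      obtain ⟨J, hJ, hJ2⟩ := Finset.exists_subset_card_eq h3
      refine ⟨J, ?_, ?_, h4⟩
      · rw [mem_powersetCard]
        exact ⟨hJ.trans (filter_subset _ _), hJ2⟩
      · intro i hi
        exact (mem_filter.mp (hJ hi)).2
    refine h2.trans ((ind_exists_le _ _).trans (le_of_eq ?_))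
    apply sum_congr rfl
    intro J _
    rw [ind_and, count_ind_forall]
  refine step1.trans ?_
  have step2 : ∀ J ∈ I.powersetCard m,
      ex p E (fun F => (∏ i ∈ J, ind (P i F)) * ind (Q F)) ≤ r ^ m * pr p E Q := by
    intro J hJ
    rw [mem_powersetCard] at hJ
    rw [ex_mul (S := ⋃ i ∈ J, S i) (S' := S') p E
      (count_dep_forall J S P (fun i hi => hP i (hJ.1 hi))) (hQ.comp ind) ?_,
      ex_prod p E J S (fun i F => ind (P i F)) (fun i hi => (hP i (hJ.1 hi)).comp ind)
        (fun i hi j hj => h i (hJ.1 hi) j (hJ.1 hj))]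
    · apply mul_le_mul_of_nonneg_right _ (pr_nonneg h0 h1 E Q)
      calc ∏ i ∈ J, ex p E (fun F => ind (P i F)) ≤ ∏ _i ∈ J, r :=
            prod_le_prod (fun i _ => pr_nonneg h0 h1 E (P i)) (fun i hi => hr i (hJ.1 hi))
        _ = r ^ m := by rw [prod_const, hJ.2]
    · rw [Set.disjoint_left]
      intro x hx hx2
      obtain ⟨i, hi, hxi⟩ := Set.mem_iUnion₂.mp hx
      exact Set.disjoint_left.mp (h' i (hJ.1 hi)) hxi hx2
  refine (sum_le_card_nsmul _ _ _ step2).trans ?_
  rw [nsmul_eq_mul, card_powersetCard, mul_assoc]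
  apply mul_le_mul_of_nonneg_right
  · exact_mod_cast Nat.choose_le_two_pow I.card m
  · exact mul_nonneg (pow_nonneg hr0 m) (pr_nonneg h0 h1 E Q)

end Pool.Agent.Lib.MP_56e41f_co
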