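import Mathlib

/-!
# Definitions for MP_56e41f_co (trees in random subgraphs)

* `ex p E f` : expectation of `f F` over a random subset `F` of `E` (every element is kept
  independently with probability `p`).
* `TD` : rooted tree data in breadth-first order.
* `St`, `step`, `run` : the embedding machine driven by a set `F` of successful labels.
* `val` : failure probability of the machine when its bits are fresh.
-/

open Finset

namespace Pool.Agent.Lib.MP_56e41f_co

/-! ## Random subsets -/

/-- Expectation of `f F` for a random subset `F` of `E`. -/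
noncomputable def ex {α : Type*} [DecidableEq α] (p : ℝ) (E : Finset α) (f : Finset α → ℝ) : ℝ :=
  ∑ F ∈ E.powerset, p ^ F.card * (1 - p) ^ (E.card - F.card) * f F

open Classical in
/-- Indicator of a proposition, as a real number. -/
noncomputable def ind (P : Prop) : ℝ := if P then 1 else 0

/-- Probability of the event `P F` for a random subset `F` of `E`. -/
noncomputable def pr {α : Type*} [DecidableEq α] (p : ℝ) (E : Finset α)
    (P : Finset α → Prop) : ℝ :=
  ex p E (fun F => ind (P F))

/-- `f` only looks at the membership of elements of `S`. -/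
def Dep {α β : Type*} (S : Set α) (f : Finset α → β) : Prop :=
  ∀ F F' : Finset α, (∀ x ∈ S, (x ∈ F ↔ x ∈ F')) → f F = f F'

/-! ## Trees -/

/-- Rooted tree on `Fin t` (root `0`), listed in order of depth, with at most `Δ` children at every
vertex. -/
structure TD (t Δ : ℕ) where
  par : Fin t → Fin t
  dep : Fin t → ℕ
  mono : ∀ i j, i ≤ j → dep i ≤ dep j
  dep_zero : ∀ i, dep i = 0 ↔ i.val = 0
  dep_par : ∀ i, i.val ≠ 0 → dep (par i) + 1 = dep i
  par_zero : ∀ i, i.val = 0 → par i = i
  deg : ∀ u, (univ.filter (fun v : Fin t => v.val ≠ 0 ∧ par v = u)).card ≤ Δ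

/-- `z` is a descendant of `u` (or `u` itself). -/
def TD.desc {t Δ : ℕ} (T : TD t Δ) (u z : Fin t) : Prop := ∃ k : ℕ, T.par^[k] z = u

/-! ## The machine -/

/-- Labels of images: `[r]` is the `r`-th image of the root, `i :: a` is the image obtained from
slot `i` of the label `a`. -/
abbrev Lab := List ℕ

/-- Record of an image: its label, the number of slots used so far, and the largest depth of a
vertex placed since this image was placed. -/
structure Nd where
  lab : Lab
  asks : ℕ
  lev : ℕ

/-- State of the machine. -/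
structure St (t : ℕ) where
  /-- images of the embedded vertices -/
  f : Fin t → Option Nd
  /-- labels used so far, most recent first -/
  tch : List Lab
  /-- number of images of the root used so far -/
  roots : ℕ

/-- Number of embedded vertices. -/
def St.alive {t : ℕ} (s : St t) : ℕ := (univ.filter (fun i => (s.f i).isSome)).card

/-- Number of lost images. -/
def St.dead {t : ℕ} (s : St t) : ℕ := s.tch.length - s.alive

/-- The first vertex which is not embedded. -/
def St.nxt {t : ℕ} (s : St t) : Option (Fin t) :=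
  (List.finRange t).find? (fun i => (s.f i).isNone)

/-- Record that a vertex of depth `e` has been placed. -/
def bump {t : ℕ} (e : ℕ) (f : Fin t → Option Nd) : Fin t → Option Nd :=
  fun i => (f i).map (fun x => ⟨x.lab, x.asks, max x.lev e⟩)

/-- Place a new image of the root. -/
def placeRoot {t : ℕ} (s : St t) (v : Fin t) : St t :=
  ⟨Function.update (bump 0 s.f) v (some ⟨[s.roots], 0, 0⟩), [s.roots] :: s.tch, s.roots + 1⟩

/-- Successful request: `v` is placed below `u`, whose record is `x`. -/
def succSt {t Δ : ℕ} (T : TD t Δ) (s : St t) (v u : Fin t) (x : Nd) : St t :=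
  ⟨Function.update
      (bump (T.dep v) (Function.update s.f u (some ⟨x.lab, x.asks + 1, x.lev⟩))) v
      (some ⟨x.asks :: x.lab, 0, T.dep v⟩),
    (x.asks :: x.lab) :: s.tch, s.roots⟩

/-- Failed request at `u`, whose record is `x`. -/
def failSt {t : ℕ} (s : St t) (u : Fin t) (x : Nd) : St t :=
  ⟨Function.update s.f u (some ⟨x.lab, x.asks + 1, x.lev⟩), s.tch, s.roots⟩

open Classical in
/-- Remove `u` and its descendants. -/
noncomputable def remSt {t Δ : ℕ} (T : TD t Δ) (s : St t) (u : Fin t) : St t :=
  ⟨fun z => if T.desc u z then none else s.f z, s.tch, s.roots⟩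

/-- Possible actions. -/
inductive Act (t : ℕ) where
  | stop : Act t
  | root : Fin t → Act t
  | ask : Fin t → Fin t → Nd → Act t
  | rem : Fin t → Act t

/-- The next action. `B` is the number of slots of a label, `w` the number of images that may be
lost. -/
def act {t Δ : ℕ} (T : TD t Δ) (B w : ℕ) (s : St t) : Act t :=
  match s.nxt with
  | none => Act.stop
  | some v =>
    if w < s.dead then Act.stop
    else if v.val = 0 then Act.root v
    else match s.f (T.par v) with
      | none => Act.stop
      | some x => if x.asks < B then Act.ask v (T.par v) x else Act.rem (T.par v)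

/-- One step of the machine; the slot `i` of the label `a` is successful iff `i :: a ∈ F`. -/
noncomputable def step {t Δ : ℕ} (T : TD t Δ) (B w : ℕ) (F : Finset Lab) (s : St t) : St t :=
  match act T B w s with
  | Act.stop => s
  | Act.root v => placeRoot s v
  | Act.ask v u x => if x.asks :: x.lab ∈ F then succSt T s v u x else failSt s u x
  | Act.rem u => remSt T s u

/-- `n` steps of the machine. -/
noncomputable def run {t Δ : ℕ} (T : TD t Δ) (B w : ℕ) (F : Finset Lab) : ℕ → St t → St t
  | 0, s => s
  | n + 1, s => run T B w F n (step T B w F s)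

/-- Probability that the machine, started at `s` with fresh bits (success probability `1 - q`),
has not embedded the whole tree after `n` steps. -/
noncomputable def val {t Δ : ℕ} (T : TD t Δ) (B w : ℕ) (q : ℝ) : ℕ → St t → ℝ
  | 0, s => ind (s.nxt ≠ none)
  | n + 1, s =>
    match act T B w s with
    | Act.stop => ind (s.nxt ≠ none)
    | Act.root v => val T B w q n (placeRoot s v)
    | Act.ask v u x =>
        (1 - q) * val T B w q n (succSt T s v u x) + q * val T B w q n (failSt s u x)
    | Act.rem u => val T B w q n (remSt T s u)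

/-- The initial state. -/
def init (t : ℕ) : St t := ⟨fun _ => none, [], 0⟩

/-! ## Bad labels and chains -/

open Classical in
/-- `bad Δ F M a` : at least `2Δ+1` of the `3Δ` slots of `a` fail or (for `M > 0`) lead to labels
which are bad at height `M - 1`. -/
def bad (Δ : ℕ) (F : Finset Lab) : ℕ → Lab → Prop
  | 0, a => 2 * Δ + 1 ≤ ((range (3 * Δ)).filter (fun i => i :: a ∉ F)).card
  | M + 1, a => 2 * Δ + 1 ≤ ((range (3 * Δ)).filter (fun i => i :: a ∉ F ∨ bad Δ F M (i :: a))).card

/-- Chains of bad labels. -/
def chn (Δ : ℕ) (F : Finset Lab) : ℕ → Lab → Prop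
  | 0, a => bad Δ F 0 a
  | 1, a => bad Δ F 1 a
  | M + 2, a => bad Δ F (M + 2) a ∧ ∃ i < 3 * Δ, chn Δ F (M + 1) (i :: a)

/-- Labels strictly below `a`. -/
def Below (a : Lab) : Set Lab := {l | a <:+ l ∧ l ≠ a}

/-- Labels strictly below `a`, at relative depth at most `r`. -/
def BelowR (a : Lab) (r : ℕ) : Set Lab := {l | a <:+ l ∧ l ≠ a ∧ l.length ≤ a.length + r}

/-- All labels of length at most `Λ` with entries less than `R`. -/
def labs (R : ℕ) : ℕ → Finset Lab
  | 0 => {[]}
  | n + 1 => insert [] ((Finset.range R ×ˢ labs R n).image (fun x => x.1 :: x.2))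

/-- The loss attributed to a label. -/
noncomputable def loss (Δ L : ℕ) (F : Finset Lab) (a : Lab) : ℝ :=
  ∑ M ∈ range (L + 1), ((Δ : ℝ) + 1) ^ M * ind (chn Δ F M a)

/-- The labels used in a run, in order of use. -/
noncomputable def tl {t Δ : ℕ} (T : TD t Δ) (B w N : ℕ) (F : Finset Lab) : List Lab :=
  (run T B w F N (init t)).tch.reverse

/-! ## Invariants -/

/-- Structural invariants of the states of the machine (independent of the bits). -/
structure Str {t Δ : ℕ} (T : TD t Δ) (B : ℕ) (s : St t) : Prop where
  /-- labels of embedded vertices have been used and have the right length -/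
  lab : ∀ i x, s.f i = some x → x.lab ∈ s.tch ∧ x.lab.length = T.dep i + 1 ∧ x.asks ≤ B ∧
    T.dep i ≤ x.lev ∧ x.lev ≤ t
  /-- parents of embedded vertices are embedded -/
  par : ∀ i x, s.f i = some x → i.val ≠ 0 →
    ∃ y j, s.f (T.par i) = some y ∧ x.lab = j :: y.lab ∧ j < y.asks ∧ x.lev ≤ y.lev
  /-- labels of embedded vertices are distinct -/
  inj : ∀ i i' x x', s.f i = some x → s.f i' = some x' → x.lab = x'.lab → i = i'
  nodup : s.tch.Nodup
  nonnil : [] ∉ s.tch
  rootlab : ∀ r, [r] ∈ s.tch → r < s.roots
  /-- used labels are closed under passing to the parent label -/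
  closed : ∀ j a, j :: a ∈ s.tch → a ≠ [] → a ∈ s.tch
  /-- used slots of embedded labels -/
  slot : ∀ i x j, s.f i = some x → j :: x.lab ∈ s.tch → j < x.asks
  slotB : ∀ j a, j :: a ∈ s.tch → a ≠ [] → j < B
  len : ∀ a ∈ s.tch, a.length ≤ t
  alive_le : s.alive ≤ s.tch.length
  rootsle : s.roots ≤ s.tch.length

/-- Bit-dependent invariants (for `B = 3Δ`). -/
structure Led {t Δ : ℕ} (T : TD t Δ) (F : Finset Lab) (s : St t) : Prop where
  /-- used slots of embedded labels: failed, alive or bad -/
  slots : ∀ i x, s.f i = some x → ∀ j < x.asks,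
    (j :: x.lab ∉ F) ∨ (∃ i' x', i'.val ≠ 0 ∧ T.par i' = i ∧ s.f i' = some x' ∧
      x'.lab = j :: x.lab) ∨
    (T.dep i < x.lev ∧ bad Δ F (x.lev - T.dep i - 1) (j :: x.lab))
  /-- chains below embedded labels -/
  chain : ∀ i x, s.f i = some x → T.dep i + 2 ≤ x.lev →
    (∃ j < 3 * Δ, chn Δ F (x.lev - T.dep i - 1) (j :: x.lab)) ∨
    (∀ v, v.val ≠ 0 → T.par v = i → ∃ y, s.f v = some y ∧ y.lev = x.lev)
  /-- embedded vertices below `i` are not deeper than `x.lev` -/
  deep : ∀ i x z y, s.f i = some x → s.f z = some y → T.desc i z → T.dep z ≤ x.lev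
  /-- ledger of removed labels -/
  rem : ∃ R : List (Lab × ℕ), (R.map Prod.fst).Nodup ∧
    (∀ c ∈ R, c.1 ∈ s.tch ∧ c.2 ≤ t ∧ chn Δ F c.2 c.1 ∧ ∀ i x, s.f i = some x → x.lab ≠ c.1) ∧
    s.dead ≤ (R.map (fun c => (Δ + 1) ^ c.2)).sum

/-- Labels that have been read or can never be read again. -/
def consumed {t : ℕ} (s : St t) : Set Lab :=
  {l | ∃ j a, l = j :: a ∧ a ∈ s.tch ∧ ∀ i x, s.f i = some x → x.lab = a → j < x.asks}

/-! ## Hosts -/

/-- `F` contains an embedded copy of the tree. -/
def Emb {V : Type*} {t Δ : ℕ} (T : TD t Δ) (F : Finset (Sym2 V)) : Prop :=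
  ∃ φ : Fin t → V, Function.Injective φ ∧ ∀ i, i.val ≠ 0 → s(φ (T.par i), φ i) ∈ F

/-- Host with classes `C v` of allowed images: as long as at most `w` further vertices are
blocked, there is a free place for the root and there are `m` free neighbours for a child. -/
structure Host {V : Type*} [Fintype V] [DecidableEq V] {t Δ : ℕ} (T : TD t Δ)
    (E : Finset (Sym2 V)) (C : Fin t → Finset V) (w m : ℕ) : Prop where
  root : ∀ (S : Finset (Fin t)) (φ : Fin t → V) (D : Finset V), Set.InjOn φ S →
    (∀ i ∈ S, φ i ∈ C i) → D.card ≤ w → ∀ v ∉ S, v.val = 0 →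
      (C v \ (S.image φ ∪ D)).Nonempty
  avail : ∀ (S : Finset (Fin t)) (φ : Fin t → V) (D : Finset V), Set.InjOn φ S →
    (∀ i ∈ S, φ i ∈ C i) → D.card ≤ w → ∀ v ∉ S, v.val ≠ 0 → T.par v ∈ S →
      m ≤ ((C v \ (S.image φ ∪ D)).filter (fun z => s(φ (T.par v), z) ∈ E)).card
  loopless : ∀ x : V, s(x, x) ∉ E

end Pool.Agent.Lib.MP_56e41f_co
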