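import Pool.Agent.Lib.MP_56e41f_co.Ex

open Finset

namespace Pool.Agent.Lib.MP_56e41f_co

private lemma expose_sdiff {α : Type*} [DecidableEq α] (E : Finset α) (e : α) (l : List α) :
    (E.erase e) \ l.toFinset = E \ (e :: l).toFinset := by
  ext x
  simp only [mem_sdiff, mem_erase, List.toFinset_cons, mem_insert, List.mem_toFinset]
  tauto

/-- Exposing the edges of `l` one after the other until the first success. -/
theorem expose {α : Type*} [DecidableEq α] {p : ℝ} (h0 : 0 ≤ p) (h1 : p ≤ 1) (E : Finset α)
    (g : Finset α → ℝ) (l : List α) (hn : l.Nodup) (hl : ∀ e ∈ l, e ∈ E) (A : Finset α) (a b : ℝ)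
    (hs : ∀ (k : ℕ) (hk : k < l.length),
      ex p (E \ (l.take (k + 1)).toFinset) (fun F => g (insert l[k] A ∪ F)) ≤ a)
    (hf : ex p (E \ l.toFinset) (fun F => g (A ∪ F)) ≤ b) :
    ex p E (fun F => g (A ∪ F)) ≤ (1 - (1 - p) ^ l.length) * a + (1 - p) ^ l.length * b := by
  induction l generalizing E with
  | nil =>
    simp only [List.toFinset_nil, sdiff_empty] at hf
    simpa using hf
  | cons e l ih =>
    have he : e ∈ E := hl e List.mem_cons_self
    rw [ex_erase p E e he]
    have hne : e ∉ l := (List.nodup_cons.mp hn).1
    have i1 : ex p (E.erase e) (fun F => g (A ∪ insert e F)) ≤ a := by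
      have h2 := hs 0 (by simp)
      have h3 : (E \ ((e :: l).take (0 + 1)).toFinset) = E.erase e := by
        ext x
        simp only [zero_add, List.take_succ_cons, List.take_zero, List.toFinset_cons,
          List.toFinset_nil, mem_sdiff, mem_insert, mem_erase, notMem_empty, or_false]
        tauto
      rw [h3] at h2
      have h4 : (fun F : Finset α => g (A ∪ insert e F)) = fun F => g (insert (e :: l)[0] A ∪ F) := by
        funext F
        congr 1
        ext x
        simp only [List.getElem_cons_zero, mem_union, mem_insert]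
        tauto
      rw [h4]
      exact h2
    have i2 := ih (E.erase e) (List.nodup_cons.mp hn).2
      (fun x hx => mem_erase.mpr ⟨fun h => hne (h ▸ hx), hl x (List.mem_cons_of_mem _ hx)⟩)
      (fun k hk => by
        have h2 := hs (k + 1) (by simpa using hk)
        rw [List.take_succ_cons, ← expose_sdiff] at h2
        simpa using h2)
      (by
        rw [expose_sdiff]
        exact hf)
    have hp : 0 ≤ 1 - p := by linarith
    have h5 := mul_le_mul_of_nonneg_left i1 h0
    have h6 := mul_le_mul_of_nonneg_left i2 hp
    rw [List.length_cons]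
    calc p * ex p (E.erase e) (fun F => g (A ∪ insert e F)) +
          (1 - p) * ex p (E.erase e) (fun F => g (A ∪ F)) ≤
        p * a + (1 - p) * ((1 - (1 - p) ^ l.length) * a + (1 - p) ^ l.length * b) :=
          add_le_add h5 h6
      _ = _ := by rw [pow_succ]; ring

end Pool.Agent.Lib.MP_56e41f_co
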