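import Pool.Agent.Lib.MP_56e41f_co.PrBad

open Finset

namespace Pool.Agent.Lib.MP_56e41f_co

variable (Δ : ℕ)

/-- bound for chains -/
theorem pr_chn (q : ℝ) (hq0 : 0 ≤ q) (hq : 64 * q ^ 2 ≤ 1) (R Λ : ℕ) (hR : 3 * Δ ≤ R) (M : ℕ)
    (a : Lab) (ha : a ∈ labs R (Λ - (M + 1))) (hM : M + 1 ≤ Λ) :
    pr (1 - q) (labs R Λ) (fun F => chn Δ F M a)
      ≤ (32 * q ^ 2) ^ Δ * (3 * Δ * (32 * q ^ 2) ^ Δ) ^ (M - 1) := by
  classical
  have hq8 : q ≤ 1 / 8 := by nlinarith
  have hp0 : (0 : ℝ) ≤ 1 - q := by linarith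
  have hp1 : (1 : ℝ) - q ≤ 1 := by linarith
  have hpow0 : 0 ≤ (32 * q ^ 2) ^ Δ := by positivity
  induction M generalizing a with
  | zero =>
    simpa [chn] using (pr_bad Δ q hq0 hq R Λ hR 0 a ha hM).2
  | succ M ih =>
    cases M with
    | zero =>
      simpa [chn] using (pr_bad Δ q hq0 hq R Λ hR 1 a ha hM).2
    | succ M =>
      -- the events
      have hr : ∀ i ∈ range (3 * Δ),
          pr (1 - q) (labs R Λ) (fun F => i :: a ∉ F ∨ bad Δ F (M + 1) (i :: a)) ≤ 2 * q := by
        intro i hi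
        have h1 := pr_or_le hp0 hp1 (labs R Λ) (fun F => i :: a ∉ F)
          (fun F => bad Δ F (M + 1) (i :: a))
        have h2 := prbad_slot Δ q R Λ hR (M + 1 + 1) a ha hM i hi
        have h3 : i :: a ∈ labs R (Λ - (M + 1 + 1)) := by
          have h4 := prbad_cons_mem ha (lt_of_lt_of_le (Finset.mem_range.1 hi) hR)
          exact prbad_labs_mono (by omega) h4
        have h5 := (pr_bad Δ q hq0 hq R Λ hR (M + 1) (i :: a) h3 (by omega)).1
        linarith
      have hstep : ∀ i ∈ range (3 * Δ),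
          pr (1 - q) (labs R Λ) (fun F =>
            2 * Δ ≤ (((range (3 * Δ)).erase i).filter
              (fun i => i :: a ∉ F ∨ bad Δ F (M + 1) (i :: a))).card ∧ chn Δ F (M + 1) (i :: a))
          ≤ (32 * q ^ 2) ^ Δ *
            ((32 * q ^ 2) ^ Δ * (3 * Δ * (32 * q ^ 2) ^ Δ) ^ M) := by
        intro i hi
        have h := pr_count_le hp0 hp1 (labs R Λ) ((range (3 * Δ)).erase i)
          (fun i => {l : Lab | (i :: a) <:+ l})
          (fun i F => i :: a ∉ F ∨ bad Δ F (M + 1) (i :: a)) {l : Lab | (i :: a) <:+ l}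
          (fun F => chn Δ F (M + 1) (i :: a))
          (fun j _ => prbad_or_dep Δ j a (M + 1))
          (Dep.mono (chn_dep Δ (M + 1) (i :: a)) (prbad_belowR i a _))
          (fun j _ k _ hjk => prbad_disj a j k hjk)
          (fun j hj => prbad_disj a j i (Finset.ne_of_mem_erase hj)) (2 * q)
          (by positivity) (fun j hj => hr j (Finset.mem_of_mem_erase hj)) (2 * Δ)
        refine le_trans (pr_mono hp0 hp1 _ ?_) (h.trans ?_)
        · rintro F _ ⟨hb, hc⟩
          refine ⟨?_, hc⟩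
          convert hb
        have h3 : i :: a ∈ labs R (Λ - (M + 1 + 1)) := by
          have h4 := prbad_cons_mem ha (lt_of_lt_of_le (Finset.mem_range.1 hi) hR)
          exact prbad_labs_mono (by omega) h4
        have h5 := ih (i :: a) h3 (by omega)
        rw [Nat.add_sub_cancel] at h5
        have hcard : ((range (3 * Δ)).erase i).card ≤ 3 * Δ := by
          refine (Finset.card_erase_le).trans ?_
          rw [Finset.card_range]
        have h6 : (2 : ℝ) ^ ((range (3 * Δ)).erase i).card * (2 * q) ^ (2 * Δ) ≤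
            (32 * q ^ 2) ^ Δ := by
          calc (2 : ℝ) ^ ((range (3 * Δ)).erase i).card * (2 * q) ^ (2 * Δ)
              ≤ (2 : ℝ) ^ (3 * Δ) * (2 * q) ^ (2 * Δ) :=
                mul_le_mul_of_nonneg_right (pow_le_pow_right₀ (by norm_num) hcard) (by positivity)
            _ = (32 * q ^ 2) ^ Δ := by
              have e1 : (32 : ℝ) * q ^ 2 = 2 ^ 3 * (2 * q) ^ 2 := by ring
              rw [e1, mul_pow (2 ^ 3) ((2 * q) ^ 2), ← pow_mul, ← pow_mul]
        exact mul_le_mul h6 h5 (pr_nonneg hp0 hp1 _ _) hpow0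
      have hle : pr (1 - q) (labs R Λ) (fun F => chn Δ F (M + 2) a) ≤
          ∑ i ∈ range (3 * Δ), pr (1 - q) (labs R Λ) (fun F =>
            2 * Δ ≤ (((range (3 * Δ)).erase i).filter
              (fun i => i :: a ∉ F ∨ bad Δ F (M + 1) (i :: a))).card ∧
              chn Δ F (M + 1) (i :: a)) := by
        unfold pr
        rw [← ex_sum]
        apply ex_mono hp0 hp1
        intro F _
        refine le_trans (ind_mono ?_) (ind_exists_le (range (3 * Δ)) _)
        rintro ⟨hb, i, hi, hc⟩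
        refine ⟨i, Finset.mem_range.2 hi, ?_, hc⟩
        have hb' : 2 * Δ + 1 ≤ ((range (3 * Δ)).filter
            (fun i => i :: a ∉ F ∨ bad Δ F (M + 1) (i :: a))).card := by
          simp only [bad] at hb ⊢
          convert hb
        rw [Finset.filter_erase]
        have := Finset.pred_card_le_card_erase (s := (range (3 * Δ)).filter
            (fun i => i :: a ∉ F ∨ bad Δ F (M + 1) (i :: a))) (a := i)
        omega
      refine hle.trans ?_
      calc ∑ i ∈ range (3 * Δ), pr (1 - q) (labs R Λ) (fun F =>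
            2 * Δ ≤ (((range (3 * Δ)).erase i).filter
              (fun i => i :: a ∉ F ∨ bad Δ F (M + 1) (i :: a))).card ∧
              chn Δ F (M + 1) (i :: a))
          ≤ ∑ i ∈ range (3 * Δ), (32 * q ^ 2) ^ Δ *
            ((32 * q ^ 2) ^ Δ * (3 * Δ * (32 * q ^ 2) ^ Δ) ^ M) := Finset.sum_le_sum hstep
        _ = (32 * q ^ 2) ^ Δ * (3 * Δ * (32 * q ^ 2) ^ Δ) ^ (M + 1 + 1 - 1) := by
          rw [Finset.sum_const, Finset.card_range, nsmul_eq_mul, Nat.add_sub_cancel, pow_succ]
          push_cast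
          ring

end Pool.Agent.Lib.MP_56e41f_co
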