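import Pool.Agent.Lib.MP_56e41f_co.Mach
import Pool.Agent.Lib.MP_56e41f_co.Tree

open Finset

namespace Pool.Agent.Lib.MP_56e41f_co

variable {t Δ : ℕ} (T : TD t Δ) (B w : ℕ)

theorem leda_bad_succ (F : Finset Lab) (M : ℕ) : ∀ a : Lab, bad Δ F M a → bad Δ F (M + 1) a := by
  classical
  induction M with
  | zero =>
    intro a hb
    unfold bad at hb ⊢
    refine hb.trans (Finset.card_le_card ?_)
    intro i hi
    rw [Finset.mem_filter] at hi ⊢
    exact ⟨hi.1, Or.inl hi.2⟩
  | succ M ih =>
    intro a hb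
    rw [bad] at hb ⊢
    refine hb.trans (Finset.card_le_card ?_)
    intro i hi
    rw [Finset.mem_filter] at hi ⊢
    exact ⟨hi.1, hi.2.imp id (ih _)⟩

theorem bad_mono (F : Finset Lab) {M M' : ℕ} (h : M ≤ M') (a : Lab) (hb : bad Δ F M a) :
    bad Δ F M' a := by
  induction M', h using Nat.le_induction with
  | base => exact hb
  | succ n _ ih => exact leda_bad_succ F n a ih

theorem Led_init (F : Finset Lab) : Led (Δ := Δ) T F (init t) := by
  refine ⟨?_, ?_, ?_, ?_⟩
  · intro i x hx
    simp [init] at hx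
  · intro i x hx
    simp [init] at hx
  · intro i x z y hx
    simp [init] at hx
  · refine ⟨[], by simp, by simp, ?_⟩
    simp [St.dead, init]

theorem leda_all_none (s : St t) (v : Fin t) (h : Str T B s) (hv : v.val = 0)
    (hn : s.f v = none) : ∀ i, s.f i = none := by
  have key : ∀ n : ℕ, ∀ i : Fin t, i.val = n → s.f i = none := by
    intro n
    induction n using Nat.strong_induction_on with
    | _ n ih =>
      intro i hi
      by_cases h0 : i.val = 0
      · have : i = v := Fin.ext (h0.trans hv.symm)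
        rw [this]
        exact hn
      · by_contra hne
        obtain ⟨x, hx⟩ := Option.ne_none_iff_exists'.1 hne
        obtain ⟨y, j, hy, _⟩ := h.par i x hx h0
        have hlt : (T.par i).val < n := by
          have := T.par_lt i h0
          rw [← hi]
          exact this
        rw [ih _ hlt _ rfl] at hy
        exact absurd hy (by simp)
  exact fun i => key _ i rfl

theorem Led_root (F : Finset Lab) (s : St t) (v : Fin t) (h : Str T (3 * Δ) s) (hl : Led T F s)
    (ha : act T (3 * Δ) w s = Act.root v) : Led T F (placeRoot s v) := by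
  obtain ⟨hnx, _, hv0⟩ := act_root T (3 * Δ) w ha
  have hvn := (nxt_eq_some hnx).1
  have hall := leda_all_none T (3 * Δ) s v h hv0 hvn
  have hf : ∀ i x, (placeRoot s v).f i = some x → i = v ∧ x = ⟨[s.roots], 0, 0⟩ := by
    intro i x hx
    unfold placeRoot at hx
    simp only at hx
    by_cases hi : i = v
    · subst hi
      rw [Function.update_self] at hx
      exact ⟨rfl, (Option.some.inj hx).symm⟩
    · rw [Function.update_of_ne hi] at hx
      simp [bump, hall i] at hx
  have hd : (placeRoot s v).dead = s.dead := by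
    unfold St.dead
    rw [alive_placeRoot s v hvn]
    simp [placeRoot]
  refine ⟨?_, ?_, ?_, ?_⟩
  · intro i x hx j hj
    obtain ⟨_, rfl⟩ := hf i x hx
    simp at hj
  · intro i x hx h2
    obtain ⟨_, rfl⟩ := hf i x hx
    simp at h2
  · intro i x z y hx hz _
    obtain ⟨_, rfl⟩ := hf i x hx
    obtain ⟨rfl, _⟩ := hf z y hz
    have := (T.dep_zero z).2 hv0
    simp [this]
  · obtain ⟨R, hnd, hR, hdead⟩ := hl.rem
    refine ⟨R, hnd, ?_, ?_⟩
    · intro c hc
      obtain ⟨h1, h2, h3, _⟩ := hR c hc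
      refine ⟨?_, h2, h3, ?_⟩
      · simp [placeRoot, h1]
      · intro i x hx heq
        obtain ⟨_, rfl⟩ := hf i x hx
        simp only at heq
        have := h.rootlab s.roots (heq ▸ h1)
        exact absurd this (lt_irrefl _)
    · rw [hd]
      exact hdead

theorem Led_fail (F : Finset Lab) (s : St t) (v u : Fin t) (x : Nd) (h : Str T (3 * Δ) s)
    (hl : Led T F s) (ha : act T (3 * Δ) w s = Act.ask v u x) (hF : x.asks :: x.lab ∉ F) :
    Led T F (failSt s u x) := by
  obtain ⟨hnx, _, hv0, hu, hx, hB⟩ := act_ask T (3 * Δ) w ha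
  -- old record to new record
  have h1 : ∀ i y, s.f i = some y → ∃ y', (failSt s u x).f i = some y' ∧ y'.lab = y.lab ∧
      y'.lev = y.lev := by
    intro i y hy
    by_cases hi : i = u
    · subst hi
      rw [hx] at hy
      obtain rfl := Option.some.inj hy
      exact ⟨⟨x.lab, x.asks + 1, x.lev⟩, by simp [failSt], rfl, rfl⟩
    · exact ⟨y, by simp [failSt, Function.update_of_ne hi, hy], rfl, rfl⟩
  have h2 : ∀ i y', (failSt s u x).f i = some y' → ∃ y, s.f i = some y ∧ y'.lab = y.lab ∧
      y'.lev = y.lev ∧ (y'.asks = y.asks ∨ (i = u ∧ y = x ∧ y'.asks = x.asks + 1)) := by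
    intro i y' hy'
    by_cases hi : i = u
    · subst hi
      simp only [failSt, Function.update_self] at hy'
      obtain rfl := Option.some.inj hy'
      exact ⟨x, hx, rfl, rfl, Or.inr ⟨rfl, rfl, rfl⟩⟩
    · simp only [failSt, Function.update_of_ne hi] at hy'
      exact ⟨y', hy', rfl, rfl, Or.inl rfl⟩
  have hd : (failSt s u x).dead = s.dead := by
    unfold St.dead
    rw [alive_failSt s u x hx]
    simp [failSt]
  refine ⟨?_, ?_, ?_, ?_⟩
  · intro i y' hy' j hj
    obtain ⟨y, hy, hlab, hlev, hask⟩ := h2 i y' hy'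
    have hold : j < y.asks → (j :: y'.lab ∉ F) ∨
        (∃ i' x', i'.val ≠ 0 ∧ T.par i' = i ∧ (failSt s u x).f i' = some x' ∧
          x'.lab = j :: y'.lab) ∨
        (T.dep i < y'.lev ∧ bad Δ F (y'.lev - T.dep i - 1) (j :: y'.lab)) := by
      intro hj'
      rw [hlab, hlev]
      rcases hl.slots i y hy j hj' with h3 | ⟨i', x', hi0, hp, hi', hl'⟩ | h3
      · exact Or.inl h3
      · right; left
        obtain ⟨x'', hx'', hlab'', _⟩ := h1 i' x' hi'
        exact ⟨i', x'', hi0, hp, hx'', hlab''.trans hl'⟩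
      · exact Or.inr (Or.inr h3)
    rcases hask with hask | ⟨hiu, hyx, hask⟩
    · exact hold (hask ▸ hj)
    · rcases Nat.lt_succ_iff_lt_or_eq.1 (hask ▸ hj) with h3 | h3
      · exact hold (hyx ▸ h3)
      · left
        rw [hlab, hyx, h3]
        exact hF
  · intro i y' hy' hdep
    obtain ⟨y, hy, hlab, hlev, _⟩ := h2 i y' hy'
    rw [hlab, hlev]
    rw [hlev] at hdep
    rcases hl.chain i y hy hdep with h3 | h3
    · exact Or.inl h3
    · right
      intro v hv hp
      obtain ⟨z, hz, hzl⟩ := h3 v hv hp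
      obtain ⟨z', hz', _, hzl'⟩ := h1 v z hz
      exact ⟨z', hz', hzl'.trans hzl⟩
  · intro i y' z z' hy' hz' hdesc
    obtain ⟨y, hy, _, hlev, _⟩ := h2 i y' hy'
    obtain ⟨y2, hy2, _, _, _⟩ := h2 z z' hz'
    rw [hlev]
    exact hl.deep i y z y2 hy hy2 hdesc
  · obtain ⟨R, hnd, hR, hdead⟩ := hl.rem
    refine ⟨R, hnd, ?_, ?_⟩
    · intro c hc
      obtain ⟨g1, g2, g3, g4⟩ := hR c hc
      refine ⟨?_, g2, g3, ?_⟩
      · simpa [failSt] using g1
      · intro i y' hy' heq
        obtain ⟨y, hy, hlab, _, _⟩ := h2 i y' hy'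
        exact g4 i y hy (hlab.symm.trans heq)
    · rw [hd]
      exact hdead

end Pool.Agent.Lib.MP_56e41f_co
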