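import Pool.Agent.Lib.MP_56e41f_co.LedA

open Finset

namespace Pool.Agent.Lib.MP_56e41f_co

variable {t Δ : ℕ} (T : TD t Δ) (B w : ℕ)

open Classical in
private lemma ledChain_cover (Al Bd : Finset ℕ) (hAl : Al.card + 1 ≤ Δ)
    (hcov : ∀ j < 3 * Δ, j ∈ Al ∨ j ∈ Bd) : 2 * Δ + 1 ≤ Bd.card := by
  have h1 : (range (3 * Δ)).card ≤ (Al ∪ Bd).card := by
    apply card_le_card
    intro j hj
    rw [mem_range] at hj
    rw [mem_union]
    exact hcov j hj
  rw [card_range] at h1
  have h2 := card_union_le Al Bd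
  omega

/-- the chain at a removed label -/
theorem Led_chain (F : Finset Lab) (s : St t) (u : Fin t) (x : Nd) (h : Str T (3 * Δ) s)
    (hl : Led T F s) (ha : act T (3 * Δ) w s = Act.rem u) (hx : s.f u = some x) :
    chn Δ F (x.lev - T.dep u) x.lab := by
  classical
  obtain ⟨v, x', hv, -, hv0, huv, hx', hB⟩ := act_rem T (3 * Δ) w ha
  have hxx : x' = x := by
    rw [hx] at hx'
    exact (Option.some.inj hx').symm
  subst hxx
  have hvn := (nxt_eq_some hv).1
  obtain ⟨-, -, hasks, hdl, -⟩ := h.lab u x' hx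
  have hasks' : x'.asks = 3 * Δ := le_antisymm hasks hB
  -- the slots that lead to embedded children
  set P : ℕ → Fin t → Prop := fun j i' => i'.val ≠ 0 ∧ T.par i' = u ∧
    ∃ y, s.f i' = some y ∧ y.lab = j :: x'.lab with hP
  set Al : Finset ℕ := (range (3 * Δ)).filter (fun j => ∃ i', P j i') with hAldef
  have hAl : Al.card + 1 ≤ Δ := by
    let g : ℕ → Fin t := fun j => if hj : ∃ i', P j i' then hj.choose else v
    have hg : ∀ j ∈ Al, P j (g j) := by
      intro j hj
      have hj' : ∃ i', P j i' := (mem_filter.mp hj).2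
      simp only [g, dif_pos hj']
      exact hj'.choose_spec
    set Ch := univ.filter (fun v' : Fin t => v'.val ≠ 0 ∧ T.par v' = u) with hCh
    have hvCh : v ∈ Ch := mem_filter.mpr ⟨mem_univ _, hv0, huv.symm⟩
    have h1 : Al.card ≤ (Ch.erase v).card := by
      apply card_le_card_of_injOn g
      · intro j hj
        obtain ⟨h2, h3, y, h4, -⟩ := hg j hj
        rw [mem_coe, mem_erase]
        refine ⟨?_, mem_filter.mpr ⟨mem_univ _, h2, h3⟩⟩
        intro h5
        rw [h5, hvn] at h4
        cases h4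
      · intro j hj j' hj' hjj
        obtain ⟨-, -, y, h4, h5⟩ := hg j hj
        obtain ⟨-, -, y', h4', h5'⟩ := hg j' hj'
        have h6 : g j = g j' := hjj
        rw [h6, h4'] at h4
        have h7 : y' = y := Option.some.inj h4
        rw [← h7, h5'] at h5
        exact (List.cons.inj h5).1.symm
    rw [card_erase_of_mem hvCh] at h1
    have h2 : Ch.card ≤ Δ := by
      have := T.deg u
      convert this using 2
    have h3 : 0 < Ch.card := card_pos.mpr ⟨v, hvCh⟩
    omega
  have hslot : ∀ j < 3 * Δ, (j :: x'.lab ∉ F) ∨ j ∈ Al ∨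
      (T.dep u < x'.lev ∧ bad Δ F (x'.lev - T.dep u - 1) (j :: x'.lab)) := by
    intro j hj
    rcases hl.slots u x' hx j (by omega) with h1 | ⟨i', y, h1, h2, h3, h4⟩ | h1
    · exact Or.inl h1
    · exact Or.inr (Or.inl (mem_filter.mpr ⟨mem_range.mpr hj, i', h1, h2, y, h3, h4⟩))
    · exact Or.inr (Or.inr h1)
  -- the common count
  have hbad : ∀ M, x'.lev - T.dep u = M + 1 → bad Δ F (M + 1) x'.lab := by
    intro M hM
    rw [bad]
    apply ledChain_cover Al _ hAl
    intro j hj
    rcases hslot j hj with h1 | h1 | ⟨-, h1⟩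
    · exact Or.inr (mem_filter.mpr ⟨mem_range.mpr hj, Or.inl h1⟩)
    · exact Or.inl h1
    · refine Or.inr (mem_filter.mpr ⟨mem_range.mpr hj, Or.inr ?_⟩)
      rw [hM, Nat.add_sub_cancel] at h1
      exact h1
  match hN : x'.lev - T.dep u with
  | 0 =>
    rw [chn, bad]
    apply ledChain_cover Al _ hAl
    intro j hj
    rcases hslot j hj with h1 | h1 | ⟨h1, -⟩
    · exact Or.inr (mem_filter.mpr ⟨mem_range.mpr hj, h1⟩)
    · exact Or.inl h1
    · omega
  | 1 =>
    rw [chn]
    exact hbad 0 hN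
  | M + 2 =>
    rw [chn]
    refine ⟨hbad (M + 1) hN, ?_⟩
    rcases hl.chain u x' hx (by omega) with ⟨j, hj, h1⟩ | h1
    · refine ⟨j, hj, ?_⟩
      have h2 : x'.lev - T.dep u - 1 = M + 1 := by omega
      rw [h2] at h1
      exact h1
    · obtain ⟨y, hy, -⟩ := h1 v hv0 huv.symm
      rw [hvn] at hy
      cases hy

end Pool.Agent.Lib.MP_56e41f_co
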