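import Pool.Agent.Lib.MP_56e41f_co.LedA
import Pool.Agent.Lib.MP_56e41f_co.StrB

open Finset

namespace Pool.Agent.Lib.MP_56e41f_co

variable {t Δ : ℕ} (T : TD t Δ) (B w : ℕ)

/-- Ancestors of embedded vertices are embedded. -/
theorem ledsucc_anc {B : ℕ} {s : St t} (h : Str T B s) {u z : Fin t} (hd : T.desc u z)
    (hz : s.f z ≠ none) : s.f u ≠ none := by
  obtain ⟨k, hk⟩ := hd
  induction k generalizing z with
  | zero => simp only [Function.iterate_zero, id_eq] at hk; exact hk ▸ hz
  | succ k ih =>
    rw [Function.iterate_succ_apply] at hk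
    refine ih (z := T.par z) ?_ hk
    by_cases h0 : z.val = 0
    · rw [T.par_zero z h0]; exact hz
    · obtain ⟨x, hx⟩ := Option.ne_none_iff_exists'.mp hz
      obtain ⟨y, j, hy, -⟩ := h.par z x hx h0
      rw [hy]; simp

/-- value at the new vertex -/
theorem ledsucc_f_v (s : St t) (v u : Fin t) (x : Nd) :
    (succSt T s v u x).f v = some ⟨x.asks :: x.lab, 0, T.dep v⟩ := by
  simp [succSt]

/-- value at the parent -/
theorem ledsucc_f_u (s : St t) (v u : Fin t) (x : Nd) (hne : u ≠ v) :
    (succSt T s v u x).f u = some ⟨x.lab, x.asks + 1, max x.lev (T.dep v)⟩ := by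
  simp [succSt, bump, Function.update_of_ne hne]

/-- value elsewhere -/
theorem ledsucc_f_o (s : St t) (v u : Fin t) (x : Nd) (i : Fin t) (hv : i ≠ v) (hu : i ≠ u) :
    (succSt T s v u x).f i
      = (s.f i).map (fun y => ⟨y.lab, y.asks, max y.lev (T.dep v)⟩) := by
  simp [succSt, bump, Function.update_of_ne hv, Function.update_of_ne hu]

/-- old records survive -/
theorem ledsucc_old (s : St t) (v u : Fin t) (x : Nd) (hu : s.f u = some x)
    (i : Fin t) (y : Nd) (hi : s.f i = some y) (hv : i ≠ v) :
    ∃ y', (succSt T s v u x).f i = some y' ∧ y'.lab = y.lab ∧ y'.lev = max y.lev (T.dep v) := by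
  by_cases hiu : i = u
  · subst hiu
    rw [hu] at hi
    obtain rfl := Option.some.inj hi
    exact ⟨_, ledsucc_f_u T s v i x hv, rfl, rfl⟩
  · refine ⟨⟨y.lab, y.asks, max y.lev (T.dep v)⟩, ?_, rfl, rfl⟩
    rw [ledsucc_f_o T s v u x i hv hiu, hi]; rfl

/-- new records come from old ones -/
theorem ledsucc_new (s : St t) (v u : Fin t) (x : Nd) (hu : s.f u = some x)
    (i : Fin t) (y' : Nd) (hi : (succSt T s v u x).f i = some y') (hv : i ≠ v) :
    ∃ y, s.f i = some y ∧ y'.lab = y.lab ∧ y'.lev = max y.lev (T.dep v) ∧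
      (y'.asks = y.asks ∨ (i = u ∧ y = x ∧ y'.asks = x.asks + 1)) := by
  by_cases hiu : i = u
  · subst hiu
    rw [ledsucc_f_u T s v i x hv] at hi
    obtain rfl := Option.some.inj hi
    exact ⟨x, hu, rfl, rfl, Or.inr ⟨rfl, rfl, rfl⟩⟩
  · rw [ledsucc_f_o T s v u x i hv hiu] at hi
    cases hs : s.f i with
    | none => rw [hs] at hi; simp at hi
    | some y =>
      rw [hs] at hi
      simp only [Option.map_some, Option.some.injEq] at hi
      subst hi
      exact ⟨y, rfl, rfl, rfl, Or.inl rfl⟩

theorem Led_succ (F : Finset Lab) (s : St t) (v u : Fin t) (x : Nd) (h : Str T (3 * Δ) s)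
    (hl : Led T F s) (ha : act T (3 * Δ) w s = Act.ask v u x) (hF : x.asks :: x.lab ∈ F) :
    Led T F (succSt T s v u x) := by
  obtain ⟨hn, hdw, hv0, hup, hux, hasks⟩ := act_ask T (3 * Δ) w ha
  obtain ⟨hvn, hlt⟩ := nxt_eq_some hn
  have hpl := T.par_lt v hv0
  have hne : u ≠ v := by rw [hup]; exact ne_of_lt hpl
  have hfresh : x.asks :: x.lab ∉ s.tch := fun hc => lt_irrefl _ (h.slot u x _ hux hc)
  refine ⟨?_, ?_, ?_, ?_⟩
  · -- slots
    intro i y' hi j hj
    by_cases hiv : i = v
    · subst hiv
      rw [ledsucc_f_v] at hi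
      obtain rfl := Option.some.inj hi
      simp at hj
    · obtain ⟨y, hy, hlab, hlev, hask⟩ := ledsucc_new T s v u x hux i y' hi hiv
      have key : j < y.asks → (j :: y'.lab ∉ F) ∨ (∃ i' x', i'.val ≠ 0 ∧ T.par i' = i ∧
          (succSt T s v u x).f i' = some x' ∧ x'.lab = j :: y'.lab) ∨
          (T.dep i < y'.lev ∧ bad Δ F (y'.lev - T.dep i - 1) (j :: y'.lab)) := by
        intro hjy
        rw [hlab]
        rcases hl.slots i y hy j hjy with h1 | ⟨i', x', h0', hp', hs', hl'⟩ | ⟨h2, h3⟩
        · exact Or.inl h1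
        · right; left
          have hi'v : i' ≠ v := by
            intro hc; rw [hc, hvn] at hs'; exact absurd hs' (by simp)
          obtain ⟨y'', hy'', hlab'', -⟩ := ledsucc_old T s v u x hux i' x' hs' hi'v
          exact ⟨i', y'', h0', hp', hy'', by rw [hlab'', hl']⟩
        · right; right
          have hle : y.lev ≤ y'.lev := by rw [hlev]; exact le_max_left _ _
          exact ⟨lt_of_lt_of_le h2 hle, bad_mono F (by omega) _ h3⟩
      rcases hask with hask | ⟨hiu, hyx, hask⟩
      · exact key (by omega)
      · subst hiu; subst hyx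
        by_cases hjx : j = y.asks
        · right; left
          refine ⟨v, _, hv0, hup.symm, ledsucc_f_v T s v i y, ?_⟩
          rw [hlab, hjx]
        · exact key (by omega)
  · -- chain
    intro i y' hi hdep
    by_cases hiv : i = v
    · subst hiv
      rw [ledsucc_f_v] at hi
      obtain rfl := Option.some.inj hi
      simp at hdep
    · obtain ⟨y, hy, hlab, hlev, -⟩ := ledsucc_new T s v u x hux i y' hi hiv
      by_cases he : T.dep v ≤ y.lev
      · have hle : y'.lev = y.lev := by rw [hlev]; exact max_eq_left he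
        rw [hlab, hle]
        rcases hl.chain i y hy (by omega) with h1 | h1
        · exact Or.inl h1
        · right
          intro c hc0 hcp
          obtain ⟨z, hz, hzl⟩ := h1 c hc0 hcp
          have hcv : c ≠ v := by
            intro hc; rw [hc, hvn] at hz; exact absurd hz (by simp)
          obtain ⟨z', hz', -, hzl'⟩ := ledsucc_old T s v u x hux c z hz hcv
          exact ⟨z', hz', by rw [hzl', hzl]; exact max_eq_left he⟩
      · push Not at he
        have hle : y'.lev = T.dep v := by rw [hlev]; exact max_eq_right he.le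
        right
        intro c hc0 hcp
        have hdc := T.dep_par c hc0
        rw [hcp] at hdc
        have hcv : c < v := by
          by_contra hc
          push Not at hc
          have := T.mono v c hc
          omega
        obtain ⟨z, hz⟩ := Option.ne_none_iff_exists'.mp (hlt c hcv)
        obtain ⟨z', hz', -, hzl'⟩ := ledsucc_old T s v u x hux c z hz hcv.ne
        obtain ⟨yy, j, hyy, -, -, hll⟩ := h.par c z hz hc0
        rw [hcp, hy] at hyy
        obtain rfl := Option.some.inj hyy
        exact ⟨z', hz', by rw [hzl', hle]; exact max_eq_right (by omega)⟩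
  · -- deep
    intro i xi z yz hi hz hd
    have hlev : T.dep v ≤ xi.lev := by
      by_cases hiv : i = v
      · subst hiv
        rw [ledsucc_f_v] at hi
        obtain rfl := Option.some.inj hi
        exact le_refl _
      · obtain ⟨y, hy, hlab, hlev, -⟩ := ledsucc_new T s v u x hux i xi hi hiv
        rw [hlev]; exact le_max_right _ _
    by_cases hzv : z = v
    · rw [hzv]; exact hlev
    · obtain ⟨y0, hy0, -⟩ := ledsucc_new T s v u x hux z yz hz hzv
      have hiv : i ≠ v := by
        intro hc
        rw [hc] at hd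
        exact ledsucc_anc T h hd (by rw [hy0]; simp) hvn
      obtain ⟨x0, hx0, -, hxl, -⟩ := ledsucc_new T s v u x hux i xi hi hiv
      have := hl.deep i x0 z y0 hx0 hy0 hd
      rw [hxl]
      exact le_trans this (le_max_left _ _)
  · -- rem
    obtain ⟨R, hnd, hR, hdead⟩ := hl.rem
    refine ⟨R, hnd, ?_, ?_⟩
    · intro c hc
      obtain ⟨h1, h2, h3, h4⟩ := hR c hc
      refine ⟨?_, h2, h3, ?_⟩
      · exact List.mem_cons_of_mem _ h1
      · intro i y' hi
        by_cases hiv : i = v
        · subst hiv
          rw [ledsucc_f_v] at hi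
          obtain rfl := Option.some.inj hi
          intro hcc
          have hcc' : x.asks :: x.lab = c.1 := hcc
          rw [← hcc'] at h1
          exact hfresh h1
        · obtain ⟨y, hy, hlab, -⟩ := ledsucc_new T s v u x hux i y' hi hiv
          rw [hlab]
          exact h4 i y hy
    · have hal := alive_succSt T s v u x hvn hux hne
      have : (succSt T s v u x).dead = s.dead := by
        unfold St.dead
        rw [hal]
        simp [succSt]
      rw [this]
      exact hdead

end Pool.Agent.Lib.MP_56e41f_co
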