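import Pool.Agent.Lib.MP_56e41f_co.PrChn

open Finset

namespace Pool.Agent.Lib.MP_56e41f_co

variable {t Δ : ℕ} (T : TD t Δ) (w : ℕ)

theorem lossmean_geom_le {x : ℝ} (hx0 : 0 ≤ x) (hx : x ≤ 1 / 2) (n : ℕ) :
    ∑ j ∈ range n, x ^ j ≤ 2 := by
  have h : ∑ j ∈ range n, x ^ j ≤ 2 - x ^ n := by
    induction n with
    | zero => simp
    | succ n ih =>
      rw [Finset.sum_range_succ]
      have h1 : x ^ (n + 1) ≤ 1 / 2 * x ^ n := by
        rw [pow_succ, mul_comm]
        exact mul_le_mul_of_nonneg_right hx (pow_nonneg hx0 n)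
      have h2 : x ^ n ≤ 1 := pow_le_one₀ hx0 (by linarith)
      rcases n with _ | n
      · simp only [range_zero, sum_empty, pow_zero, zero_add, pow_one] at *
        linarith
      · have h3 : x ^ (n + 1) ≤ 1 / 2 := by
          rw [pow_succ]
          have : x ^ n ≤ 1 := pow_le_one₀ hx0 (by linarith)
          nlinarith [pow_nonneg hx0 n]
        have h4 : ∑ j ∈ range (n + 1), x ^ j ≤ 2 - 2 * x ^ (n + 1) := by
          clear ih h1 h2 h3
          induction n with
          | zero => simp; linarith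
          | succ n ih =>
            rw [Finset.sum_range_succ]
            have h5 : x ^ (n + 1 + 1) ≤ 1 / 2 * x ^ (n + 1) := by
              rw [pow_succ x (n + 1), mul_comm]
              exact mul_le_mul_of_nonneg_right hx (pow_nonneg hx0 _)
            linarith
        have h6 : 0 ≤ x ^ (n + 1 + 1) := pow_nonneg hx0 _
        linarith
  linarith [pow_nonneg hx0 n]

theorem lossmean_geom_ge {b : ℝ} (hb : 2 ≤ b) (L : ℕ) :
    ∑ j ∈ range (L + 1), b ^ j ≤ 2 * b ^ L := by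
  induction L with
  | zero => simp
  | succ L ih =>
    rw [Finset.sum_range_succ]
    have h1 : 2 * b ^ L ≤ b ^ (L + 1) := by
      rw [pow_succ, mul_comm]
      exact mul_le_mul_of_nonneg_left hb (pow_nonneg (by linarith) L)
    linarith

/-- moments of the loss of a label -/
theorem loss_mean (hΔ : 1 ≤ Δ) (q β : ℝ) (hq0 : 0 ≤ q) (hq : 64 * q ^ 2 ≤ 1)
    (hβ : β = (32 * q ^ 2) ^ Δ) (hβ1 : 3 * Δ * (Δ + 1) * β ≤ 1 / 2) (R Λ L : ℕ) (hR : 3 * Δ ≤ R)
    (a : Lab) (ha : a ∈ labs R (Λ - (L + 1))) (hL : L + 1 ≤ Λ) :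
    ex (1 - q) (labs R Λ) (fun F => loss Δ L F a) ≤ 3 * (Δ + 1) * β ∧
    ex (1 - q) (labs R Λ) (fun F => loss Δ L F a ^ 2)
      ≤ 2 * (Δ + 1) ^ L * (3 * (Δ + 1) * β) := by
  have hq1 : q ≤ 1 := by nlinarith
  have h0 : 0 ≤ 1 - q := by linarith
  have h1 : 1 - q ≤ 1 := by linarith
  have hβ0 : 0 ≤ β := by rw [hβ]; positivity
  have hΔr : (1 : ℝ) ≤ Δ := by exact_mod_cast hΔ
  have hch : ∀ M ∈ range (L + 1), ex (1 - q) (labs R Λ) (fun F => ind (chn Δ F M a)) ≤
      β * (3 * Δ * β) ^ (M - 1) := by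
    intro M hM
    have hML : M ≤ L := by
      have := Finset.mem_range.1 hM
      omega
    have haM : a ∈ labs R (Λ - (M + 1)) := by
      rw [mem_labs] at ha ⊢
      exact ⟨ha.1.trans (by omega), ha.2⟩
    have := pr_chn Δ q hq0 hq R Λ hR M a haM (by omega)
    rw [← hβ] at this
    exact this
  have hmean : ex (1 - q) (labs R Λ) (fun F => loss Δ L F a) ≤ 3 * (Δ + 1) * β := by
    unfold loss
    rw [ex_sum]
    calc ∑ M ∈ range (L + 1), ex (1 - q) (labs R Λ)
          (fun F => ((Δ : ℝ) + 1) ^ M * ind (chn Δ F M a))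
        ≤ ∑ M ∈ range (L + 1), ((Δ : ℝ) + 1) ^ M * (β * (3 * Δ * β) ^ (M - 1)) := by
          refine Finset.sum_le_sum fun M hM => ?_
          rw [ex_mul_left]
          exact mul_le_mul_of_nonneg_left (hch M hM) (by positivity)
      _ = (∑ M ∈ range L, ((Δ : ℝ) + 1) ^ (M + 1) * (β * (3 * Δ * β) ^ M)) + β := by
          rw [Finset.sum_range_succ']
          simp
      _ = ((Δ : ℝ) + 1) * β * (∑ M ∈ range L, (3 * Δ * (Δ + 1) * β) ^ M) + β := by
          rw [Finset.mul_sum]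
          congr 1
          refine Finset.sum_congr rfl fun M _ => ?_
          have hp : (3 * (Δ : ℝ) * (Δ + 1) * β) ^ M = ((Δ : ℝ) + 1) ^ M * (3 * Δ * β) ^ M := by
            rw [← mul_pow]; congr 1; ring
          rw [hp, pow_succ]
          ring
      _ ≤ ((Δ : ℝ) + 1) * β * 2 + β := by
          have := lossmean_geom_le (x := 3 * Δ * (Δ + 1) * β) (by positivity) hβ1 L
          have h2 : 0 ≤ ((Δ : ℝ) + 1) * β := by positivity
          nlinarith
      _ ≤ 3 * (Δ + 1) * β := by nlinarith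
  refine ⟨hmean, ?_⟩
  have hbound : ∀ F : Finset Lab, loss Δ L F a ≤ 2 * ((Δ : ℝ) + 1) ^ L := by
    intro F
    unfold loss
    refine le_trans (Finset.sum_le_sum fun M _ => ?_)
      (lossmean_geom_ge (b := (Δ : ℝ) + 1) (by linarith) L)
    have : ((Δ : ℝ) + 1) ^ M * ind (chn Δ F M a) ≤ ((Δ : ℝ) + 1) ^ M * 1 :=
      mul_le_mul_of_nonneg_left (ind_le_one _) (by positivity)
    linarith
  have hnn : ∀ F : Finset Lab, 0 ≤ loss Δ L F a := by
    intro F
    unfold loss
    exact Finset.sum_nonneg fun M _ => mul_nonneg (by positivity) (ind_nonneg _)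
  calc ex (1 - q) (labs R Λ) (fun F => loss Δ L F a ^ 2)
      ≤ ex (1 - q) (labs R Λ) (fun F => 2 * ((Δ : ℝ) + 1) ^ L * loss Δ L F a) := by
        refine ex_mono h0 h1 _ fun F _ => ?_
        rw [sq]
        exact mul_le_mul_of_nonneg_right (hbound F) (hnn F)
    _ = 2 * ((Δ : ℝ) + 1) ^ L * ex (1 - q) (labs R Λ) (fun F => loss Δ L F a) := by
        rw [ex_mul_left]
    _ ≤ 2 * (Δ + 1) ^ L * (3 * (Δ + 1) * β) :=
        mul_le_mul_of_nonneg_left hmean (by positivity)

end Pool.Agent.Lib.MP_56e41f_co
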