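import Pool.Agent.Lib.MP_56e41f_co.Defs

open Finset

namespace Pool.Agent.Lib.MP_56e41f_co

variable {t Δ : ℕ} (T : TD t Δ) (B w : ℕ)

theorem nxt_eq_some {s : St t} {v : Fin t} (h : s.nxt = some v) :
    s.f v = none ∧ ∀ i < v, s.f i ≠ none := by
  unfold St.nxt at h
  rw [List.find?_eq_some_iff_getElem] at h
  obtain ⟨h1, i, hi, h2, h3⟩ := h
  refine ⟨by simpa using h1, ?_⟩
  rw [List.getElem_finRange] at h2
  intro j hj
  have hv : v.val = i := by rw [← h2]; rfl
  have hji : j.val < i := by rw [← hv]; exact hj
  have h4 := h3 j.val hji
  rw [List.getElem_finRange] at h4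
  have hjj : (Fin.cast (List.length_finRange) ⟨j.val, lt_trans hji hi⟩ : Fin t) = j := Fin.ext rfl
  rw [hjj] at h4
  intro h5
  rw [h5] at h4
  simp at h4

theorem nxt_eq_none {s : St t} (h : s.nxt = none) : ∀ i, s.f i ≠ none := by
  intro i
  unfold St.nxt at h
  rw [List.find?_eq_none] at h
  have := h i (List.mem_finRange i)
  simpa using this

theorem Mach_bump_isSome {e : ℕ} (f : Fin t → Option Nd) (i : Fin t) :
    (bump e f i).isSome = (f i).isSome := by
  simp [bump]

theorem alive_placeRoot (s : St t) (v : Fin t) (h : s.f v = none) :
    (placeRoot s v).alive = s.alive + 1 := by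
  classical
  unfold St.alive
  have h1 : (univ.filter (fun i => ((placeRoot s v).f i).isSome)) =
      insert v (univ.filter (fun i => (s.f i).isSome)) := by
    ext i
    simp only [mem_filter, mem_univ, true_and, mem_insert]
    by_cases hi : i = v
    · subst hi
      simp [placeRoot]
    · simp only [placeRoot, Function.update_of_ne hi, Mach_bump_isSome, hi, false_or]
  rw [h1, card_insert_of_notMem]
  simp [h]

theorem alive_succSt (s : St t) (v u : Fin t) (x : Nd) (h : s.f v = none) (hu : s.f u = some x)
    (hne : u ≠ v) : (succSt T s v u x).alive = s.alive + 1 := by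
  classical
  unfold St.alive
  have h1 : (univ.filter (fun i => ((succSt T s v u x).f i).isSome)) =
      insert v (univ.filter (fun i => (s.f i).isSome)) := by
    ext i
    simp only [mem_filter, mem_univ, true_and, mem_insert]
    by_cases hi : i = v
    · subst hi
      simp [succSt]
    · simp only [succSt, Function.update_of_ne hi, Mach_bump_isSome, hi, false_or]
      by_cases hiu : i = u
      · subst hiu
        simp [hu]
      · rw [Function.update_of_ne hiu]
  rw [h1, card_insert_of_notMem]
  simp [h]

theorem alive_failSt (s : St t) (u : Fin t) (x : Nd) (hu : s.f u = some x) :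
    (failSt s u x).alive = s.alive := by
  classical
  unfold St.alive
  congr 1
  ext i
  simp only [mem_filter, mem_univ, true_and, failSt]
  by_cases hiu : i = u
  · subst hiu
    simp [hu]
  · rw [Function.update_of_ne hiu]

open Classical in
theorem alive_remSt (s : St t) (u : Fin t) :
    (remSt T s u).alive + (univ.filter (fun z => T.desc u z ∧ (s.f z).isSome)).card = s.alive := by
  unfold St.alive
  rw [← card_union_of_disjoint]
  · congr 1
    ext i
    simp only [mem_union, mem_filter, mem_univ, true_and, remSt]
    by_cases hd : T.desc u i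
    · simp [hd]
    · simp [hd]
  · rw [Finset.disjoint_left]
    intro i hi hi'
    simp only [mem_filter, mem_univ, true_and, remSt] at hi hi'
    rw [if_pos hi'.1] at hi
    simp at hi

theorem act_root {s : St t} {v : Fin t} (h : act T B w s = Act.root v) :
    s.nxt = some v ∧ s.dead ≤ w ∧ v.val = 0 := by
  unfold act at h
  cases hn : s.nxt with
  | none => rw [hn] at h; simp at h
  | some v' =>
    rw [hn] at h
    simp only at h
    split_ifs at h with h1 h2
    · simp only [Act.root.injEq] at h
      subst h
      exact ⟨rfl, by omega, h2⟩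
    · cases hp : s.f (T.par v') with
      | none => rw [hp] at h; simp at h
      | some x =>
        rw [hp] at h
        simp only at h
        split_ifs at h

theorem act_ask {s : St t} {v u : Fin t} {x : Nd} (h : act T B w s = Act.ask v u x) :
    s.nxt = some v ∧ s.dead ≤ w ∧ v.val ≠ 0 ∧ u = T.par v ∧ s.f u = some x ∧ x.asks < B := by
  unfold act at h
  cases hn : s.nxt with
  | none => rw [hn] at h; simp at h
  | some v' =>
    rw [hn] at h
    simp only at h
    split_ifs at h with h1 h2
    cases hp : s.f (T.par v') with
    | none => rw [hp] at h; simp at h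
    | some x' =>
      rw [hp] at h
      simp only at h
      split_ifs at h with h3
      simp only [Act.ask.injEq] at h
      obtain ⟨rfl, rfl, rfl⟩ := h
      exact ⟨rfl, by omega, h2, rfl, hp, h3⟩

theorem act_rem {s : St t} {u : Fin t} (h : act T B w s = Act.rem u) :
    ∃ v x, s.nxt = some v ∧ s.dead ≤ w ∧ v.val ≠ 0 ∧ u = T.par v ∧ s.f u = some x ∧
      B ≤ x.asks := by
  unfold act at h
  cases hn : s.nxt with
  | none => rw [hn] at h; simp at h
  | some v' =>
    rw [hn] at h
    simp only at h
    split_ifs at h with h1 h2
    cases hp : s.f (T.par v') with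
    | none => rw [hp] at h; simp at h
    | some x' =>
      rw [hp] at h
      simp only at h
      split_ifs at h with h3
      simp only [Act.rem.injEq] at h
      subst h
      exact ⟨v', x', rfl, by omega, h2, rfl, hp, by omega⟩

theorem act_stop {s : St t} (h : act T B w s = Act.stop) :
    s.nxt = none ∨ w < s.dead ∨ ∃ v, s.nxt = some v ∧ v.val ≠ 0 ∧ s.f (T.par v) = none := by
  unfold act at h
  cases hn : s.nxt with
  | none => exact Or.inl rfl
  | some v' =>
    rw [hn] at h
    simp only at h
    split_ifs at h with h1 h2
    · exact Or.inr (Or.inl h1)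
    · cases hp : s.f (T.par v') with
      | none => exact Or.inr (Or.inr ⟨v', rfl, h2, hp⟩)
      | some x' =>
        rw [hp] at h
        simp only at h
        split_ifs at h

theorem run_succ' (F : Finset Lab) (n : ℕ) (s : St t) :
    run T B w F (n + 1) s = step T B w F (run T B w F n s) := by
  induction n generalizing s with
  | zero => rfl
  | succ n ih =>
    have h1 : run T B w F (n + 1 + 1) s = run T B w F (n + 1) (step T B w F s) := rfl
    rw [h1, ih]
    rfl

end Pool.Agent.Lib.MP_56e41f_co
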