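import Pool.Agent.Lib.MP_56e41f_co.Defs

open Finset

namespace Pool.Agent.Lib.MP_56e41f_co

private theorem params_half (x : ℝ) (hx : 1 ≤ x) : x / 2 ≤ (⌊x⌋₊ : ℝ) := by
  have h1 : x < (⌊x⌋₊ : ℝ) + 1 := Nat.lt_floor_add_one x
  have h2 : (1 : ℝ) ≤ (⌊x⌋₊ : ℝ) := by
    exact_mod_cast (Nat.one_le_floor_iff x).2 hx
  linarith

/-- choice of parameters -/
theorem params (c q0 : ℝ) (hc : 0 < c) (hc1 : c < 1) (hq0 : 0 < q0) : ∃ K0 : ℝ, 1 ≤ K0 ∧
    ∀ K : ℝ, K0 ≤ K → ∀ (Δ : ℕ) (d p : ℝ), 1 ≤ Δ → 0 < d → K * Δ / d ≤ p → p ≤ 1 →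
      8 ≤ c * d ∧ 0 ≤ p ∧
      3 * Δ * (⌊c * d / 4⌋₊ / (3 * Δ)) ≤ ⌊c * d / 4⌋₊ ∧
      (1 - p) ^ (⌊c * d / 4⌋₊ / (3 * Δ)) ≤ q0 ∧
      c * d / 16 ≤ ⌊c * d / 8⌋₊ ∧ (⌊c * d / 8⌋₊ : ℝ) ≤ c * d / 8 := by
  have _ := hc1
  refine ⟨max 1 (max (48 / c) (24 / c * Real.log (1 / q0))), le_max_left _ _, ?_⟩
  intro K hK Δ d p hΔ hd hp hp1
  have hK1 : 1 ≤ K := (le_max_left _ _).trans hK
  have hK2 : 48 / c ≤ K := ((le_max_left _ _).trans (le_max_right _ _)).trans hK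
  have hK3 : 24 / c * Real.log (1 / q0) ≤ K := ((le_max_right _ _).trans (le_max_right _ _)).trans hK
  have hΔ' : (1 : ℝ) ≤ (Δ : ℝ) := by exact_mod_cast hΔ
  have hKΔd : K * Δ ≤ d := by
    have : K * Δ / d ≤ 1 := hp.trans hp1
    rwa [div_le_one hd] at this
  have hKd : K ≤ K * Δ := le_mul_of_one_le_right (by linarith) hΔ'
  have hcK : 48 ≤ c * K := by
    rw [div_le_iff₀ hc] at hK2
    linarith
  have hcd : c * K * Δ ≤ c * d := by nlinarith
  have hcd48 : 48 ≤ c * d := by nlinarith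
  have hp0 : 0 ≤ p := le_trans (by positivity) hp
  have hx8 : 1 ≤ c * d / 8 := by linarith
  refine ⟨by linarith, hp0, Nat.mul_div_le _ _, ?_, ?_, Nat.floor_le (by linarith)⟩
  · set J : ℕ := ⌊c * d / 4⌋₊ / (3 * Δ) with hJ
    have hJ' : J = ⌊c * d / 4 / ((3 * Δ : ℕ) : ℝ)⌋₊ := by
      rw [hJ, Nat.floor_div_natCast]
    have hΔpos : (0 : ℝ) < Δ := by linarith
    have hy : c * d / 4 / ((3 * Δ : ℕ) : ℝ) = c * d / (12 * Δ) := by
      push_cast
      field_simp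
      ring
    have hy1 : 1 ≤ c * d / (12 * Δ) := by
      rw [le_div_iff₀ (by positivity)]
      nlinarith
    have hJ2 : c * d / (24 * Δ) ≤ (J : ℝ) := by
      rw [hJ', hy]
      refine le_trans (le_of_eq ?_) (params_half _ hy1)
      field_simp
      ring
    have h1 : c * K / 24 ≤ p * J := by
      calc c * K / 24 = (K * Δ / d) * (c * d / (24 * Δ)) := by field_simp
        _ ≤ p * J := mul_le_mul hp hJ2 (by positivity) hp0
    have h2 : Real.log (1 / q0) ≤ c * K / 24 := by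
      have h3 : c * (24 / c * Real.log (1 / q0)) ≤ c * K := mul_le_mul_of_nonneg_left hK3 hc.le
      have h4 : c * (24 / c * Real.log (1 / q0)) = 24 * Real.log (1 / q0) := by
        field_simp
      linarith
    calc (1 - p) ^ J ≤ (Real.exp (-p)) ^ J :=
          pow_le_pow_left₀ (by linarith) (Real.one_sub_le_exp_neg p) J
      _ = Real.exp (-(p * J)) := by
          rw [← Real.exp_nat_mul]
          congr 1
          ring
      _ ≤ Real.exp (-Real.log (1 / q0)) := Real.exp_le_exp.2 (by linarith)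
      _ = q0 := by
          rw [one_div, Real.log_inv, neg_neg, Real.exp_log hq0]
  · have := params_half _ hx8
    linarith

end Pool.Agent.Lib.MP_56e41f_co
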