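import Mathlib

/-!
# Random spanning subgraphs
-/

namespace Pool.Agent.Lib.MP_56e41f_co

open Classical in
/-- Probability that the random spanning subgraph of `G`, in which every edge of `G` is retained
independently with probability `p`, has the property `P`. -/
noncomputable def percProb {V : Type} [Fintype V] (G : SimpleGraph V) (p : ℝ)
    (P : SimpleGraph V → Prop) : ℝ :=
  ∑ F ∈ G.edgeFinset.powerset, p ^ F.card * (1 - p) ^ (G.edgeFinset.card - F.card) *
    (if P (SimpleGraph.fromEdgeSet (F : Set (Sym2 V))) then 1 else 0)

end Pool.Agent.Lib.MP_56e41f_co
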