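import Pool.Agent.Lib.MP_56e41f_co.BadDep
import Pool.Agent.Lib.MP_56e41f_co.Count

open Finset

namespace Pool.Agent.Lib.MP_56e41f_co

variable (Δ : ℕ)

theorem prbad_disj (a : Lab) (i j : ℕ) (hij : i ≠ j) :
    Disjoint {l : Lab | (i :: a) <:+ l} {l : Lab | (j :: a) <:+ l} := by
  rw [Set.disjoint_left]
  intro l h1 h2
  have h3 : (i :: a) <:+ (j :: a) := List.suffix_of_suffix_length_le h1 h2 (by simp)
  have h4 := h3.eq_of_length (by simp)
  rw [List.cons.injEq] at h4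
  exact hij h4.1

theorem prbad_not_mem_dep (i : ℕ) (a : Lab) :
    Dep {l : Lab | (i :: a) <:+ l} (fun F : Finset Lab => i :: a ∉ F) := by
  intro F F' h
  have := h (i :: a) (List.suffix_refl _)
  simp only [this]

theorem prbad_belowR (i : ℕ) (a : Lab) (r : ℕ) :
    BelowR (i :: a) r ⊆ {l : Lab | (i :: a) <:+ l} := fun _ hl => hl.1

theorem prbad_or_dep (i : ℕ) (a : Lab) (M : ℕ) :
    Dep {l : Lab | (i :: a) <:+ l} (fun F : Finset Lab => i :: a ∉ F ∨ bad Δ F M (i :: a)) :=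
  Dep.comp2 (prbad_not_mem_dep i a) (Dep.mono (bad_dep Δ M (i :: a)) (prbad_belowR i a _))
    (fun x y => x ∨ y)

theorem prbad_cons_mem {R n : ℕ} {a : Lab} {i : ℕ} (ha : a ∈ labs R n) (hi : i < R) :
    i :: a ∈ labs R (n + 1) := by
  rw [mem_labs] at ha ⊢
  refine ⟨by simpa using ha.1, ?_⟩
  intro z hz
  rcases List.mem_cons.1 hz with rfl | hz
  · exact hi
  · exact ha.2 z hz

theorem prbad_labs_mono {R n m : ℕ} (h : n ≤ m) {a : Lab} (ha : a ∈ labs R n) : a ∈ labs R m := by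
  rw [mem_labs] at ha ⊢
  exact ⟨ha.1.trans h, ha.2⟩

/-- probability that the slot `i` of `a` fails -/
theorem prbad_slot (q : ℝ) (R Λ : ℕ) (hR : 3 * Δ ≤ R) (M : ℕ)
    (a : Lab) (ha : a ∈ labs R (Λ - (M + 1))) (hM : M + 1 ≤ Λ) (i : ℕ) (hi : i ∈ range (3 * Δ)) :
    pr (1 - q) (labs R Λ) (fun F => i :: a ∉ F) = q := by
  have h1 : i :: a ∈ labs R Λ := by
    have h2 := prbad_cons_mem ha (lt_of_lt_of_le (Finset.mem_range.1 hi) hR)
    exact prbad_labs_mono (by omega) h2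
  rw [pr_not_mem _ _ _ h1]
  ring

/-- bound for bad labels -/
theorem pr_bad (q : ℝ) (hq0 : 0 ≤ q) (hq : 64 * q ^ 2 ≤ 1) (R Λ : ℕ) (hR : 3 * Δ ≤ R) (M : ℕ)
    (a : Lab) (ha : a ∈ labs R (Λ - (M + 1))) (hM : M + 1 ≤ Λ) :
    pr (1 - q) (labs R Λ) (fun F => bad Δ F M a) ≤ q ∧
    pr (1 - q) (labs R Λ) (fun F => bad Δ F M a) ≤ (32 * q ^ 2) ^ Δ := by
  classical
  have hq8 : q ≤ 1 / 8 := by nlinarith
  have hp0 : (0 : ℝ) ≤ 1 - q := by linarith
  have hp1 : (1 : ℝ) - q ≤ 1 := by linarith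
  have hQ : pr (1 - q) (labs R Λ) (fun _ => True) ≤ 1 := pr_le_one hp0 hp1 _ _
  have hQ0 : 0 ≤ pr (1 - q) (labs R Λ) (fun _ => True) := pr_nonneg hp0 hp1 _ _
  have hdT : Dep (∅ : Set Lab) (fun _ : Finset Lab => True) := fun _ _ _ => rfl
  rcases Nat.eq_zero_or_pos Δ with hΔ | hΔ
  · -- never bad
    subst hΔ
    have h0 : pr (1 - q) (labs R Λ) (fun F => bad 0 F M a) ≤ 0 := by
      have h1 : pr (1 - q) (labs R Λ) (fun F => bad 0 F M a) ≤ ex (1 - q) (labs R Λ) (fun _ => 0) := by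
        apply ex_mono hp0 hp1
        intro F _
        rw [ind_false]
        cases M <;> simp [bad]
      rwa [ex_const] at h1
    exact ⟨h0.trans hq0, h0.trans (by simp)⟩
  · have h32 : 32 * q ^ 2 ≤ 1 / 2 := by linarith
    have h32' : 0 ≤ 32 * q ^ 2 := by positivity
    have hpow : (32 * q ^ 2) ^ Δ ≤ 1 / 2 := by
      calc (32 * q ^ 2) ^ Δ ≤ (32 * q ^ 2) ^ 1 :=
            pow_le_pow_of_le_one h32' (by linarith) hΔ
        _ ≤ 1 / 2 := by simpa using h32
    have hpow0 : 0 ≤ (32 * q ^ 2) ^ Δ := pow_nonneg h32' _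
    -- it suffices to bound by `2 q (32 q^2)^Δ`
    suffices hmain : pr (1 - q) (labs R Λ) (fun F => bad Δ F M a) ≤ 2 * q * (32 * q ^ 2) ^ Δ by
      constructor
      · refine hmain.trans ?_
        nlinarith
      · refine hmain.trans ?_
        nlinarith
    induction M generalizing a with
    | zero =>
      have h := pr_count_le hp0 hp1 (labs R Λ) (range (3 * Δ)) (fun i => {l : Lab | (i :: a) <:+ l})
        (fun i F => i :: a ∉ F) ∅ (fun _ => True) (fun i _ => prbad_not_mem_dep i a) hdT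
        (fun i _ j _ hij => prbad_disj a i j hij) (fun i _ => Set.disjoint_empty _) q hq0
        (fun i hi => (prbad_slot Δ q R Λ hR 0 a ha hM i hi).le) (2 * Δ + 1)
      rw [Finset.card_range] at h
      refine le_trans (pr_mono hp0 hp1 _ ?_) (h.trans ?_)
      · intro F _ hb
        refine ⟨?_, trivial⟩
        simp only [bad] at hb
        convert hb
      calc (2 : ℝ) ^ (3 * Δ) * q ^ (2 * Δ + 1) * pr (1 - q) (labs R Λ) (fun _ => True)
          ≤ (2 : ℝ) ^ (3 * Δ) * q ^ (2 * Δ + 1) * 1 :=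
            mul_le_mul_of_nonneg_left hQ (by positivity)
        _ = q * (8 * q ^ 2) ^ Δ := by
            rw [mul_one, pow_succ, pow_mul, pow_mul, mul_pow]; norm_num; ring
        _ ≤ q * (32 * q ^ 2) ^ Δ := by
            apply mul_le_mul_of_nonneg_left _ hq0
            apply pow_le_pow_left₀ (by positivity)
            nlinarith [sq_nonneg q]
        _ ≤ 2 * q * (32 * q ^ 2) ^ Δ := by nlinarith [mul_nonneg hq0 hpow0]
    | succ M ih =>
      have hr : ∀ i ∈ range (3 * Δ),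
          pr (1 - q) (labs R Λ) (fun F => i :: a ∉ F ∨ bad Δ F M (i :: a)) ≤ 2 * q := by
        intro i hi
        have h1 := pr_or_le hp0 hp1 (labs R Λ) (fun F => i :: a ∉ F) (fun F => bad Δ F M (i :: a))
        have h2 := prbad_slot Δ q R Λ hR (M + 1) a ha hM i hi
        have h3 : i :: a ∈ labs R (Λ - (M + 1)) := by
          have h4 := prbad_cons_mem ha (lt_of_lt_of_le (Finset.mem_range.1 hi) hR)
          exact prbad_labs_mono (by omega) h4
        have h5 := ih (i :: a) h3 (by omega)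
        have h6 : 2 * q * (32 * q ^ 2) ^ Δ ≤ q := by nlinarith
        linarith
      have h := pr_count_le hp0 hp1 (labs R Λ) (range (3 * Δ)) (fun i => {l : Lab | (i :: a) <:+ l})
        (fun i F => i :: a ∉ F ∨ bad Δ F M (i :: a)) ∅ (fun _ => True)
        (fun i _ => prbad_or_dep Δ i a M) hdT
        (fun i _ j _ hij => prbad_disj a i j hij) (fun i _ => Set.disjoint_empty _) (2 * q)
        (by positivity) hr (2 * Δ + 1)
      rw [Finset.card_range] at h
      refine le_trans (pr_mono hp0 hp1 _ ?_) (h.trans ?_)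
      · intro F _ hb
        refine ⟨?_, trivial⟩
        simp only [bad] at hb
        convert hb
      calc (2 : ℝ) ^ (3 * Δ) * (2 * q) ^ (2 * Δ + 1) * pr (1 - q) (labs R Λ) (fun _ => True)
          ≤ (2 : ℝ) ^ (3 * Δ) * (2 * q) ^ (2 * Δ + 1) * 1 :=
            mul_le_mul_of_nonneg_left hQ (by positivity)
        _ = 2 * q * (32 * q ^ 2) ^ Δ := by
            have e1 : (32 : ℝ) * q ^ 2 = 2 ^ 3 * (2 * q) ^ 2 := by ring
            rw [e1, mul_pow (2 ^ 3) ((2 * q) ^ 2), ← pow_mul, ← pow_mul]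
            ring

end Pool.Agent.Lib.MP_56e41f_co
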