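import Pool.Agent.Lib.MP_56e41f_co.StrRun

open Finset

namespace Pool.Agent.Lib.MP_56e41f_co

variable {t Δ : ℕ} (T : TD t Δ) (B w : ℕ)

private theorem rundep_bump {e : ℕ} {f : Fin t → Option Nd} {i : Fin t} {y : Nd}
    (h : bump e f i = some y) : ∃ x, f i = some x ∧ y = ⟨x.lab, x.asks, max x.lev e⟩ := by
  unfold bump at h
  rw [Option.map_eq_some_iff] at h
  obtain ⟨x, hx, rfl⟩ := h
  exact ⟨x, hx, rfl⟩

private theorem rundep_root (s : St t) (v : Fin t) (h : Str T B s) :
    consumed s ⊆ consumed (placeRoot s v) := by
  rintro l ⟨j, a, rfl, ha, hl⟩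
  refine ⟨j, a, rfl, List.mem_cons_of_mem _ ha, ?_⟩
  intro i y hy hya
  change Function.update (bump 0 s.f) v (some ⟨[s.roots], 0, 0⟩) i = some y at hy
  by_cases hi : i = v
  · subst hi
    rw [Function.update_self, Option.some.injEq] at hy
    subst hy
    rw [← hya] at ha
    exact absurd (h.rootlab _ ha) (lt_irrefl _)
  · rw [Function.update_of_ne hi] at hy
    obtain ⟨x, hx, rfl⟩ := rundep_bump hy
    exact hl i x hx hya

private theorem rundep_fail (s : St t) (u : Fin t) (x : Nd) (hu : s.f u = some x) :
    consumed s ⊆ consumed (failSt s u x) := by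
  rintro l ⟨j, a, rfl, ha, hl⟩
  refine ⟨j, a, rfl, ha, ?_⟩
  intro i y hy hya
  change Function.update s.f u (some ⟨x.lab, x.asks + 1, x.lev⟩) i = some y at hy
  by_cases hi : i = u
  · subst hi
    rw [Function.update_self, Option.some.injEq] at hy
    subst hy
    have := hl i x hu hya
    change j < x.asks + 1
    omega
  · rw [Function.update_of_ne hi] at hy
    exact hl i y hy hya

private theorem rundep_succ (s : St t) (v u : Fin t) (x : Nd) (h : Str T B s)
    (hu : s.f u = some x) : consumed s ⊆ consumed (succSt T s v u x) := by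
  rintro l ⟨j, a, rfl, ha, hl⟩
  refine ⟨j, a, rfl, List.mem_cons_of_mem _ ha, ?_⟩
  intro i y hy hya
  change Function.update
      (bump (T.dep v) (Function.update s.f u (some ⟨x.lab, x.asks + 1, x.lev⟩))) v
      (some ⟨x.asks :: x.lab, 0, T.dep v⟩) i = some y at hy
  by_cases hi : i = v
  · subst hi
    rw [Function.update_self, Option.some.injEq] at hy
    subst hy
    rw [← hya] at ha
    exact absurd (h.slot u x _ hu ha) (lt_irrefl _)
  · rw [Function.update_of_ne hi] at hy
    obtain ⟨z, hz, rfl⟩ := rundep_bump hy
    by_cases hi' : i = u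
    · subst hi'
      rw [Function.update_self, Option.some.injEq] at hz
      subst hz
      have := hl i x hu hya
      change j < x.asks + 1
      omega
    · rw [Function.update_of_ne hi'] at hz
      exact hl i z hz hya

private theorem rundep_rem (s : St t) (u : Fin t) : consumed s ⊆ consumed (remSt T s u) := by
  classical
  rintro l ⟨j, a, rfl, ha, hl⟩
  refine ⟨j, a, rfl, ha, ?_⟩
  intro i y hy hya
  unfold remSt at hy
  simp only at hy
  split_ifs at hy
  exact hl i y hy hya

private theorem rundep_fresh {s : St t} {u : Fin t} {x : Nd} (hu : s.f u = some x) :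
    x.asks :: x.lab ∉ consumed s := by
  rintro ⟨j, a, he, -, hl⟩
  rw [List.cons.injEq] at he
  obtain ⟨rfl, rfl⟩ := he
  exact absurd (hl u x hu rfl) (lt_irrefl _)

theorem run_dep (n : ℕ) (s : St t) (h : Str T B s) :
    Dep (consumed s)ᶜ (fun F => run T B w F n s) := by
  induction n generalizing s with
  | zero => intro F F' _; rfl
  | succ n ih =>
    intro F F' hF
    -- the general step
    have key : ∀ s' : St t, Str T B s' → consumed s ⊆ consumed s' →
        run T B w F n s' = run T B w F' n s' := by
      intro s' hs' hsub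
      exact ih s' hs' F F' fun x hx => hF x fun hx' => hx (hsub hx')
    change run T B w F n (step T B w F s) = run T B w F' n (step T B w F' s)
    unfold step
    rcases hact : act T B w s with _ | v | ⟨v, u, x⟩ | u
    · exact key s h (Set.Subset.refl _)
    · exact key _ (Str_root T B w s v h hact) (rundep_root T B s v h)
    · have hu := (act_ask T B w hact).2.2.2.2.1
      have he : x.asks :: x.lab ∈ F ↔ x.asks :: x.lab ∈ F' := hF _ (rundep_fresh hu)
      simp only
      by_cases hin : x.asks :: x.lab ∈ F
      · rw [if_pos hin, if_pos (he.1 hin)]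
        exact key _ (Str_succ T B w s v u x h hact) (rundep_succ T B s v u x h hu)
      · rw [if_neg hin, if_neg fun h' => hin (he.2 h')]
        exact key _ (Str_fail T B w s v u x h hact) (rundep_fail s u x hu)
    · exact key _ (Str_rem T B w s u h hact) (rundep_rem T s u)

end Pool.Agent.Lib.MP_56e41f_co
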