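import Pool.Agent.Lib.MP_56e41f_co.Touch
import Pool.Agent.Lib.MP_56e41f_co.Dep

open Finset

namespace Pool.Agent.Lib.MP_56e41f_co

variable {t Δ : ℕ} (T : TD t Δ) (B w : ℕ)

/-- the label `a` is used before the label `a'` -/
def second_bef (N : ℕ) (a a' : Lab) (F : Finset Lab) : Prop :=
  ∃ k k' : ℕ, k < k' ∧ (tl T B w N F)[k]? = some a ∧ (tl T B w N F)[k']? = some a'

theorem second_bef_dep (N : ℕ) (a a' : Lab) :
    Dep (Below a')ᶜ (fun F => second_bef T B w N a a' F) := by
  have key : ∀ F F' : Finset Lab, (∀ x ∈ (Below a')ᶜ, (x ∈ F ↔ x ∈ F')) →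
      second_bef T B w N a a' F → second_bef T B w N a a' F' := by
    rintro F F' h ⟨k, k', hlt, h1, h2⟩
    have h3 := tl_take T B w N a' k' F F' (fun l hl => h l hl) h2
    have h4 : ∀ j, j < k' + 1 → (tl T B w N F')[j]? = (tl T B w N F)[j]? := by
      intro j hj
      have := congrArg (fun l : List Lab => l[j]?) h3
      simpa only [List.getElem?_take, hj, if_true] using this
    exact ⟨k, k', hlt, by rw [h4 k (by omega)]; exact h1, by rw [h4 k' (by omega)]; exact h2⟩
  intro F F' h
  exact propext ⟨key F F' h, key F' F fun x hx => (h x hx).symm⟩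

theorem second_split (N : ℕ) {a a' : Lab} (hne : a ≠ a') (F : Finset Lab) :
    ind (a ∈ tl T B w N F) * ind (a' ∈ tl T B w N F) =
      ind (second_bef T B w N a a' F) + ind (second_bef T B w N a' a F) := by
  classical
  have hnd := tl_nodup T B w N F
  by_cases h : a ∈ tl T B w N F ∧ a' ∈ tl T B w N F
  · obtain ⟨h1, h2⟩ := h
    rw [ind_true h1, ind_true h2]
    obtain ⟨k, hk⟩ := List.mem_iff_getElem?.1 h1
    obtain ⟨k', hk'⟩ := List.mem_iff_getElem?.1 h2
    have huniq : ∀ (b : Lab) (i j : ℕ), (tl T B w N F)[i]? = some b →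
        (tl T B w N F)[j]? = some b → i = j := by
      intro b i j hi hj
      obtain ⟨hi1, hi2⟩ := List.getElem?_eq_some_iff.1 hi
      obtain ⟨hj1, hj2⟩ := List.getElem?_eq_some_iff.1 hj
      exact (List.Nodup.getElem_inj_iff hnd).1 (hi2.trans hj2.symm)
    rcases lt_trichotomy k k' with hlt | heq | hgt
    · have hb : second_bef T B w N a a' F := ⟨k, k', hlt, hk, hk'⟩
      have hnb : ¬ second_bef T B w N a' a F := by
        rintro ⟨i, j, hij, hi, hj⟩
        have e1 := huniq _ _ _ hi hk'
        have e2 := huniq _ _ _ hj hk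
        omega
      rw [ind_true hb, ind_false hnb]
      norm_num
    · exfalso
      subst heq
      rw [hk] at hk'
      exact hne (Option.some.inj hk')
    · have hb : second_bef T B w N a' a F := ⟨k', k, hgt, hk', hk⟩
      have hnb : ¬ second_bef T B w N a a' F := by
        rintro ⟨i, j, hij, hi, hj⟩
        have e1 := huniq _ _ _ hi hk
        have e2 := huniq _ _ _ hj hk'
        omega
      rw [ind_true hb, ind_false hnb]
      norm_num
  · have h1 : ¬ second_bef T B w N a a' F := by
      rintro ⟨i, j, hij, hi, hj⟩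
      exact h ⟨List.mem_iff_getElem?.2 ⟨i, hi⟩, List.mem_iff_getElem?.2 ⟨j, hj⟩⟩
    have h2 : ¬ second_bef T B w N a' a F := by
      rintro ⟨i, j, hij, hi, hj⟩
      exact h ⟨List.mem_iff_getElem?.2 ⟨j, hj⟩, List.mem_iff_getElem?.2 ⟨i, hi⟩⟩
    rw [ind_false h1, ind_false h2, ← ind_and, ind_false h]
    norm_num

/-- the cross terms vanish -/
theorem second_cross (R : ℕ) (p : ℝ)
    (E : Finset Lab) (N r ρ : ℕ) (hr : 0 < r) (g : Lab → Finset Lab → ℝ)
    (hg : ∀ a, Dep (BelowR a r) (g a)) (hmean : ∀ a ∈ labs R t, ex p E (g a) = 0)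
    (a a' : Lab) (ha' : a' ∈ labs R t) (hne : a ≠ a') :
    ex p E (fun F => ind (second_bef T B w N a a' F) *
      ((if a.length % r = ρ then g a F else 0) * (if a'.length % r = ρ then g a' F else 0))) = 0 := by
  classical
  by_cases h1 : a.length % r = ρ
  swap
  · simp_rw [if_neg h1, zero_mul, mul_zero]
    exact ex_const p E 0
  by_cases h2 : a'.length % r = ρ
  swap
  · simp_rw [if_neg h2, mul_zero]
    exact ex_const p E 0
  simp_rw [if_pos h1, if_pos h2]
  by_cases hF : ∃ F, second_bef T B w N a a' F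
  swap
  · have : ∀ F, ind (second_bef T B w N a a' F) * (g a F * g a' F) = 0 := by
      intro F
      rw [ind_false (fun h => hF ⟨F, h⟩), zero_mul]
    simp_rw [this]
    exact ex_const p E 0
  obtain ⟨F0, k, k', hlt, hk, hk'⟩ := hF
  have hns := tl_suffix T B w N F0 k k' a a' hk hk' hlt
  have hsub : BelowR a r ⊆ (Below a')ᶜ := by
    rintro l ⟨hl1, hl2, hl3⟩ ⟨hl4, hl5⟩
    rcases List.suffix_or_suffix_of_suffix hl1 hl4 with h | h
    · have hlen : a.length < a'.length := by
        rcases Nat.lt_or_ge a.length a'.length with h' | h'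
        · exact h'
        · exact absurd (h.eq_of_length (le_antisymm h.length_le h')) hne
      have hmod : a.length % r = a'.length % r := h1.trans h2.symm
      have hle : a.length + r ≤ a'.length := by
        have h3 : (a'.length - a.length) % r = 0 :=
          Nat.sub_mod_eq_zero_of_mod_eq hmod.symm
        have h4 : r ≤ a'.length - a.length :=
          Nat.le_of_dvd (by omega) (Nat.dvd_of_mod_eq_zero h3)
        omega
      have h5 : a'.length < l.length := by
        rcases Nat.lt_or_ge a'.length l.length with h' | h'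
        · exact h'
        · exact absurd (hl4.eq_of_length (le_antisymm hl4.length_le h')).symm hl5
      omega
    · exact hns h
  have e1 : ∀ F, ind (second_bef T B w N a a' F) * (g a F * g a' F) =
      (ind (second_bef T B w N a a' F) * g a F) * g a' F := fun F => by ring
  simp_rw [e1]
  have hd1 : Dep (Below a')ᶜ (fun F => ind (second_bef T B w N a a' F) * g a F) :=
    Dep.comp2 (second_bef_dep T B w N a a') ((hg a).mono hsub) (fun P x => ind P * x)
  have hdis : Disjoint (Below a')ᶜ (BelowR a' r) := by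
    rw [Set.disjoint_left]
    intro l hl hl'
    exact hl ⟨hl'.1, hl'.2.1⟩
  rw [ex_mul p E hd1 (hg a') hdis, hmean a' ha', mul_zero]

/-- sums over the list of used labels as sums over all labels -/
theorem second_sum (R : ℕ) (hR : B ≤ R) (hR' : t + w ≤ R) (N : ℕ) (F : Finset Lab)
    (f : Lab → ℝ) : ((tl T B w N F).map f).sum =
      ∑ a ∈ labs R t, ind (a ∈ tl T B w N F) * f a := by
  classical
  rw [← List.sum_toFinset f (tl_nodup T B w N F)]
  have hsub : (tl T B w N F).toFinset ⊆ labs R t := fun a ha =>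
    (tl_mem T B w R hR hR' N F a (List.mem_toFinset.1 ha)).1
  rw [← Finset.sum_subset hsub]
  · refine Finset.sum_congr rfl fun a ha => ?_
    rw [ind_true (List.mem_toFinset.1 ha), one_mul]
  · intro a _ ha
    rw [ind_false (fun h' => ha (List.mem_toFinset.2 h')), zero_mul]

/-- the expected number of used labels -/
theorem second_count (R : ℕ) (hR : B ≤ R) (hR' : t + w ≤ R) (p : ℝ) (h0 : 0 ≤ p) (h1 : p ≤ 1)
    (E : Finset Lab) (N : ℕ) :
    ∑ a ∈ labs R t, ex p E (fun F => ind (a ∈ tl T B w N F)) ≤ (t : ℝ) + w := by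
  rw [← ex_sum]
  calc ex p E (fun F => ∑ a ∈ labs R t, ind (a ∈ tl T B w N F))
      ≤ ex p E (fun _ => ((t : ℝ) + w)) := by
        refine ex_mono h0 h1 E fun F _ => ?_
        have h2 := second_sum T B w R hR hR' N F (fun _ => 1)
        simp only [mul_one] at h2
        rw [← h2]
        have h3 := tl_length T B w N F
        simp only [List.map_const', List.sum_replicate, nsmul_eq_mul, mul_one]
        exact_mod_cast h3
    _ = (t : ℝ) + w := ex_const p E _

/-- second moment of a sum over one residue class, refined -/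
theorem second_class_ref (R : ℕ) (hR : B ≤ R) (hR' : t + w ≤ R) (p : ℝ) (h0 : 0 ≤ p) (h1 : p ≤ 1)
    (E : Finset Lab) (N r ρ : ℕ) (hr : 0 < r) (g : Lab → Finset Lab → ℝ) (v : ℝ)
    (hg : ∀ a, Dep (BelowR a r) (g a)) (hmean : ∀ a ∈ labs R t, ex p E (g a) = 0)
    (hv : ∀ a ∈ labs R t, ex p E (fun F => g a F ^ 2) ≤ v) :
    ex p E (fun F =>
      (((tl T B w N F).map (fun a => if a.length % r = ρ then g a F else 0)).sum) ^ 2)
      ≤ (∑ a ∈ labs R t, if a.length % r = ρ then ex p E (fun F => ind (a ∈ tl T B w N F))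
          else 0) * v := by
  classical
  set h : Lab → Finset Lab → ℝ := fun a F => if a.length % r = ρ then g a F else 0 with hh
  have hsum := second_sum T B w R hR hR' N
  have hsq : ∀ F, (((tl T B w N F).map (fun a => h a F)).sum) ^ 2 =
      ∑ a ∈ labs R t, ∑ a' ∈ labs R t,
        (ind (a ∈ tl T B w N F) * h a F) * (ind (a' ∈ tl T B w N F) * h a' F) := by
    intro F
    rw [hsum, sq, Finset.sum_mul_sum]
  have e1 : ex p E (fun F => (((tl T B w N F).map (fun a => h a F)).sum) ^ 2) =
      ∑ a ∈ labs R t, ∑ a' ∈ labs R t, ex p E (fun F =>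
        (ind (a ∈ tl T B w N F) * h a F) * (ind (a' ∈ tl T B w N F) * h a' F)) := by
    simp_rw [hsq]
    rw [ex_sum]
    exact Finset.sum_congr rfl fun a _ => ex_sum _ _ _ _
  change ex p E (fun F => (((tl T B w N F).map (fun a => h a F)).sum) ^ 2) ≤ _
  rw [e1]
  have hcross : ∀ a ∈ labs R t, ∀ a' ∈ labs R t, a' ≠ a → ex p E (fun F =>
        (ind (a ∈ tl T B w N F) * h a F) * (ind (a' ∈ tl T B w N F) * h a' F)) = 0 := by
    intro a ha a' ha' hne
    have e2 : ∀ F, (ind (a ∈ tl T B w N F) * h a F) * (ind (a' ∈ tl T B w N F) * h a' F) =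
        ind (second_bef T B w N a a' F) * (h a F * h a' F) +
        ind (second_bef T B w N a' a F) * (h a' F * h a F) := by
      intro F
      have := second_split T B w N (Ne.symm hne) F
      calc _ = (ind (a ∈ tl T B w N F) * ind (a' ∈ tl T B w N F)) * (h a F * h a' F) := by ring
        _ = _ := by rw [this]; ring
    simp_rw [e2]
    rw [ex_add, second_cross T B w R p E N r ρ hr g hg hmean a a' ha' (Ne.symm hne),
      second_cross T B w R p E N r ρ hr g hg hmean a' a ha hne, add_zero]
  have hdiag : ∀ a ∈ labs R t, ex p E (fun F =>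
        (ind (a ∈ tl T B w N F) * h a F) * (ind (a ∈ tl T B w N F) * h a F)) ≤
      (if a.length % r = ρ then ex p E (fun F => ind (a ∈ tl T B w N F)) else 0) * v := by
    intro a ha
    have e3 : ∀ F, (ind (a ∈ tl T B w N F) * h a F) * (ind (a ∈ tl T B w N F) * h a F) =
        ind (a ∈ tl T B w N F) * (h a F) ^ 2 := by
      intro F
      have : ind (a ∈ tl T B w N F) * ind (a ∈ tl T B w N F) = ind (a ∈ tl T B w N F) := by
        rw [← ind_and, and_self]
      calc _ = (ind (a ∈ tl T B w N F) * ind (a ∈ tl T B w N F)) * (h a F) ^ 2 := by ring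
        _ = _ := by rw [this]
    simp_rw [e3]
    by_cases h1' : a.length % r = ρ
    · rw [if_pos h1']
      have hd1 : Dep (Below a)ᶜ (fun F => ind (a ∈ tl T B w N F)) :=
        Dep.comp (tl_mem_dep T B w N a) ind
      have hd2 : Dep (BelowR a r) (fun F => (g a F) ^ 2) := Dep.comp (hg a) (fun x => x ^ 2)
      have hdis : Disjoint (Below a)ᶜ (BelowR a r) := by
        rw [Set.disjoint_left]
        intro l hl hl'
        exact hl ⟨hl'.1, hl'.2.1⟩
      have : (fun F => ind (a ∈ tl T B w N F) * (h a F) ^ 2) =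
          fun F => ind (a ∈ tl T B w N F) * (g a F) ^ 2 := by
        funext F
        simp only [hh, if_pos h1']
      rw [this, ex_mul p E hd1 hd2 hdis]
      exact mul_le_mul_of_nonneg_left (hv a ha) (ex_nonneg h0 h1 E fun F _ => ind_nonneg _)
    · rw [if_neg h1', zero_mul]
      have : (fun F => ind (a ∈ tl T B w N F) * (h a F) ^ 2) = fun _ => 0 := by
        funext F
        simp only [hh, if_neg h1']
        norm_num
      rw [this, ex_const]
  calc ∑ a ∈ labs R t, ∑ a' ∈ labs R t, ex p E (fun F =>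
        (ind (a ∈ tl T B w N F) * h a F) * (ind (a' ∈ tl T B w N F) * h a' F))
      = ∑ a ∈ labs R t, ex p E (fun F =>
        (ind (a ∈ tl T B w N F) * h a F) * (ind (a ∈ tl T B w N F) * h a F)) := by
        refine Finset.sum_congr rfl fun a ha => ?_
        rw [Finset.sum_eq_single a (fun a' ha' hne => hcross a ha a' ha' hne)
          (fun hna => absurd ha hna)]
    _ ≤ ∑ a ∈ labs R t, (if a.length % r = ρ then ex p E (fun F => ind (a ∈ tl T B w N F))
          else 0) * v :=
        Finset.sum_le_sum fun a ha => hdiag a ha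
    _ = _ := by rw [← Finset.sum_mul]

/-- second moment of a sum over one residue class -/
theorem second_class (R : ℕ) (hR : B ≤ R) (hR' : t + w ≤ R) (p : ℝ) (h0 : 0 ≤ p) (h1 : p ≤ 1)
    (E : Finset Lab) (N r ρ : ℕ) (hr : 0 < r) (g : Lab → Finset Lab → ℝ) (v : ℝ)
    (hg : ∀ a, Dep (BelowR a r) (g a)) (hmean : ∀ a ∈ labs R t, ex p E (g a) = 0)
    (hv : ∀ a ∈ labs R t, ex p E (fun F => g a F ^ 2) ≤ v) (hv0 : 0 ≤ v) :
    ex p E (fun F =>
      (((tl T B w N F).map (fun a => if a.length % r = ρ then g a F else 0)).sum) ^ 2)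
      ≤ (t + w) * v := by
  refine (second_class_ref T B w R hR hR' p h0 h1 E N r ρ hr g v hg hmean hv).trans ?_
  refine mul_le_mul_of_nonneg_right ?_ hv0
  refine le_trans (Finset.sum_le_sum fun a _ => ?_) (second_count T B w R hR hR' p h0 h1 E N)
  split_ifs
  · exact le_refl _
  · exact ex_nonneg h0 h1 E fun F _ => ind_nonneg _

end Pool.Agent.Lib.MP_56e41f_co
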