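import Pool.Agent.Lib.MP_56e41f_co.StrRun

open Finset

namespace Pool.Agent.Lib.MP_56e41f_co

variable {t Δ : ℕ} (T : TD t Δ) (B w : ℕ)

theorem touch_step_tch (F : Finset Lab) (s : St t) :
    (step T B w F s).tch = s.tch ∨ ∃ l, (step T B w F s).tch = l :: s.tch := by
  rw [step]
  cases act T B w s with
  | stop => left; rfl
  | root v => right; exact ⟨_, rfl⟩
  | rem u => left; rfl
  | ask v u x =>
    simp only
    split_ifs
    · right; exact ⟨_, rfl⟩
    · left; rfl

theorem touch_tl_succ (F : Finset Lab) (n : ℕ) :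
    tl T B w (n + 1) F = tl T B w n F ∨ ∃ l, tl T B w (n + 1) F = tl T B w n F ++ [l] := by
  rw [tl, tl, run_succ']
  rcases touch_step_tch T B w F (run T B w F n (init t)) with h | ⟨l, h⟩
  · left; rw [h]
  · right; exact ⟨l, by rw [h, List.reverse_cons]⟩

theorem touch_tl_zero (F : Finset Lab) : tl T B w 0 F = [] := rfl

theorem touch_prefix_mono (F : Finset Lab) {n m : ℕ} (h : n ≤ m) :
    tl T B w n F <+: tl T B w m F := by
  induction m, h using Nat.le_induction with
  | base => exact List.prefix_refl _
  | succ m hm ih =>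
    rcases touch_tl_succ T B w F m with h | ⟨l, h⟩
    · rw [h]; exact ih
    · rw [h]; exact ih.trans (List.prefix_append _ _)

/-- there is a time at which exactly the first `k+1` labels are used -/
theorem touch_time (F : Finset Lab) (N k : ℕ) (hk : k < (tl T B w N F).length) :
    ∃ n ≤ N, tl T B w n F = (tl T B w N F).take (k + 1) ∧
      ∀ m < n, (tl T B w m F).length ≤ k := by
  classical
  have hex : ∃ n, k < (tl T B w n F).length := ⟨N, hk⟩
  set n := Nat.find hex with hn
  have h1 : k < (tl T B w n F).length := Nat.find_spec hex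
  have h2 : n ≤ N := Nat.find_min' hex hk
  have h3 : ∀ m < n, (tl T B w m F).length ≤ k := by
    intro m hm
    have := Nat.find_min hex hm
    omega
  refine ⟨n, h2, ?_, h3⟩
  have h4 : (tl T B w n F).length = k + 1 := by
    cases hn' : n with
    | zero =>
      rw [hn', touch_tl_zero] at h1
      simp at h1
    | succ m =>
      have h5 := h3 m (by omega)
      rw [hn'] at h1
      rcases touch_tl_succ T B w F m with h | ⟨l, h⟩
      · rw [h] at h1; omega
      · rw [h, List.length_append] at h1 ⊢
        simp only [List.length_singleton] at h1 ⊢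
        omega
  have h5 := List.prefix_iff_eq_take.1 (touch_prefix_mono T B w F h2)
  rw [h4] at h5
  exact h5

theorem touch_mem_tch {N : ℕ} {F : Finset Lab} {a : Lab} :
    a ∈ tl T B w N F ↔ a ∈ (run T B w F N (init t)).tch := by
  rw [tl, List.mem_reverse]

theorem touch_closed {s : St t} (h : Str T B s) {a' : Lab} (ha' : a' ≠ []) :
    ∀ a : Lab, a ∈ s.tch → a' <:+ a → a' ∈ s.tch := by
  intro a
  induction a with
  | nil =>
    intro _ h1
    exact absurd (List.suffix_nil.1 h1) ha'
  | cons j b ih =>
    intro h1 h2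
    rcases List.suffix_cons_iff.1 h2 with h3 | h3
    · rw [h3]; exact h1
    · have hb : b ≠ [] := by
        rintro rfl
        exact ha' (List.suffix_nil.1 h3)
      exact ih (h.closed j b h1 hb) h3

theorem touch_run_eq (a : Lab) (ha : a ≠ []) (F F' : Finset Lab)
    (h : ∀ l, l ∉ Below a → (l ∈ F ↔ l ∈ F')) :
    ∀ n : ℕ, (∀ m < n, a ∉ tl T B w m F) →
      run T B w F' n (init t) = run T B w F n (init t) := by
  intro n
  induction n with
  | zero => intro _; rfl
  | succ n ih =>
    intro hm
    have h1 := ih fun m hmn => hm m (by omega)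
    rw [run_succ', run_succ', h1]
    have h2 : a ∉ (run T B w F n (init t)).tch := by
      rw [← touch_mem_tch T B w]
      exact hm n (by omega)
    have hS := Str_run T B w F n
    set s := run T B w F n (init t) with hs
    rw [step, step]
    cases hact : act T B w s with
    | stop => rfl
    | root v => rfl
    | rem u => rfl
    | ask v u x =>
      simp only
      obtain ⟨-, -, -, -, h5, -⟩ := act_ask T B w hact
      have h6 := (hS.lab u x h5).1
      have h7 : x.asks :: x.lab ∉ Below a := by
        rintro ⟨h8, h9⟩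
        rcases List.suffix_cons_iff.1 h8 with h10 | h10
        · exact h9 h10.symm
        · exact h2 (touch_closed T B hS ha x.lab h6 h10)
      have h8 := h _ h7
      by_cases h9 : x.asks :: x.lab ∈ F
      · rw [if_pos h9, if_pos (h8.1 h9)]
      · rw [if_neg h9, if_neg (fun h10 => h9 (h8.2 h10))]

theorem tl_nodup (N : ℕ) (F : Finset Lab) : (tl T B w N F).Nodup := by
  rw [tl, List.nodup_reverse]
  exact (Str_run T B w F N).nodup

theorem touch_ne_nil {N : ℕ} {F : Finset Lab} {a : Lab} (ha : a ∈ tl T B w N F) : a ≠ [] := by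
  rw [touch_mem_tch] at ha
  rintro rfl
  exact (Str_run T B w F N).nonnil ha

theorem tl_take (N : ℕ) (a : Lab) (k : ℕ) (F F' : Finset Lab)
    (h : ∀ l, l ∉ Below a → (l ∈ F ↔ l ∈ F')) (hk : (tl T B w N F)[k]? = some a) :
    (tl T B w N F').take (k + 1) = (tl T B w N F).take (k + 1) := by
  obtain ⟨hk1, hk2⟩ := List.getElem?_eq_some_iff.1 hk
  have ha : a ≠ [] := touch_ne_nil T B w (hk2 ▸ List.getElem_mem hk1)
  obtain ⟨n, hn, h1, h2⟩ := touch_time T B w F N k hk1
  have h3 : ∀ m < n, a ∉ tl T B w m F := by
    intro m hm hmem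
    have h4 := h2 m hm
    have h5 := touch_prefix_mono T B w F (show m ≤ N by omega)
    obtain ⟨i, hi, hia⟩ := List.getElem_of_mem hmem
    have h6 : (tl T B w N F)[i]? = some a := by
      obtain ⟨r, hr⟩ := h5
      rw [← hr, List.getElem?_append_left hi, List.getElem?_eq_getElem hi, hia]
    obtain ⟨hi1, hi2⟩ := List.getElem?_eq_some_iff.1 h6
    have h7 := (List.Nodup.getElem_inj_iff (tl_nodup T B w N F) (hi := hi1) (hj := hk1)).1
      (by rw [hi2, hk2])
    omega
  have h4 := touch_run_eq T B w a ha F F' h n h3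
  have h5 : tl T B w n F' = tl T B w n F := by rw [tl, tl, h4]
  have h6 := List.prefix_iff_eq_take.1 (touch_prefix_mono T B w F' hn)
  have h7 : (tl T B w n F).length = k + 1 := by
    rw [h1, List.length_take]
    omega
  rw [h5, h7] at h6
  rw [← h6, h1]

theorem tl_length (N : ℕ) (F : Finset Lab) : (tl T B w N F).length ≤ t + w := by
  rw [tl, List.length_reverse]
  exact tch_le T B w F N

theorem touch_mem_labs (R : ℕ) : ∀ (n : ℕ) (l : Lab), l.length ≤ n → (∀ i ∈ l, i < R) →
    l ∈ labs R n := by
  intro n
  induction n with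
  | zero =>
    intro l h _
    rw [labs, mem_singleton]
    exact List.length_eq_zero_iff.1 (by omega)
  | succ n ih =>
    intro l h1 h2
    rw [labs, mem_insert, mem_image]
    cases l with
    | nil => left; rfl
    | cons j a =>
      right
      refine ⟨(j, a), ?_, rfl⟩
      rw [mem_product, mem_range]
      refine ⟨h2 j List.mem_cons_self, ih a ?_ ?_⟩
      · simp only [List.length_cons] at h1
        omega
      · intro i hi
        exact h2 i (List.mem_cons_of_mem _ hi)

theorem touch_entries {s : St t} (h : Str T B s) {R : ℕ} (hR : B ≤ R)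
    (hR' : s.tch.length ≤ R) : ∀ a ∈ s.tch, ∀ i ∈ a, i < R := by
  intro a
  induction a with
  | nil => intro _ i hi; simp at hi
  | cons j a ih =>
    intro hja i hi
    by_cases ha : a = []
    · subst ha
      have h1 := h.rootlab j hja
      have h2 := h.rootsle
      have h3 : i = j := by simpa using hi
      omega
    · have h1 := h.closed j a hja ha
      have h2 := h.slotB j a hja ha
      rcases List.mem_cons.1 hi with h3 | h3
      · omega
      · exact ih h1 i h3

/-- used labels are in a finite set; ancestors are used earlier -/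
theorem tl_mem (R : ℕ) (hR : B ≤ R) (hR' : t + w ≤ R) (N : ℕ) (F : Finset Lab) (a : Lab)
    (ha : a ∈ tl T B w N F) : a ∈ labs R t ∧ a ≠ [] := by
  refine ⟨?_, touch_ne_nil T B w ha⟩
  rw [touch_mem_tch] at ha
  have hS := Str_run T B w F N
  have hl := tch_le T B w F N
  exact touch_mem_labs R t a (hS.len a ha) (touch_entries T B hS hR (by omega) a ha)

theorem tl_suffix (N : ℕ) (F : Finset Lab) (k k' : ℕ) (a a' : Lab)
    (hk : (tl T B w N F)[k]? = some a) (hk' : (tl T B w N F)[k']? = some a') (hlt : k < k') :
    ¬ (a' <:+ a) := by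
  intro hsuf
  obtain ⟨hk1, hk2⟩ := List.getElem?_eq_some_iff.1 hk
  obtain ⟨hk1', hk2'⟩ := List.getElem?_eq_some_iff.1 hk'
  have ha' : a' ≠ [] := touch_ne_nil T B w (hk2' ▸ List.getElem_mem hk1')
  obtain ⟨n, hn, h1, h2⟩ := touch_time T B w F N k hk1
  have h3 : a ∈ tl T B w n F := by
    rw [h1, List.mem_take_iff_getElem]
    exact ⟨k, by omega, hk2⟩
  have h4 : a' ∈ tl T B w n F := by
    rw [touch_mem_tch] at h3 ⊢
    exact touch_closed T B (Str_run T B w F n) ha' a h3 hsuf
  rw [h1, List.mem_take_iff_getElem] at h4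
  obtain ⟨i, hi, hia⟩ := h4
  have hi' : i < (tl T B w N F).length := by omega
  have h7 := (List.Nodup.getElem_inj_iff (tl_nodup T B w N F) (hi := hi') (hj := hk1')).1
      (by rw [hia, hk2'])
  omega

/-- the event `a ∈ tl` does not depend on the bits below `a` -/
theorem tl_mem_dep (N : ℕ) (a : Lab) : Dep (Below a)ᶜ (fun F => a ∈ tl T B w N F) := by
  have key : ∀ F F' : Finset Lab, (∀ x ∈ (Below a)ᶜ, (x ∈ F ↔ x ∈ F')) →
      a ∈ tl T B w N F → a ∈ tl T B w N F' := by
    intro F F' h ha
    obtain ⟨k, hk, hka⟩ := List.getElem_of_mem ha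
    have h1 := tl_take T B w N a k F F' (fun l hl => h l hl)
      (List.getElem?_eq_some_iff.2 ⟨hk, hka⟩)
    have h2 : a ∈ (tl T B w N F).take (k + 1) := by
      rw [List.mem_take_iff_getElem]
      exact ⟨k, by omega, hka⟩
    rw [← h1] at h2
    exact List.mem_of_mem_take h2
  intro F F' h
  exact propext ⟨key F F' h, key F' F fun x hx => (h x hx).symm⟩

end Pool.Agent.Lib.MP_56e41f_co
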